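import Pool.Agent.Lib.H89Y.A3

set_option autoImplicit false

/-!
H89Y, CHUNK A3b (M).  Tangency of a linear factor; crossing of two factors with two different coordinates.
-/

open MvPolynomial

namespace Pool.Agent.H89Y

open Pool.Agent.H89T Pool.Agent.H78G Pool.Agent.H53Y

variable {β : Type} {m : β → ℕ} {ι : Type} {sb : ι → β} {dg : ι → ℕ} {n r : ℕ}

/-- CHUNK A3b1.  PROOF.  `onecond` (A1) with `p = spc c`, `c = Function.update (fun _ => ∅) i {b}`, `w 0 = us e gnG i 0`, `w 1 = us e gnG i 1` (the generators of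
`IG e gnG i i`, `if_pos rfl`), `om = fun _ => 0`, `q = e ⟨sb i, b⟩`, `u 0 = single (q, 0) 1`, `u 1 = single (q, one) 1`.  By `map_us`, `us_spc_zero`, `us_spc_one` (A2, `Finset.sum_singleton`,
`hd`): `map w 0 = X (q, 0)`, `map w 1 = X (q, one)` (`Nat.cast_one`, `map_one`, `pow_zero`); `X _ = monomial (single _ 1) 1`, `Lead.monomial`.  Degrees: `hasMon_us_zero`, `hasMon_us_one` with
`dg i = 1`; `A2_xd_single` etc. (Lib/H89T/A2.lean).  Normal monomials: `Finsupp.single_le_iff`. -/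
theorem condL [DecidableEq ι] (e : Co m ≃ Fin n) (i : ι) (hd : dg i = 1) (b : Fin (m (sb i)))
    (one : Fin (r + 1)) (h1 : (one : ℕ) = 1) (d M : ℕ) :
    CondG (r := r) e sb dg i i d M
      {m' | m' ∈ Mon n r d M ∧ m' (e ⟨sb i, b⟩, 0) < 1 ∧ m' (e ⟨sb i, b⟩, one) = 0} := by
  have hone : one ≠ 0 := by
    intro h
    rw [h] at h1
    exact absurd h1 (by simp)
  obtain ⟨c, hc⟩ : ∃ c : ∀ i : ι, Finset (Fin (m (sb i))), c i = {b} :=
    ⟨Function.update (fun _ => ∅) i {b}, Function.update_self ..⟩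
  have hI0 : us (r := r) e (gnG m sb dg) i 0 ∈ IG (r := r) e (gnG m sb dg) i i := by
    unfold IG
    rw [if_pos rfl]
    exact Ideal.subset_span (Set.mem_insert _ _)
  have hI1 : us (r := r) e (gnG m sb dg) i 1 ∈ IG (r := r) e (gnG m sb dg) i i := by
    unfold IG
    rw [if_pos rfl]
    exact Ideal.subset_span (Set.mem_insert_of_mem _ rfl)
  have hE0 : MvPolynomial.map (eval (spc (m := m) (sb := sb) (dg := dg) c))
      (us (r := r) e (gnG m sb dg) i 0) =
        MvPolynomial.monomial (Finsupp.single (e ⟨sb i, b⟩, 0) 1) 1 := by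
    rw [map_us, us_spc_zero, hc, Finset.sum_singleton, hd, pow_one]
    rfl
  have hE1 : MvPolynomial.map (eval (spc (m := m) (sb := sb) (dg := dg) c))
      (us (r := r) e (gnG m sb dg) i 1) =
        MvPolynomial.monomial (Finsupp.single (e ⟨sb i, b⟩, one) 1) 1 := by
    rw [map_us, us_spc_one e c i one h1, hc, Finset.sum_singleton, hd, Nat.cast_one, map_one,
      one_mul, Nat.sub_self, pow_zero, one_mul]
    rfl
  obtain ⟨t, ht, h⟩ := onecond (r := r) (spc (m := m) (sb := sb) (dg := dg) c)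
    (IG (r := r) e (gnG m sb dg) i i) (d := d) (M := M) (fun _ => 0)
    ![us (r := r) e (gnG m sb dg) i 0, us (r := r) e (gnG m sb dg) i 1]
    (by
      rw [Fin.forall_fin_two]
      exact ⟨hI0, hI1⟩)
    ![Finsupp.single (e ⟨sb i, b⟩, 0) 1, Finsupp.single (e ⟨sb i, b⟩, one) 1]
    (by
      rw [Fin.forall_fin_two]
      constructor
      · show Lead _ (MvPolynomial.map (eval (spc (m := m) (sb := sb) (dg := dg) c))
          (us (r := r) e (gnG m sb dg) i 0)) (Finsupp.single (e ⟨sb i, b⟩, 0) 1)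
        rw [hE0]
        exact Lead.monomial _ _ one_ne_zero
      · show Lead _ (MvPolynomial.map (eval (spc (m := m) (sb := sb) (dg := dg) c))
          (us (r := r) e (gnG m sb dg) i 1)) (Finsupp.single (e ⟨sb i, b⟩, one) 1)
        rw [hE1]
        exact Lead.monomial _ _ one_ne_zero)
    (by
      rw [Fin.forall_fin_two]
      constructor
      · intro m' hm'
        show xd m' ≤ xd (Finsupp.single (e ⟨sb i, b⟩, (0 : Fin (r + 1))) 1) ∧
          jd m' ≤ jd (Finsupp.single (e ⟨sb i, b⟩, (0 : Fin (r + 1))) 1)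
        rw [A2_xd_single, A2_jd_single]
        have h2 := hasMon_us_zero (r := r) e (gnG m sb dg) i m' hm'
        rw [hd] at h2
        exact h2
      · intro m' hm'
        show xd m' ≤ xd (Finsupp.single (e ⟨sb i, b⟩, one) 1) ∧
          jd m' ≤ jd (Finsupp.single (e ⟨sb i, b⟩, one) 1)
        rw [A2_xd_single1 _ hone, A2_jd_single1 _ hone]
        have h2 := hasMon_us_one (r := r) e (gnG m sb dg) i one h1 m' hm'
        rw [hd] at h2
        exact h2)
  refine ⟨t, ht, fun m' hm' => ?_⟩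
  obtain ⟨y, hy, z, hz, hyz⟩ := Submodule.mem_sup.1 (h m' hm')
  refine Submodule.mem_sup.2 ⟨y, hy, z, Submodule.span_mono (Set.image_mono ?_) hz, hyz⟩
  rintro ν ⟨hν, hν0, hν1⟩
  have h3 : ¬ Finsupp.single (e ⟨sb i, b⟩, (0 : Fin (r + 1))) 1 ≤ ν := hν0
  have h4 : ¬ Finsupp.single (e ⟨sb i, b⟩, one) 1 ≤ ν := hν1
  rw [Finsupp.single_le_iff] at h3 h4
  exact ⟨hν, by omega, by omega⟩

/-- CHUNK A3b2.  PROOF.  `onecond` with `p = spc c`, `c = Function.update (Function.update (fun _ => ∅) i {b1}) i' {b2}` (`Function.update_of_ne`, `Function.update_self`),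
`w 0 = us e gnG i 0`, `w 1 = us e gnG i' 0` (the generators of `IG e gnG i i'`, `if_neg hii`), `om = fun _ => 0`, `u 0 = single (e ⟨sb i, b1⟩, 0) (dg i)`,
`u 1 = single (e ⟨sb i', b2⟩, 0) (dg i')`; `map w 0 = X (..) ^ dg i = monomial (u 0) 1` (`us_spc_zero`, `X_pow_eq_monomial`).  Degrees: `hasMon_us_zero`, `A2_xd_single`.
Normal monomials: `Finsupp.single_le_iff`. -/
theorem condX [DecidableEq ι] (e : Co m ≃ Fin n) (i i' : ι) (hii : i ≠ i') (b1 : Fin (m (sb i))) (b2 : Fin (m (sb i')))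
    (d M : ℕ) :
    CondG (r := r) e sb dg i i' d M
      {m' | m' ∈ Mon n r d M ∧ m' (e ⟨sb i, b1⟩, 0) < dg i ∧ m' (e ⟨sb i', b2⟩, 0) < dg i'} := by
  obtain ⟨c, hc, hc'⟩ : ∃ c : ∀ i : ι, Finset (Fin (m (sb i))), c i = {b1} ∧ c i' = {b2} :=
    ⟨Function.update (Function.update (fun _ => ∅) i {b1}) i' {b2},
      by rw [Function.update_of_ne hii, Function.update_self], Function.update_self ..⟩
  have hI0 : us (r := r) e (gnG m sb dg) i 0 ∈ IG (r := r) e (gnG m sb dg) i i' := by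
    unfold IG
    rw [if_neg hii]
    exact Ideal.subset_span (Set.mem_insert _ _)
  have hI1 : us (r := r) e (gnG m sb dg) i' 0 ∈ IG (r := r) e (gnG m sb dg) i i' := by
    unfold IG
    rw [if_neg hii]
    exact Ideal.subset_span (Set.mem_insert_of_mem _ rfl)
  have hE0 : MvPolynomial.map (eval (spc (m := m) (sb := sb) (dg := dg) c))
      (us (r := r) e (gnG m sb dg) i 0) =
        MvPolynomial.monomial (Finsupp.single (e ⟨sb i, b1⟩, 0) (dg i)) 1 := by
    rw [map_us, us_spc_zero, hc, Finset.sum_singleton, X_pow_eq_monomial]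
  have hE1 : MvPolynomial.map (eval (spc (m := m) (sb := sb) (dg := dg) c))
      (us (r := r) e (gnG m sb dg) i' 0) =
        MvPolynomial.monomial (Finsupp.single (e ⟨sb i', b2⟩, 0) (dg i')) 1 := by
    rw [map_us, us_spc_zero, hc', Finset.sum_singleton, X_pow_eq_monomial]
  obtain ⟨t, ht, h⟩ := onecond (r := r) (spc (m := m) (sb := sb) (dg := dg) c)
    (IG (r := r) e (gnG m sb dg) i i') (d := d) (M := M) (fun _ => 0)
    ![us (r := r) e (gnG m sb dg) i 0, us (r := r) e (gnG m sb dg) i' 0]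
    (by
      rw [Fin.forall_fin_two]
      exact ⟨hI0, hI1⟩)
    ![Finsupp.single (e ⟨sb i, b1⟩, 0) (dg i), Finsupp.single (e ⟨sb i', b2⟩, 0) (dg i')]
    (by
      rw [Fin.forall_fin_two]
      constructor
      · show Lead _ (MvPolynomial.map (eval (spc (m := m) (sb := sb) (dg := dg) c))
          (us (r := r) e (gnG m sb dg) i 0)) (Finsupp.single (e ⟨sb i, b1⟩, 0) (dg i))
        rw [hE0]
        exact Lead.monomial _ _ one_ne_zero
      · show Lead _ (MvPolynomial.map (eval (spc (m := m) (sb := sb) (dg := dg) c))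
          (us (r := r) e (gnG m sb dg) i' 0)) (Finsupp.single (e ⟨sb i', b2⟩, 0) (dg i'))
        rw [hE1]
        exact Lead.monomial _ _ one_ne_zero)
    (by
      rw [Fin.forall_fin_two]
      constructor
      · intro m' hm'
        show xd m' ≤ xd (Finsupp.single (e ⟨sb i, b1⟩, (0 : Fin (r + 1))) (dg i)) ∧
          jd m' ≤ jd (Finsupp.single (e ⟨sb i, b1⟩, (0 : Fin (r + 1))) (dg i))
        rw [A2_xd_single, A2_jd_single]
        exact hasMon_us_zero (r := r) e (gnG m sb dg) i m' hm'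
      · intro m' hm'
        show xd m' ≤ xd (Finsupp.single (e ⟨sb i', b2⟩, (0 : Fin (r + 1))) (dg i')) ∧
          jd m' ≤ jd (Finsupp.single (e ⟨sb i', b2⟩, (0 : Fin (r + 1))) (dg i'))
        rw [A2_xd_single, A2_jd_single]
        exact hasMon_us_zero (r := r) e (gnG m sb dg) i' m' hm')
  refine ⟨t, ht, fun m' hm' => ?_⟩
  obtain ⟨y, hy, z, hz, hyz⟩ := Submodule.mem_sup.1 (h m' hm')
  refine Submodule.mem_sup.2 ⟨y, hy, z, Submodule.span_mono (Set.image_mono ?_) hz, hyz⟩
  rintro ν ⟨hν, hν0, hν1⟩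
  have h3 : ¬ Finsupp.single (e ⟨sb i, b1⟩, (0 : Fin (r + 1))) (dg i) ≤ ν := hν0
  have h4 : ¬ Finsupp.single (e ⟨sb i', b2⟩, (0 : Fin (r + 1))) (dg i') ≤ ν := hν1
  rw [Finsupp.single_le_iff] at h3 h4
  exact ⟨hν, by omega, by omega⟩

end Pool.Agent.H89Y
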