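import Pool.Agent.Lib.H89Y.A3

set_option autoImplicit false

/-!
H89Y, CHUNK A3c (M).  Crossing of two linear factors of a block of dimension one.
-/

open MvPolynomial

namespace Pool.Agent.H89Y

open Pool.Agent.H89T Pool.Agent.H78G Pool.Agent.H53Y

variable {β : Type} {m : β → ℕ} {ι : Type} {sb : ι → β} {dg : ι → ℕ} {n r : ℕ}

theorem a3c_pt {β : Type} {m : β → ℕ} {s s' : β} (h : s = s') (p : 0 < m s) (p' : 0 < m s') :
    (⟨s, ⟨0, p⟩⟩ : Co m) = ⟨s', ⟨0, p'⟩⟩ := by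
  subst h
  rfl

theorem a3c_us0 (e : Co m ≃ Fin n) (j : ι) (hj : m (sb j) = 1) (hd : dg j = 1)
    (p : 0 < m (sb j)) :
    us (r := r) e (gnG m sb dg) j 0 = C (X ⟨j, ix hd 0⟩) +
      C (X ⟨j, ix hd (Fin.succ ⟨0, p⟩)⟩) * X (e ⟨sb j, ⟨0, p⟩⟩, 0) := by
  unfold us
  rw [uu_zero, ev_ix hd]
  unfold linA
  rw [Finset.sum_eq_single (⟨0, p⟩ : Fin (m (sb j)))]
  · rfl
  · intro b _ hb
    exact absurd (Fin.ext (by have := b.2; simp only; omega)) hb
  · intro h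
    exact absurd (Finset.mem_univ _) h

/-- CHUNK A3c.  PROOF.  Let `b : Fin (m (sb i))` be the only element (`hm`), `b' : Fin (m (sb i'))` the only element; `(⟨sb i, b⟩ : Co m) = ⟨sb i', b'⟩` (`Sigma.ext hs` and `HEq` : both `Fin`
types have one element; or: `Sigma.subtype_ext`, or `obtain` `i'`-block by rewriting: generalize `sb i' = s'` and `subst`).  Let `y = X (e ⟨sb i, b⟩, 0)`.  By `uu_zero` (Lib/H89T/N1.lean) and
`ev_ix` (C6a) with `linA` (a sum over a one element type: `Fintype.sum_unique`-like, or `Finset.sum_eq_single b`):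
`us e gnG i 0 = C (X ⟨i, ix hd 0⟩) + C (X ⟨i, ix hd b.succ⟩) * y`, `us e gnG i' 0 = C (X ⟨i', ix hd' 0⟩) + C (X ⟨i', ix hd' b'.succ⟩) * y`.  With `a0, a1, a0', a1'` for the four variables put
`t = a0 * a1' - a0' * a1`.  `C t = C a1' * us e gnG i 0 - C a1 * us e gnG i' 0 ∈ IG e gnG i i'` (`ring`; `if_neg hii`), so `t • monomial m' 1 = C t * monomial m' 1` is in the ideal
(`smul_eq_C_mul`, `Ideal.mul_mem_right`, `Submodule.mem_sup_left`).  `t ≠ 0`: evaluate at the point which is `1` at `⟨i, ix hd 0⟩` and at `⟨i', ix hd' b'.succ⟩` and `0` elsewhere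
(`i ≠ i'`, so `⟨i', ix hd' 0⟩ ≠ ⟨i, _⟩`, and `ix hd' 0 ≠ ix hd' b'.succ` by `ix_bij`): the value is `1 * 1 - 0 * 0 = 1`. -/
theorem condD [DecidableEq ι] (e : Co m ≃ Fin n) (i i' : ι) (hii : i ≠ i') (hs : sb i = sb i') (hm : m (sb i) = 1)
    (hd : dg i = 1) (hd' : dg i' = 1) (d M : ℕ) :
    CondG (r := r) e sb dg i i' d M ∅ := by
  have p : 0 < m (sb i) := by omega
  have p' : 0 < m (sb i') := by rw [← hs]; exact p
  have hm' : m (sb i') = 1 := by rw [← hs]; exact hm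
  have hy : (e ⟨sb i', ⟨0, p'⟩⟩ : Fin n) = e ⟨sb i, ⟨0, p⟩⟩ :=
    congrArg e (a3c_pt hs.symm p' p)
  have h1 := a3c_us0 (r := r) e i hm hd p
  have h2 := a3c_us0 (r := r) e i' hm' hd' p'
  rw [hy] at h2
  refine ⟨X (⟨i, ix hd 0⟩ : Cf m sb dg) * X (⟨i', ix hd' (Fin.succ ⟨0, p'⟩)⟩ : Cf m sb dg) -
    X (⟨i', ix hd' 0⟩ : Cf m sb dg) * X (⟨i, ix hd (Fin.succ ⟨0, p⟩)⟩ : Cf m sb dg), ?_, ?_⟩
  · intro h0
    classical
    set A : Cf m sb dg := ⟨i, ix hd 0⟩ with hA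
    set D : Cf m sb dg := ⟨i', ix hd' (Fin.succ ⟨0, p'⟩)⟩ with hD
    set B : Cf m sb dg := ⟨i', ix hd' 0⟩ with hB
    have hBA : B ≠ A := by
      intro h
      exact hii (congrArg Sigma.fst h).symm
    have hBD : B ≠ D := by
      intro h
      rw [hB, hD, Sigma.mk.injEq] at h
      have h3 := (ix_bij hd').1 (eq_of_heq h.2)
      exact absurd h3.symm (Fin.succ_ne_zero _)
    have h3 := congrArg (eval (fun x : Cf m sb dg => if x = A ∨ x = D then (1 : ℂ) else 0)) h0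
    simp only [map_sub, map_mul, eval_X, map_zero] at h3
    rw [if_neg (show ¬ (B = A ∨ B = D) from by
      rintro (h | h)
      · exact hBA h
      · exact hBD h)] at h3
    simp at h3
  · intro m' _
    apply Submodule.mem_sup_left
    rw [Submodule.restrictScalars_mem, smul_eq_C_mul]
    apply Ideal.mul_mem_right
    unfold IG
    rw [if_neg hii, Ideal.mem_span_pair]
    refine ⟨C (X (⟨i', ix hd' (Fin.succ ⟨0, p'⟩)⟩ : Cf m sb dg)),
      - C (X (⟨i, ix hd (Fin.succ ⟨0, p⟩)⟩ : Cf m sb dg)), ?_⟩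
    rw [h1, h2, map_sub, map_mul, map_mul]
    ring

end Pool.Agent.H89Y
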