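import Pool.Agent.Lib.H89T.K3

set_option autoImplicit false

/-!
H89Y, CHUNK A4 (M).  Counting the normal monomials.
-/

namespace Pool.Agent.H89Y

open Pool.Agent.H89T

/-- The bound for two small coordinate exponents. -/
def cA (n d r M : ℕ) : ℕ := (if 2 ≤ n then (d + 1) ^ (n - 2) else 0) * (M + n * r).choose (n * r)

/-- The bound for one small coordinate exponent and one jet exponent `0`. -/
def cB (n d r M : ℕ) : ℕ := (d + 1) ^ (n - 1) * (M + (n * r - 1)).choose (n * r - 1)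

variable {n r : ℕ}

/-- CHUNK A4a.  PROOF.  As the part `hB` of `card_Normal_le` (Lib/H89T/K2.lean): `K2_card`, `card_exp_lt_two`, `card_exp`; `2 ≤ n` since `j1 ≠ j2`. -/
theorem ncard_NorA {j1 j2 : Fin n} (h : j1 ≠ j2) (k1 k2 d M : ℕ) :
    ({m' | m' ∈ Mon n r d M ∧ m' (j1, 0) < k1 ∧ m' (j2, 0) < k2} : Set (JV n r →₀ ℕ)).ncard ≤
      k1 * k2 * cA n d r M := by
  classical
  have hn : 2 ≤ n := by
    by_contra hlt
    push Not at hlt
    apply h
    apply Fin.ext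
    have h1 := j1.2
    have h2 := j2.2
    omega
  unfold cA
  rw [if_pos hn, ← Nat.card_coe_set_eq, K2_card (fun f => ∑ b, f b ≤ d ∧ f j1 < k1 ∧ f j2 < k2)
      (fun g => ∑ p, g p ≤ M) _]
  · rw [← mul_assoc]
    apply Nat.mul_le_mul (card_exp_lt_two h d k1 k2)
    rw [card_exp]
    simp
  · intro m
    show (xd m ≤ d ∧ jd m ≤ M) ∧ m (j1, 0) < k1 ∧ m (j2, 0) < k2 ↔ _
    rw [xd_split, jd_split]
    constructor
    · rintro ⟨⟨a1, a2⟩, a3, a4⟩
      exact ⟨⟨a1, a3, a4⟩, a2⟩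
    · rintro ⟨⟨a1, a3, a4⟩, a2⟩
      exact ⟨⟨a1, a2⟩, a3, a4⟩

/-- CHUNK A4b.  PROOF.  As the part `hA` of `card_Normal_le`: `K2_card`, `card_exp_lt_one`, `K2_card_zero_at`. -/
theorem ncard_NorB (j1 j2 : Fin n) (one : Fin (r + 1)) (h1 : (one : ℕ) = 1) (k d M : ℕ) :
    ({m' | m' ∈ Mon n r d M ∧ m' (j1, 0) < k ∧ m' (j2, one) = 0} : Set (JV n r →₀ ℕ)).ncard ≤ k * cB n d r M := by
  classical
  have hr : 0 < r := by
    have := one.2
    omega
  obtain ⟨z, hz⟩ : ∃ z : Fin r, z = ⟨0, hr⟩ := ⟨_, rfl⟩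
  have hone : one = z.succ := by
    apply Fin.ext
    simp [hz, h1]
  unfold cB
  rw [← Nat.card_coe_set_eq, K2_card (fun f => ∑ b, f b ≤ d ∧ f j1 < k)
      (fun g => ∑ p, g p ≤ M ∧ g (j2, z) = 0) _]
  · rw [← mul_assoc]
    apply Nat.mul_le_mul (card_exp_lt_one j1 d k)
    have := K2_card_zero_at (Fin n × Fin r) M (j2, z)
    simpa using this
  · intro m
    show (xd m ≤ d ∧ jd m ≤ M) ∧ m (j1, 0) < k ∧ m (j2, one) = 0 ↔ _
    rw [xd_split, jd_split, hone]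
    constructor
    · rintro ⟨⟨a1, a2⟩, a3, a4⟩
      exact ⟨⟨a1, a3⟩, a2, a4⟩
    · rintro ⟨⟨a1, a3⟩, a2, a4⟩
      exact ⟨⟨a1, a2⟩, a3, a4⟩

/-- CHUNK A4c.  PROOF.  `card_Normal_le` (Lib/H89T/K2.lean), `Nat.card_coe_set_eq`, `k - 1 ≤ k`. -/
theorem ncard_Normal {j1 j2 : Fin n} (h : j1 ≠ j2) (one : Fin (r + 1)) (h1 : (one : ℕ) = 1) (k d M : ℕ) :
    (Normal n r k d M j1 j2 one).ncard ≤ k * k * cA n d r M + k * cB n d r M := by
  have hn : 2 ≤ n := by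
    by_contra hlt
    push Not at hlt
    apply h
    apply Fin.ext
    have h1 := j1.2
    have h2 := j2.2
    omega
  have h2 := card_Normal_le (r := r) (k := k) (d := d) (M := M) h one h1
  rw [Nat.card_coe_set_eq] at h2
  refine h2.trans ?_
  unfold cA cB
  rw [if_pos hn, add_comm]
  apply Nat.add_le_add
  · rw [← mul_assoc]
    exact Nat.mul_le_mul_right _ (Nat.mul_le_mul_right _ (Nat.mul_le_mul_left _ (Nat.sub_le k 1)))
  · rw [← mul_assoc]

end Pool.Agent.H89Y
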