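import Pool.Agent.Lib.H89Y.A3a
import Pool.Agent.Lib.H89Y.A3b
import Pool.Agent.Lib.H89Y.A3c
import Pool.Agent.Lib.H89Y.A4

set_option autoImplicit false

/-!
H89Y, CHUNK A5 (S/M).  All pairs of factors.
-/

open MvPolynomial

namespace Pool.Agent.H89Y

open Pool.Agent.H89T Pool.Agent.H78G Pool.Agent.H53Y

variable {β : Type} {m : β → ℕ} {ι : Type} {sb : ι → β} {dg : ι → ℕ} {n r : ℕ}

/-- CHUNK A5.  PROOF.  Finiteness: all sets are contained in `Mon n r d M` (`Mon_finite`).  Cases.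
`i = i'`: if `dg i = 1` take `condL` (A3b) with any `b : Fin (m (sb i))` (`hm`) and `ncard_NorB` (`k = 1`); otherwise `2 ≤ dg i` and `2 ≤ m (sb i)` (`hT`): `condT` (A3a) with `b1 = ⟨0, _⟩`,
`b2 = ⟨1, _⟩`, `ncard_Normal`.
`i ≠ i'`: if `sb i = sb i'` and `m (sb i) = 1`: both factors are linear (`hT`), `condD` (A3c), `ncard ∅ = 0`.  Otherwise choose `b1 = ⟨0, _⟩ : Fin (m (sb i))` and `b2 : Fin (m (sb i'))` with
`(⟨sb i, b1⟩ : Co m) ≠ ⟨sb i', b2⟩`: if `sb i ≠ sb i'` any `b2`; if `sb i = sb i'` then `2 ≤ m (sb i')` and `b2 = ⟨1, _⟩` (equality of the sigma pairs gives equality of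
the values: `congrArg (fun x : Co m => (x.2 : ℕ))`); `condX` (A3b), `ncard_NorA` (`e.injective`). -/
theorem exists_cond [DecidableEq ι] (e : Co m ≃ Fin n) (hm : ∀ s, 1 ≤ m s)
    (hT : ∀ i, dg i = 1 ∨ (2 ≤ dg i ∧ 2 ≤ m (sb i))) (one : Fin (r + 1)) (h1 : (one : ℕ) = 1) (i i' : ι) (d M : ℕ) :
    ∃ κ : Set (JV n r →₀ ℕ), κ.Finite ∧ CondG e sb dg i i' d M κ ∧
      κ.ncard ≤ dg i * dg i' * cA n d r M + (if i = i' then dg i * cB n d r M else 0) := by
  by_cases hii : i = i'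
  · subst hii
    rw [if_pos rfl]
    rcases hT i with hd | ⟨hd, hm2⟩
    · refine ⟨_, ?_, condL e i hd ⟨0, hm _⟩ one h1 d M, ?_⟩
      · exact (Mon_finite n r d M).subset fun x hx => hx.1
      · refine (ncard_NorB _ _ one h1 1 d M).trans ?_
        rw [hd]
        exact Nat.le_add_left _ _
    · have hb : (⟨0, by omega⟩ : Fin (m (sb i))) ≠ ⟨1, by omega⟩ := by
        intro h
        exact absurd (congrArg Fin.val h) (by norm_num)
      refine ⟨_, ?_, condT e i hd ⟨0, by omega⟩ ⟨1, by omega⟩ hb one h1 d M, ?_⟩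
      · exact (Mon_finite n r d M).subset fun x hx => ⟨hx.1, hx.2.1⟩
      · refine ncard_Normal (fun h => hb ?_) one h1 (dg i) d M
        have h2 := e.injective h
        have h3 : HEq (⟨0, by omega⟩ : Fin (m (sb i))) (⟨1, by omega⟩ : Fin (m (sb i))) := (Sigma.mk.inj h2).2
        exact eq_of_heq h3
  · rw [if_neg hii, add_zero]
    by_cases hs : sb i = sb i' ∧ m (sb i) = 1
    · obtain ⟨hs, hm1⟩ := hs
      have hd : dg i = 1 := (hT i).resolve_right fun h => by
        have := h.2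
        omega
      have hd' : dg i' = 1 := (hT i').resolve_right fun h => by
        have h2 := h.2
        rw [← hs] at h2
        omega
      refine ⟨∅, Set.finite_empty, condD e i i' hii hs hm1 hd hd' d M, ?_⟩
      rw [Set.ncard_empty]
      exact Nat.zero_le _
    · obtain ⟨b1, b2, hb⟩ : ∃ (b1 : Fin (m (sb i))) (b2 : Fin (m (sb i'))), (⟨sb i, b1⟩ : Co m) ≠ ⟨sb i', b2⟩ := by
        by_cases hs' : sb i = sb i'
        · have h2 : m (sb i) ≠ 1 := fun h => hs ⟨hs', h⟩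
          have h3 := hm (sb i)
          have h4 : 2 ≤ m (sb i') := by
            rw [← hs']
            omega
          refine ⟨⟨0, h3⟩, ⟨1, h4⟩, fun h => ?_⟩
          have h5 := congrArg (fun x : Co m => (x.2 : ℕ)) h
          exact absurd h5 (by norm_num)
        · exact ⟨⟨0, hm _⟩, ⟨0, hm _⟩, fun h => hs' (congrArg Sigma.fst h)⟩
      refine ⟨_, ?_, condX e i i' hii b1 b2 d M, ncard_NorA (fun h => hb (e.injective h)) (dg i) (dg i') d M⟩
      exact (Mon_finite n r d M).subset fun x hx => hx.1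

end Pool.Agent.H89Y
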