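import Pool.Agent.Lib.H89Y.A4

set_option autoImplicit false

/-!
H89Y, CHUNK A6 (M).  The choice of the parameters (model Lib/H89T/K3.lean).
-/

namespace Pool.Agent.H89Y

open Pool.Agent.H89T

/-- CHUNK A6a.  PROOF.  Copy of `exists_parameters` (Lib/H89T/K3.lean): there `2 ≤ n` is only used for `1 ≤ n * r`, and `r` can be taken `≥ r₀` (take the maximum in the choice of `r`:
`exists_nat_ge (max (max (2 / α) (32 * c₁ / α ^ 2)) r₀)`). -/
theorem exists_parametersG (n : ℕ) (hn : 1 ≤ n) (r₀ : ℕ) (c₁ : ℝ) (hc₁ : 0 < c₁) (α : ℝ) (hα : 0 < α) :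
    ∃ r s M : ℕ, 1 ≤ r ∧ r₀ ≤ r ∧ 1 ≤ s ∧ (s : ℝ) ≤ α * r ∧
      ∑ l ∈ Finset.range r,
        (c₁ / s * ((M + l + (n * r - 1)).choose (n * r - 1) : ℝ) +
          c₁ / s ^ 2 * ((M + l + n * r).choose (n * r) : ℝ)) <
        ((M + n * r).choose (n * r) : ℝ) := by
  obtain ⟨r, hr'⟩ := exists_nat_ge (max (max (2 / α) (32 * c₁ / α ^ 2)) r₀)
  have hr : max (2 / α) (32 * c₁ / α ^ 2) ≤ r := le_trans (le_max_left _ _) hr'
  have hrr : r₀ ≤ r := by
    have h := le_trans (le_max_right _ _) hr'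
    exact_mod_cast h
  have hr1 : 2 / α ≤ r := le_trans (le_max_left _ _) hr
  have hr2 : 32 * c₁ / α ^ 2 ≤ r := le_trans (le_max_right _ _) hr
  have hr0 : (0 : ℝ) < r := lt_of_lt_of_le (by positivity) hr1
  have hrn : 1 ≤ r := by exact_mod_cast hr0
  have har : 2 ≤ α * r := by
    rw [div_le_iff₀ hα] at hr1
    linarith
  have hs1 : ((⌊α * r⌋₊ : ℕ) : ℝ) ≤ α * r := Nat.floor_le (by positivity)
  have hs2 : α * r / 2 ≤ ((⌊α * r⌋₊ : ℕ) : ℝ) := by
    have := Nat.lt_floor_add_one (α * r)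
    linarith
  set s : ℕ := ⌊α * r⌋₊ with hs
  have hs3 : (1 : ℝ) ≤ s := by linarith
  have hs4 : 1 ≤ s := by exact_mod_cast hs3
  have hsp : (0 : ℝ) < s := by linarith
  set N : ℕ := n * r with hN
  have hN1 : 1 ≤ N := Nat.one_le_iff_ne_zero.mpr (by positivity)
  -- second part
  have hq : c₁ / s ^ 2 * 2 * r ≤ 1 / 4 := by
    have h1 : c₁ / (s : ℝ) ^ 2 * 2 * r ≤ c₁ / (α * r / 2) ^ 2 * 2 * r := by
      have : c₁ / (s : ℝ) ^ 2 ≤ c₁ / (α * r / 2) ^ 2 := by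
        apply div_le_div_of_nonneg_left hc₁.le (by positivity)
        gcongr
      gcongr
    have h2 : c₁ / (α * r / 2) ^ 2 * 2 * r = 8 * c₁ / α ^ 2 / r := by
      field_simp
      ring
    have h3 : 8 * c₁ / α ^ 2 / r ≤ 1 / 4 := by
      rw [div_le_iff₀ hr0]
      have : 32 * c₁ / α ^ 2 = 4 * (8 * c₁ / α ^ 2) := by ring
      linarith
    linarith
  -- choice of `M`
  have hlim : Filter.Tendsto (fun M : ℕ => (1 + (N : ℝ) / ((M : ℝ) + 1)) ^ r) Filter.atTop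
      (nhds ((1 + 0) ^ r)) := by
    apply Filter.Tendsto.pow
    apply Filter.Tendsto.add tendsto_const_nhds
    have h := (tendsto_const_div_atTop_nhds_zero_nat (N : ℝ)).comp (Filter.tendsto_add_atTop_nat 1)
    refine h.congr fun M => ?_
    simp
  have hlim2 : Filter.Tendsto (fun M : ℕ => c₁ / s * (2 * ((N : ℝ) / ((M : ℝ) + 1))) * r)
      Filter.atTop (nhds (c₁ / s * (2 * 0) * r)) := by
    apply Filter.Tendsto.mul_const
    apply Filter.Tendsto.const_mul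
    apply Filter.Tendsto.const_mul
    have h := (tendsto_const_div_atTop_nhds_zero_nat (N : ℝ)).comp (Filter.tendsto_add_atTop_nat 1)
    refine h.congr fun M => ?_
    simp
  have he1 : ∀ᶠ M : ℕ in Filter.atTop, (1 + (N : ℝ) / ((M : ℝ) + 1)) ^ r < 2 := by
    apply hlim.eventually_lt_const
    norm_num
  have he2 : ∀ᶠ M : ℕ in Filter.atTop, c₁ / s * (2 * ((N : ℝ) / ((M : ℝ) + 1))) * r < 1 / 4 := by
    apply hlim2.eventually_lt_const
    norm_num
  obtain ⟨M, hM1, hM2⟩ := (he1.and he2).exists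
  refine ⟨r, s, M, hrn, hrr, hs4, hs1, ?_⟩
  have hC : (0 : ℝ) < ((M + N).choose N : ℝ) := by
    exact_mod_cast Nat.choose_pos (by omega)
  set Q : ℝ := ((M + N).choose N : ℝ) with hQ
  have hb : ∀ l ∈ Finset.range r, (c₁ / s * ((M + l + (N - 1)).choose (N - 1) : ℝ) +
      c₁ / s ^ 2 * ((M + l + N).choose N : ℝ)) ≤
      (c₁ / s * (2 * ((N : ℝ) / ((M : ℝ) + 1))) + c₁ / s ^ 2 * 2) * Q := by
    intro l hl
    rw [Finset.mem_range] at hl
    have h1 : (1 + (N : ℝ) / ((M : ℝ) + 1)) ^ l ≤ 2 := by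
      refine le_trans ?_ hM1.le
      apply pow_le_pow_right₀ _ hl.le
      have : (0 : ℝ) ≤ (N : ℝ) / ((M : ℝ) + 1) := by positivity
      linarith
    have h2 : ((M + l + N).choose N : ℝ) ≤ 2 * Q := by
      refine le_trans (K3_pow N M l) ?_
      exact mul_le_mul_of_nonneg_right h1 hC.le
    have h3 : ((M + l + (N - 1)).choose (N - 1) : ℝ) ≤ 2 * ((N : ℝ) / ((M : ℝ) + 1)) * Q := by
      rw [K3_less N (M + l) hN1]
      have h4 : (N : ℝ) / (((M + l : ℕ) : ℝ) + N) ≤ (N : ℝ) / ((M : ℝ) + 1) := by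
        apply div_le_div_of_nonneg_left (by positivity) (by positivity)
        push_cast
        have h5 : (0 : ℝ) ≤ (l : ℝ) := by positivity
        have h6 : (1 : ℝ) ≤ (N : ℝ) := by exact_mod_cast hN1
        linarith
      calc (N : ℝ) / (((M + l : ℕ) : ℝ) + N) * ((M + l + N).choose N : ℝ)
          ≤ (N : ℝ) / ((M : ℝ) + 1) * (2 * Q) := by
            apply mul_le_mul h4 h2 (by positivity) (by positivity)
        _ = 2 * ((N : ℝ) / ((M : ℝ) + 1)) * Q := by ring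
    have h5 : c₁ / s * ((M + l + (N - 1)).choose (N - 1) : ℝ) ≤
        c₁ / s * (2 * ((N : ℝ) / ((M : ℝ) + 1)) * Q) :=
      mul_le_mul_of_nonneg_left h3 (by positivity)
    have h6 : c₁ / s ^ 2 * ((M + l + N).choose N : ℝ) ≤ c₁ / s ^ 2 * (2 * Q) :=
      mul_le_mul_of_nonneg_left h2 (by positivity)
    calc c₁ / s * ((M + l + (N - 1)).choose (N - 1) : ℝ) +
        c₁ / s ^ 2 * ((M + l + N).choose N : ℝ)
        ≤ c₁ / s * (2 * ((N : ℝ) / ((M : ℝ) + 1)) * Q) + c₁ / s ^ 2 * (2 * Q) :=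
          add_le_add h5 h6
      _ = (c₁ / s * (2 * ((N : ℝ) / ((M : ℝ) + 1))) + c₁ / s ^ 2 * 2) * Q := by ring
  calc ∑ l ∈ Finset.range r, (c₁ / s * ((M + l + (N - 1)).choose (N - 1) : ℝ) +
      c₁ / s ^ 2 * ((M + l + N).choose N : ℝ))
      ≤ ∑ l ∈ Finset.range r,
        (c₁ / s * (2 * ((N : ℝ) / ((M : ℝ) + 1))) + c₁ / s ^ 2 * 2) * Q := Finset.sum_le_sum hb
    _ = (c₁ / s * (2 * ((N : ℝ) / ((M : ℝ) + 1))) * r + c₁ / s ^ 2 * 2 * r) * Q := by
        rw [Finset.sum_const, Finset.card_range, nsmul_eq_mul]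
        ring
    _ < 1 * Q := by
        apply mul_lt_mul_of_pos_right _ hC
        linarith
    _ = Q := one_mul Q


/-- CHUNK A6b.  PROOF.  As `count_A` (Lib/H89T/K3.lean) with `c₁ = (2 n) ^ n`, `d = s * D`: the lower bound `card_Mon`, `card_exp_ge`: `Mon ≥ (d / n) ^ n * choose (M + n r) (n r)`;
the terms: `D * (d + 1) ^ (n - 1) ≤ (d / n) ^ n * (2 n) ^ n / s` (`hT1` of `count_A` with `k := D`) and `D * D * (if 2 ≤ n then (d + 1) ^ (n - 2) else 0) ≤ (d / n) ^ n * (2 n) ^ n / s ^ 2`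
(`hT2` of `count_A` for `2 ≤ n`; trivial for `n = 1`).  Unfold `cA`, `cB`. -/
theorem count_G (n : ℕ) (hn : 1 ≤ n) (r₀ : ℕ) (α : ℝ) (hα : 0 < α) : ∃ r s M : ℕ, 1 ≤ r ∧ r₀ ≤ r ∧
    (s : ℝ) ≤ α * r ∧ ∀ D : ℕ, 1 ≤ D →
      ∑ l ∈ Finset.range r, (D * D * cA n (s * D) r (M + l) + D * cB n (s * D) r (M + l)) <
        (Mon n r (s * D) M).ncard := by
  have hn0 : (0 : ℝ) < n := by
    have : 0 < n := by omega
    exact_mod_cast this
  obtain ⟨r, s, M, hr, hrr, hs, hsr, hsum⟩ :=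
    exists_parametersG n hn r₀ ((2 * n : ℝ) ^ n) (by positivity) α hα
  refine ⟨r, s, M, hr, hrr, hsr, ?_⟩
  intro k hk
  have hs0 : (0 : ℝ) < s := by exact_mod_cast hs
  have hk0 : (0 : ℝ) < k := by
    have : 0 < k := by omega
    exact_mod_cast this
  set d : ℕ := s * k with hd
  have hd1 : 1 ≤ d := Nat.mul_pos hs (by omega)
  have hdr : (d : ℝ) = s * k := by rw [hd]; push_cast; ring
  have hd0 : (0 : ℝ) < d := by exact_mod_cast hd1
  have hd1r : (1 : ℝ) ≤ d := by exact_mod_cast hd1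
  set D : ℝ := ((d : ℝ) / n) ^ n with hD
  have hD0 : 0 < D := by positivity
  -- the lower bound
  have hlow : D * ((M + n * r).choose (n * r) : ℝ) ≤ ((Mon n r d M).ncard : ℝ) := by
    rw [← Nat.card_coe_set_eq, card_Mon]
    push_cast
    apply mul_le_mul_of_nonneg_right _ (by positivity)
    exact card_exp_ge (by omega) d
  -- the two terms
  have hcn : D * (2 * n : ℝ) ^ n = 2 ^ n * (d : ℝ) ^ n := by
    rw [hD, ← mul_pow, ← mul_pow]
    congr 1
    field_simp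
  have hT1 : (k : ℝ) * (d + 1) ^ (n - 1) ≤ D * ((2 * n : ℝ) ^ n / s) := by
    have h1 : ((d : ℝ) + 1) ^ (n - 1) ≤ (2 * (d : ℝ)) ^ (n - 1) := by
      apply pow_le_pow_left₀ (by positivity)
      linarith
    have h2 : D * ((2 * n : ℝ) ^ n / s) = 2 ^ n * (d : ℝ) ^ n / s := by
      rw [← hcn]; ring
    have h3 : (d : ℝ) ^ n / s = k * (d : ℝ) ^ (n - 1) := by
      obtain ⟨m, rfl⟩ : ∃ m, n = m + 1 := ⟨n - 1, by omega⟩
      rw [Nat.add_sub_cancel, pow_succ]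
      rw [show (d : ℝ) ^ m * (d : ℝ) / s = (d : ℝ) ^ m * ((d : ℝ) / s) by ring]
      rw [show (d : ℝ) / s = k by rw [hdr]; field_simp]
      ring
    have h4 : (2 : ℝ) ^ (n - 1) ≤ 2 ^ n := pow_le_pow_right₀ (by norm_num) (by omega)
    calc (k : ℝ) * (d + 1) ^ (n - 1) ≤ k * (2 * (d : ℝ)) ^ (n - 1) := by gcongr
      _ = 2 ^ (n - 1) * (k * (d : ℝ) ^ (n - 1)) := by rw [mul_pow]; ring
      _ ≤ 2 ^ n * (k * (d : ℝ) ^ (n - 1)) := by gcongr
      _ = D * ((2 * n : ℝ) ^ n / s) := by rw [h2, ← h3]; ring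
  have hT2 : (k : ℝ) * k * (if 2 ≤ n then ((d : ℝ) + 1) ^ (n - 2) else 0) ≤ D * ((2 * n : ℝ) ^ n / s ^ 2) := by
    by_cases hn2 : 2 ≤ n
    · rw [if_pos hn2]
      have h1 : ((d : ℝ) + 1) ^ (n - 2) ≤ (2 * (d : ℝ)) ^ (n - 2) := by
        apply pow_le_pow_left₀ (by positivity)
        linarith
      have h2 : D * ((2 * n : ℝ) ^ n / s ^ 2) = 2 ^ n * (d : ℝ) ^ n / s ^ 2 := by
        rw [← hcn]; ring
      have h3 : (d : ℝ) ^ n / s ^ 2 = k * k * (d : ℝ) ^ (n - 2) := by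
        obtain ⟨m, rfl⟩ : ∃ m, n = m + 2 := ⟨n - 2, by omega⟩
        rw [Nat.add_sub_cancel, pow_add]
        rw [show (d : ℝ) ^ m * (d : ℝ) ^ 2 / s ^ 2 = (d : ℝ) ^ m * ((d : ℝ) / s) ^ 2 by
          rw [div_pow]; ring]
        rw [show (d : ℝ) / s = k by rw [hdr]; field_simp]
        ring
      have h4 : (2 : ℝ) ^ (n - 2) ≤ 2 ^ n := pow_le_pow_right₀ (by norm_num) (by omega)
      calc (k : ℝ) * k * (d + 1) ^ (n - 2) ≤ k * k * (2 * (d : ℝ)) ^ (n - 2) := by gcongr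
        _ = 2 ^ (n - 2) * (k * k * (d : ℝ) ^ (n - 2)) := by rw [mul_pow]; ring
        _ ≤ 2 ^ n * (k * k * (d : ℝ) ^ (n - 2)) := by gcongr
        _ = D * ((2 * n : ℝ) ^ n / s ^ 2) := by rw [h2, ← h3]; ring
    · rw [if_neg hn2, mul_zero]
      positivity
  -- the sum
  have hup : ((∑ l ∈ Finset.range r, (k * k * cA n d r (M + l) + k * cB n d r (M + l)) : ℕ) : ℝ) ≤
      D * ∑ l ∈ Finset.range r,
        ((2 * n : ℝ) ^ n / s * ((M + l + (n * r - 1)).choose (n * r - 1) : ℝ) +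
          (2 * n : ℝ) ^ n / s ^ 2 * ((M + l + n * r).choose (n * r) : ℝ)) := by
    rw [Nat.cast_sum, Finset.mul_sum]
    apply Finset.sum_le_sum
    intro l _
    have h' : ((k * k * cA n d r (M + l) + k * cB n d r (M + l) : ℕ) : ℝ) =
        (k : ℝ) * (d + 1) ^ (n - 1) * ((M + l + (n * r - 1)).choose (n * r - 1) : ℝ) +
        (k : ℝ) * k * (if 2 ≤ n then ((d : ℝ) + 1) ^ (n - 2) else 0) * ((M + l + n * r).choose (n * r) : ℝ) := by
      unfold cA cB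
      push_cast
      ring
    rw [h']
    have e1 := mul_le_mul_of_nonneg_right hT1
      (show (0 : ℝ) ≤ ((M + l + (n * r - 1)).choose (n * r - 1) : ℝ) by positivity)
    have e2 := mul_le_mul_of_nonneg_right hT2
      (show (0 : ℝ) ≤ ((M + l + n * r).choose (n * r) : ℝ) by positivity)
    refine le_trans (add_le_add e1 e2) (le_of_eq ?_)
    ring
  have hfin : ((∑ l ∈ Finset.range r, (k * k * cA n d r (M + l) + k * cB n d r (M + l)) : ℕ) : ℝ) <
      (((Mon n r d M).ncard : ℕ) : ℝ) := by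
    refine lt_of_le_of_lt hup (lt_of_lt_of_le ?_ hlow)
    exact mul_lt_mul_of_pos_left hsum hD0
  exact_mod_cast hfin


end Pool.Agent.H89Y
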