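import Pool.Agent.Lib.H89Y.A5

set_option autoImplicit false

/-!
H89Y, CHUNK A7 (M).  Existence of the operator for the generic arrangement (model Lib/H78G/A3.lean).
-/

open MvPolynomial

namespace Pool.Agent.H89Y

open Pool.Agent.H89T Pool.Agent.H78G Pool.Agent.H53Y

variable {β : Type} {m : β → ℕ} {ι : Type} {sb : ι → β} {dg : ι → ℕ} {n r : ℕ}

/-- CHUNK A7.  PROOF.  As `exists_propT` (Lib/H78G/A3.lean) with `exists_coeffsL` (A0.lean) and the index type `L = (ι × ι) × Fin r`: for `x = ((i, i'), l)` choose `κ x`, `t x` from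
`exists_cond` (A5) for `d`, `M + l`; `T x = (NN n r _).toLinearMap ^ (l : ℕ)`, `N x = (IG e gnG i i').restrictScalars _`, `f m' = monomial m' 1` for `m' : Mon n r d M`, `ν x` the monomials in `κ x`
(`Set.image_eq_range`).  `(NN ..)^[l] (monomial m' 1)` has its monomials in `Mon n r d (M + l)` (`A5_hasMon_monomial`, `HasMon.NN_iterate`), `A5_smul_mem` (Lib/H89T/A5.lean).
Counting: `∑ x, card (κ x) ≤ ∑ x, (dg i * dg i' * cA + if i = i' then dg i * cB else 0)`; `Fintype.sum_prod_type`, `Finset.sum_comm`, `Finset.sum_mul_sum`, `Finset.sum_ite_eq`,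
`Finset.sum_range`: this is the left side of `hc`.  Then `P = (∏ x, t x) • ∑ m', q m' • monomial m' 1`, not `0` (`A5_coeff`), and for given `i, i', l`:
`NN^[l] P = (∏_(x' ≠ x) t x') • (t x • T x (∑ ..)) ∈ N x` (last lines of `exists_propT`). -/
theorem exists_PG [Fintype ι] [DecidableEq ι] (e : Co m ≃ Fin n) (hm : ∀ s, 1 ≤ m s)
    (hT : ∀ i, dg i = 1 ∨ (2 ≤ dg i ∧ 2 ≤ m (sb i))) (hr : 1 ≤ r) (d M : ℕ)
    (hc : ∑ l ∈ Finset.range r, ((∑ i, dg i) * (∑ i, dg i) * cA n d r (M + l) + (∑ i, dg i) * cB n d r (M + l)) <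
      (Mon n r d M).ncard) :
    ∃ P : MvPolynomial (JV n r) (MvPolynomial (Cf m sb dg) ℂ), P ≠ 0 ∧ HasMon d M P ∧
      PropG e (gnG m sb dg) r P := by
  classical
  have hone : ∃ one : Fin (r + 1), (one : ℕ) = 1 := ⟨⟨1, by omega⟩, rfl⟩
  obtain ⟨one, h1⟩ := hone
  have hex : ∀ x : (ι × ι) × Fin r, ∃ κ : Set (JV n r →₀ ℕ), κ.Finite ∧
      CondG e sb dg x.1.1 x.1.2 d (M + (x.2 : ℕ)) κ ∧
      κ.ncard ≤ dg x.1.1 * dg x.1.2 * cA n d r (M + (x.2 : ℕ)) +
        (if x.1.1 = x.1.2 then dg x.1.1 * cB n d r (M + (x.2 : ℕ)) else 0) := fun x =>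
    exists_cond e hm hT one h1 x.1.1 x.1.2 d (M + (x.2 : ℕ))
  choose κ hfin hcond hcard using hex
  choose t ht0 ht using hcond
  have : Fintype (Mon n r d M) := (Mon_finite n r d M).fintype
  have : ∀ x : (ι × ι) × Fin r, Fintype (κ x) := fun x => (hfin x).fintype
  obtain ⟨q, hq0, hq⟩ := exists_coeffsL (R := MvPolynomial (Cf m sb dg) ℂ)
    (V := MvPolynomial (JV n r) (MvPolynomial (Cf m sb dg) ℂ))
    (ι := Mon n r d M) (L := (ι × ι) × Fin r)
    (fun m' => monomial m'.1 (1 : MvPolynomial (Cf m sb dg) ℂ))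
    (fun x => (NN n r (MvPolynomial (Cf m sb dg) ℂ)).toLinearMap ^ (x.2 : ℕ))
    (fun x => (IG e (gnG m sb dg) x.1.1 x.1.2).restrictScalars (MvPolynomial (Cf m sb dg) ℂ))
    (fun x => κ x) (fun x m' => monomial m'.1 (1 : MvPolynomial (Cf m sb dg) ℂ)) t
    (by
      intro x m'
      have h := A5_smul_mem (ht x)
        (P := (NN n r (MvPolynomial (Cf m sb dg) ℂ))^[(x.2 : ℕ)] (monomial m'.1 1))
        ((A5_hasMon_monomial m'.2 1).NN_iterate (x.2 : ℕ))
      rw [Set.image_eq_range] at h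
      have e2 : ((NN n r (MvPolynomial (Cf m sb dg) ℂ)).toLinearMap ^ (x.2 : ℕ)) (monomial m'.1 1) =
          (NN n r (MvPolynomial (Cf m sb dg) ℂ))^[(x.2 : ℕ)] (monomial m'.1 1) := by
        rw [Module.End.pow_apply]
        rfl
      rw [e2]
      exact h)
    (by
      have hc1 : ∀ x : (ι × ι) × Fin r, Fintype.card (κ x) = (κ x).ncard := fun x => by
        rw [← Nat.card_coe_set_eq, Nat.card_eq_fintype_card]
      have hc2 : Fintype.card (Mon n r d M) = (Mon n r d M).ncard := by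
        rw [← Nat.card_coe_set_eq, Nat.card_eq_fintype_card]
      rw [hc2]
      have hle : ∑ x : (ι × ι) × Fin r, Fintype.card (κ x) ≤
          ∑ x : (ι × ι) × Fin r, (dg x.1.1 * dg x.1.2 * cA n d r (M + (x.2 : ℕ)) +
            (if x.1.1 = x.1.2 then dg x.1.1 * cB n d r (M + (x.2 : ℕ)) else 0)) :=
        Finset.sum_le_sum fun x _ => by
          rw [hc1]
          exact hcard x
      refine lt_of_le_of_lt hle (lt_of_eq_of_lt ?_ hc)
      rw [Fintype.sum_prod_type_right, Finset.sum_range]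
      refine Finset.sum_congr rfl fun l _ => ?_
      rw [Fintype.sum_prod_type]
      simp only [Finset.sum_add_distrib]
      congr 1
      · simp only [← Finset.sum_mul]
        rw [Finset.sum_mul_sum]
      · simp only [Finset.sum_ite_eq, Finset.mem_univ, if_true]
        rw [Finset.sum_mul])
  obtain ⟨m', hm'⟩ := Function.ne_iff.mp hq0
  refine ⟨(∏ x, t x) • ∑ i : Mon n r d M, q i • monomial i.1 (1 : MvPolynomial (Cf m sb dg) ℂ),
    ?_, ?_, ?_⟩
  · intro h0
    have h := congrArg (coeff m'.1) h0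
    rw [coeff_smul, A5_coeff, coeff_zero, smul_eq_mul, mul_eq_zero] at h
    rcases h with h | h
    · exact Finset.prod_ne_zero_iff.mpr (fun x _ => ht0 x) h
    · exact hm' h
  · exact HasMon.smul _ (HasMon.sum fun i _ => HasMon.smul _ (A5_hasMon_monomial i.2 1))
  · intro l hl i i'
    have h := hq ((i, i'), ⟨l, hl⟩)
    rw [Submodule.restrictScalars_mem] at h
    have h2 : (NN n r (MvPolynomial (Cf m sb dg) ℂ))^[l] ((∏ x, t x) • ∑ i : Mon n r d M,
        q i • monomial i.1 (1 : MvPolynomial (Cf m sb dg) ℂ)) =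
        (∏ x ∈ Finset.univ.erase ((i, i'), ⟨l, hl⟩), t x) • (t ((i, i'), ⟨l, hl⟩) •
          ((NN n r (MvPolynomial (Cf m sb dg) ℂ)).toLinearMap ^ l) (∑ i : Mon n r d M,
            q i • monomial i.1 (1 : MvPolynomial (Cf m sb dg) ℂ))) := by
      rw [smul_smul, mul_comm, Finset.mul_prod_erase _ _ (Finset.mem_univ _), ← map_smul,
        Module.End.pow_apply]
      rfl
    rw [h2]
    exact Submodule.smul_of_tower_mem _ _ h

end Pool.Agent.H89Y
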