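import Pool.Agent.Lib.H89Y.C3

set_option autoImplicit false

/-!
H89Y, CHUNK C4b (M).  The directions of the coefficients of a linear factor.
-/

open MvPolynomial

namespace Pool.Agent.H89Y

open Pool.Agent.H89T Pool.Agent.H78G Pool.Agent.H53Y

variable {β : Type} {m : β → ℕ} {ι : Type} {sb : ι → β} {dg : ι → ℕ} {n r : ℕ}

/-- CHUNK C4b.  A linear factor.  PROOF.  `vD_val` with `g β = if β = α then v.coeff 0 ^ (r + 1) else 0`, `v = vG e i`.
Membership: `Fx g x = C (v.coeff 0 ^ (r + 1)) * ∏ b, arc x b ^ (α.1 b : ℕ)` (unfold `Fx ev`, `Finset.sum_eq_single α`), and `C (v.coeff 0) ^ (r + 1)` is in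
the ideal `(v, X ^ (r + 1))`: the argument `hkey` of `vertical_adm` (Lib/H78G/C3.lean) word by word.  Weight: `v.coeff 0` is
`ev (aG ⟨i, ·⟩) (fun b => xG (e ⟨sb i, b⟩, 0))` (`uu_zero`, Lib/H89T/N1.lean) of weight `≤ 1` (`dg i = 1`: every term is `aG * ∏ x ^ α` with
`∑ α ≤ 1`; `WtS.sum`, `WtS.mul`, `WtS.prod`, `WtS.pow`, `WtS.inl`, `WtS.inr`), so the power has weight `≤ r + 1 ≤ c`.
The value of `v.coeff 0 ^ (r + 1)` is `f ^ (r + 1) ≠ 0`, `f = fv e a ξ_0 i` (`eval_vG_zero`): the vector of `vD_val` is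
`f ^ (r + 1) • Pi.single (Sum.inr ⟨i, α⟩) 1`; divide (`Submodule.smul_mem`). -/
theorem vert_small [DecidableEq ι] (e : Co m ≃ Fin n) (i : ι) (hd : dg i = 1) (a : Cf m sb dg → ℂ) (ξ : JV n r → ℂ)
    (hF : fv e a (fun b => ξ (b, 0)) i ≠ 0) {c : ℕ} (hc : r + 1 ≤ c) (α : Idx (m (sb i)) (dg i)) :
    (Pi.single (Sum.inr ⟨i, α⟩) 1 : JV n r ⊕ Cf m sb dg → ℂ) ∈ SpG e c a ξ := by
  classical
  obtain ⟨v, hv⟩ : ∃ v : Polynomial (UG m sb dg n r), v = vG e i := ⟨_, rfl⟩
  obtain ⟨g, hgd⟩ : ∃ g : Idx (m (sb i)) (dg i) → UG m sb dg n r, g = fun γ => if γ = α then v.coeff 0 ^ (r + 1) else 0 := ⟨_, rfl⟩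
  have hkey : Polynomial.C (v.coeff 0 ^ (r + 1)) ∈ Ideal.span {v, (Polynomial.X : Polynomial (UG m sb dg n r)) ^ (r + 1)} := by
    have h1 : Polynomial.C (v.coeff 0) = v - Polynomial.X * v.divX := by
      have h2 := Polynomial.divX_mul_X_add v
      rw [mul_comm] at h2
      exact eq_sub_of_add_eq (by rw [add_comm]; exact h2)
    rw [map_pow]
    obtain ⟨q, hq⟩ := sub_dvd_pow_sub_pow (Polynomial.C (v.coeff 0)) (-(Polynomial.X * v.divX)) (r + 1)
    have h3 : Polynomial.C (v.coeff 0) - -(Polynomial.X * v.divX) = v := by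
      rw [h1]
      ring
    rw [h3] at hq
    rw [Ideal.mem_span_pair]
    refine ⟨q, (-v.divX) ^ (r + 1), ?_⟩
    have h4 : Polynomial.C (v.coeff 0) ^ (r + 1) = v * q + (-(Polynomial.X * v.divX)) ^ (r + 1) := by
      rw [← hq]
      ring
    have h8 : -(Polynomial.X * v.divX) = Polynomial.X * (-v.divX) := by ring
    rw [h4, h8, mul_pow]
    ring
  have hm : Fx g (bj e xG (sb i)) ∈ Ideal.span {vG e i, (Polynomial.X : Polynomial (UG m sb dg n r)) ^ (r + 1)} := by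
    rw [← hv]
    unfold Fx ev
    refine Ideal.sum_mem _ fun γ _ => Ideal.mul_mem_right _ _ ?_
    rw [hgd]
    by_cases h : γ = α
    · simp only [if_pos h]
      exact hkey
    · simp only [if_neg h, map_zero]
      exact Ideal.zero_mem _
  have hw1 : WtS 1 (v.coeff 0) := by
    have h1 : v.coeff 0 = ev (fun γ => aG ⟨i, γ⟩) (fun b => bj e xG (sb i) (b, 0)) := by
      rw [hv]
      exact uu_zero _ _
    rw [h1]
    unfold ev
    refine WtS.sum fun γ _ => ?_
    have h2 : WtS 0 (aG ⟨i, γ⟩ : UG m sb dg n r) := WtS.inr _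
    have h3 : WtS (∑ b, (γ.1 b : ℕ) * 1) (∏ b, (bj e xG (sb i) (b, 0) : UG m sb dg n r) ^ (γ.1 b : ℕ)) :=
      WtS.prod fun b _ => WtS.pow (WtS.inl (e ⟨sb i, b⟩, 0)) _
    refine (h2.mul h3).mono ?_
    simp only [mul_one, zero_add]
    exact γ.2.trans hd.le
  have hw : ∀ γ, WtS c (g γ) := by
    intro γ
    rw [hgd]
    by_cases h : γ = α
    · simp only [if_pos h]
      refine (hw1.pow (r + 1)).mono ?_
      rw [mul_one]
      exact hc
    · simp only [if_neg h]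
      exact WtS.zero _
  obtain ⟨f, hf⟩ : ∃ f : ℂ, f = fv e a (fun b => ξ (b, 0)) i := ⟨_, rfl⟩
  have hev : eval (Sum.elim ξ a) (v.coeff 0 ^ (r + 1)) = f ^ (r + 1) := by
    rw [map_pow, hv, eval_vG_zero, hf]
  have hT := vD_val (e := e) i g hw hm a ξ (f ^ (r + 1) • (Pi.single (Sum.inr ⟨i, α⟩) 1 : JV n r ⊕ Cf m sb dg → ℂ)) ?_ ?_ ?_
  · rw [← hf] at hF
    have h1 := Submodule.smul_mem _ (f ^ (r + 1))⁻¹ hT
    rwa [smul_smul, inv_mul_cancel₀ (pow_ne_zero _ hF), one_smul] at h1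
  · intro q
    rw [Pi.smul_apply, Pi.single_apply, if_neg (by simp), smul_zero]
  · intro γ
    rw [Pi.smul_apply, Pi.single_apply, hgd]
    by_cases h : γ = α
    · rw [h, if_pos rfl, smul_eq_mul, mul_one]
      simp only [if_true]
      exact hev.symm
    · rw [if_neg, smul_zero]
      · simp only [if_neg h, map_zero]
      · intro h'
        apply h
        have h2 := Sum.inr_injective h'
        exact eq_of_heq (Sigma.mk.inj h2).2
  · intro i' γ hi
    rw [Pi.smul_apply, Pi.single_apply, if_neg, smul_zero]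
    intro h'
    exact hi (Sigma.mk.inj (Sum.inr_injective h')).1

end Pool.Agent.H89Y
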