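import Pool.Agent.Lib.H89Y.C3

set_option autoImplicit false

/-!
H89Y, CHUNK C5b (M/L).  Horizontal directions, one factor of large degree.
-/

open MvPolynomial

namespace Pool.Agent.H89Y

open Pool.Agent.H89T Pool.Agent.H78G Pool.Agent.H53Y

variable {β : Type} {m : β → ℕ} {ι : Type} {sb : ι → β} {dg : ι → ℕ} {n r : ℕ}

theorem c5b_map_trunc {A B : Type} [CommRing A] [CommRing B] (φ : A →+* B) (p : Polynomial A) :
    Polynomial.map φ (C6_trunc r p) = C6_trunc r (Polynomial.map φ p) := by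
  ext1 l
  rw [Polynomial.coeff_map, C6_coeff_trunc, C6_coeff_trunc, Polynomial.coeff_map]
  split_ifs
  · rfl
  · rw [map_zero]

/-- CHUNK C5b.  One factor of large degree.  PROOF.  `field_d hk b₀ b j hj` (Lib/H89T/C6.lean) gives `V = VV g lam ∈ Fields ..`, `Adm (r + 1) g lam`, with
`(lam b').coeff l = if b' = b then (arc xA b₀ ^ j).coeff l else 0` for `l ≤ r` (`VV_xA`) and `deg (lam b') ≤ r`, so `lam b' = if b' = b then C6_trunc r (arc xA b₀ ^ j)
else 0` (`C6_coeff_trunc`) and `EV g lam = Fx g xA + Fdx b aA xA * C6_trunc r (arc xA b₀ ^ j)`.  Apply `Polynomial.map (io e i)`: `io_Fx`, `io_Fdx`, and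
`map (io e i) (C6_trunc r p) = C6_trunc r (map (io e i) p)` (unfold, `Polynomial.map_sum`, `Polynomial.map_monomial`, `Polynomial.coeff_map`), `io_arc`,
`arc (bj e xG (sb i)) b₀ = arc xG (e ⟨sb i, b₀⟩)` by `rfl`.  Ideal membership: `Ideal.mem_span_pair`.  Weights: `io_wt`. -/
theorem hor_large_one (e : Co m ≃ Fin n) (i : ι) (hk : r ≤ dg i) (b₀ b : Fin (m (sb i))) (j : ℕ) (hj : j ≤ r) :
    ∃ g : Idx (m (sb i)) (dg i) → UG m sb dg n r, (∀ α, WtS (cF r) (g α)) ∧
      Fx g (bj e xG (sb i)) + Fdx b (fun α => (aG ⟨i, α⟩ : UG m sb dg n r)) (bj e xG (sb i)) *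
          C6_trunc r (arc xG (e ⟨sb i, b₀⟩) ^ j) ∈
        Ideal.span {vG e i, (Polynomial.X : Polynomial (UG m sb dg n r)) ^ (r + 1)} := by
  obtain ⟨V, ⟨g, lam, hA, hg, hl, rfl⟩, hV⟩ := field_d hk b₀ b j hj
  have hlam : ∀ b', lam b' = if b' = b then C6_trunc r (arc xA b₀ ^ j) else 0 := by
    intro b'
    ext1 l
    by_cases hl' : l < r + 1
    · have h1 := hV (b', ⟨l, hl'⟩)
      rw [VV_xA] at h1
      simp only at h1
      rw [h1]
      split_ifs
      · rw [C6_coeff_trunc, if_pos hl']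
      · rw [Polynomial.coeff_zero]
    · rw [Polynomial.coeff_eq_zero_of_natDegree_lt (by have := hA.deg b'; omega)]
      split_ifs
      · rw [C6_coeff_trunc, if_neg hl']
      · rw [Polynomial.coeff_zero]
  have hE : EV g lam = Fx g xA + Fdx b aA xA * C6_trunc r (arc xA b₀ ^ j) := by
    unfold EV
    congr 1
    rw [Finset.sum_eq_single b]
    · rw [hlam b, if_pos rfl]
    · intro b' _ hb'
      rw [hlam b', if_neg hb', mul_zero]
    · intro h
      exact absurd (Finset.mem_univ _) h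
  have h2 := hA.mem
  rw [hE, Ideal.mem_span_pair] at h2
  obtain ⟨u, v, h3⟩ := h2
  refine ⟨fun α => io e i (g α), fun α => io_wt e i (hg α), ?_⟩
  rw [Ideal.mem_span_pair]
  have h4 := congrArg (Polynomial.map (io (m := m) (sb := sb) (dg := dg) (r := r) e i).toRingHom) h3
  refine ⟨Polynomial.map (io (m := m) (sb := sb) (dg := dg) (r := r) e i).toRingHom u,
    Polynomial.map (io (m := m) (sb := sb) (dg := dg) (r := r) e i).toRingHom v, ?_⟩
  simp only [Polynomial.map_add, Polynomial.map_mul, Polynomial.map_pow, Polynomial.map_X, io_Fx, io_Fdx, c5b_map_trunc, io_arc,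
    io_aA] at h4
  exact h4

end Pool.Agent.H89Y
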