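import Pool.Agent.Lib.H89Y.C5a
import Pool.Agent.Lib.H89Y.C5b

set_option autoImplicit false

/-!
H89Y, CHUNK C5c (M).  Horizontal directions, the large blocks.
-/

open MvPolynomial

namespace Pool.Agent.H89Y

open Pool.Agent.H89T Pool.Agent.H78G Pool.Agent.H53Y

variable {β : Type} {m : β → ℕ} {ι : Type} {sb : ι → β} {dg : ι → ℕ} {n r : ℕ}

/-- The coefficients of the powers of the generic arc. -/
theorem c5c_wt (b : Fin n) (j l : ℕ) :
    WtS (j * (r + 1)) (((arc (xG : JV n r → UG m sb dg n r) b) ^ j).coeff l) := by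
  induction j generalizing l with
  | zero =>
    rw [pow_zero, Polynomial.coeff_one]
    split_ifs
    · have h := WtS.const (n := n) (r := r) (τ := Cf m sb dg) 1
      rw [map_one] at h
      exact h.mono (Nat.zero_le _)
    · exact WtS.zero _
  | succ j ih =>
    rw [pow_succ, Polynomial.coeff_mul]
    refine WtS.sum fun x _ => ?_
    have h1 : WtS (r + 1) ((arc (xG : JV n r → UG m sb dg n r) b).coeff x.2) := by
      rw [coeff_arc]
      split_ifs with h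
      · refine (WtS.inl (n := n) (r := r) (τ := Cf m sb dg) (b, ⟨x.2, h⟩)).mono ?_
        show x.2 + 1 ≤ r + 1
        omega
      · exact WtS.zero _
    refine ((ih x.1).mul h1).mono ?_
    rw [Nat.succ_mul]

/-- The compensation, for a factor of the block `s`. -/
theorem c5c_one (e : Co m ≃ Fin n) (s : β) (i : ι) (h : sb i = s) (h' : m s = m (sb i)) (hk : r ≤ dg i)
    (b₀ b : Fin (m s)) (j : ℕ) (hj : j ≤ r) :
    ∃ g : Idx (m (sb i)) (dg i) → UG m sb dg n r, (∀ α, WtS (cF r) (g α)) ∧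
      Fx g (bj e xG (sb i)) + Fdx (Fin.cast h' b) (fun α => (aG ⟨i, α⟩ : UG m sb dg n r)) (bj e xG (sb i)) *
          C6_trunc r (arc xG (e ⟨s, b₀⟩) ^ j) ∈
        Ideal.span {vG e i, (Polynomial.X : Polynomial (UG m sb dg n r)) ^ (r + 1)} := by
  subst h
  exact hor_large_one e i hk b₀ b j hj

/-- The values of the coefficients. -/
theorem c5c_eval (b : Fin n) (a : Cf m sb dg → ℂ) (ξ : JV n r → ℂ) (j : ℕ) (l : Fin (r + 1)) :
    eval (Sum.elim ξ a) ((C6_trunc r ((arc (xG : JV n r → UG m sb dg n r) b) ^ j)).coeff (l : ℕ)) =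
      ((arc ξ b) ^ j).coeff (l : ℕ) := by
  rw [C6_coeff_trunc, if_pos l.2, ← Polynomial.coeff_map, Polynomial.map_pow, arc_map]
  have h1 : (fun q : JV n r => eval (Sum.elim ξ a) (xG q : UG m sb dg n r)) = ξ := by
    funext q
    unfold xG
    rw [eval_X]
    rfl
  rw [h1]

/-- CHUNK C5c.  PROOF.  For `j ≤ r` apply `hor_general` with `lam = C6_trunc r (arc xG (e ⟨s, b₀⟩) ^ j)` (degree `≤ r` and weights `≤ cF r ≤ c` as in `field_d`,
Lib/H89T/C6.lean, now with `WtS`) and `hor_large_one` (for `sb i = s` substitute `s`; `Fin.cast` of a proof of `m s = m s` is the identity).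
The coefficients are `eval (lam.coeff l) = (p ^ j).coeff l`, `p = arc ξ (e ⟨s, b₀⟩)` (`C6_coeff_trunc`, `arc_map`, `Polynomial.coeff_map`), `p.coeff 1 = ξ (e ⟨s, b₀⟩, one) ≠ 0`
(`coeff_arc`).  By `span_powers` (Lib/H89T/C8.lean) `Pi.single l 1` is a combination of the vectors `l ↦ (p ^ j).coeff l`; apply the linear map
`v ↦ ∑ l, v l • Pi.single (Sum.inl (e ⟨s, b⟩, l)) 1` (`Submodule.span_induction` or `Submodule.map_span_le`). -/
theorem hor_large [Fintype ι] [DecidableEq β] [DecidableEq ι] (e : Co m ≃ Fin n) (s : β) (hk : ∀ i, sb i = s → r ≤ dg i)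
    (a : Cf m sb dg → ℂ) (ξ : JV n r → ℂ) (b₀ : Fin (m s)) (one : Fin (r + 1)) (h1 : (one : ℕ) = 1)
    (hx : ξ (e ⟨s, b₀⟩, one) ≠ 0) {c : ℕ} (hc : cF r ≤ c)
    (hv : ∀ i, sb i = s → ∀ α, (Pi.single (Sum.inr ⟨i, α⟩) 1 : JV n r ⊕ Cf m sb dg → ℂ) ∈ SpG e c a ξ)
    (b : Fin (m s)) (l : Fin (r + 1)) :
    (Pi.single (Sum.inl (e ⟨s, b⟩, l)) 1 : JV n r ⊕ Cf m sb dg → ℂ) ∈ SpG e c a ξ := by
  let Λ : (Fin (r + 1) → ℂ) →ₗ[ℂ] (JV n r ⊕ Cf m sb dg → ℂ) :=
    { toFun := fun v => ∑ l : Fin (r + 1), v l • (Pi.single (Sum.inl (e ⟨s, b⟩, l)) 1 : JV n r ⊕ Cf m sb dg → ℂ)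
      map_add' := fun v w => by
        simp only [Pi.add_apply, add_smul, Finset.sum_add_distrib]
      map_smul' := fun t v => by
        simp only [Pi.smul_apply, smul_eq_mul, mul_smul, Finset.smul_sum, RingHom.id_apply] }
  have hΛ : ∀ v, Λ v = ∑ l : Fin (r + 1), v l • (Pi.single (Sum.inl (e ⟨s, b⟩, l)) 1 : JV n r ⊕ Cf m sb dg → ℂ) :=
    fun v => rfl
  have hp : (arc ξ (e ⟨s, b₀⟩)).coeff 1 ≠ 0 := by
    have h2 : 1 < r + 1 := by
      have := one.2
      omega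
    rw [coeff_arc, dif_pos h2]
    have h3 : (⟨1, h2⟩ : Fin (r + 1)) = one := Fin.ext h1.symm
    rw [h3]
    exact hx
  have hle : Submodule.span ℂ (Set.range fun j : Fin (r + 1) =>
      fun l : Fin (r + 1) => ((arc ξ (e ⟨s, b₀⟩)) ^ (j : ℕ)).coeff (l : ℕ)) ≤ (SpG e c a ξ).comap Λ := by
    refine Submodule.span_le.2 ?_
    rintro _ ⟨j, rfl⟩
    have hj : (j : ℕ) ≤ r := by
      have := j.2
      omega
    have hcj : (j : ℕ) * (r + 1) ≤ c := by
      have h4 := C6_cF_ge r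
      have h5 : (j : ℕ) * (r + 1) ≤ r * (r + 1) := Nat.mul_le_mul_right _ hj
      omega
    have h6 := hor_general e s b (c := c) (C6_trunc r ((arc (xG : JV n r → UG m sb dg n r) (e ⟨s, b₀⟩)) ^ (j : ℕ)))
      (by
        rw [Polynomial.natDegree_le_iff_coeff_eq_zero]
        intro l hl
        rw [C6_coeff_trunc, if_neg (by omega)])
      (fun l => by
        rw [C6_coeff_trunc]
        split_ifs
        · exact (c5c_wt _ _ _).mono hcj
        · exact WtS.zero _)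
      (fun i h => by
        obtain ⟨g, hg1, hg2⟩ := c5c_one (m := m) (sb := sb) (dg := dg) (r := r) e s i h (by rw [h]) (hk i h) b₀ b j hj
        exact ⟨g, fun α => (hg1 α).mono hc, hg2⟩) a ξ hv
    show Λ (fun l : Fin (r + 1) => ((arc ξ (e ⟨s, b₀⟩)) ^ (j : ℕ)).coeff (l : ℕ)) ∈ SpG e c a ξ
    rw [hΛ]
    have h7 : (∑ l : Fin (r + 1), eval (Sum.elim ξ a)
        ((C6_trunc r ((arc (xG : JV n r → UG m sb dg n r) (e ⟨s, b₀⟩)) ^ (j : ℕ))).coeff (l : ℕ)) •
        (Pi.single (Sum.inl (e ⟨s, b⟩, l)) 1 : JV n r ⊕ Cf m sb dg → ℂ)) =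
        ∑ l : Fin (r + 1), ((arc ξ (e ⟨s, b₀⟩)) ^ (j : ℕ)).coeff (l : ℕ) •
        (Pi.single (Sum.inl (e ⟨s, b⟩, l)) 1 : JV n r ⊕ Cf m sb dg → ℂ) :=
      Finset.sum_congr rfl fun l _ => by rw [c5c_eval]
    rw [← h7]
    exact h6
  have h8 := hle (span_powers (arc ξ (e ⟨s, b₀⟩)) hp (Pi.single l 1))
  have h9 : Λ (Pi.single l 1) = (Pi.single (Sum.inl (e ⟨s, b⟩, l)) 1 : JV n r ⊕ Cf m sb dg → ℂ) := by
    rw [hΛ, Finset.sum_eq_single l]
    · rw [Pi.single_eq_same, one_smul]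
    · intro l' _ hl'
      rw [Pi.single_eq_of_ne hl', zero_smul]
    · intro h
      exact absurd (Finset.mem_univ l) h
  rw [← h9]
  exact h8

end Pool.Agent.H89Y
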