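import Pool.Agent.Lib.H89Y.C3

set_option autoImplicit false

/-!
H89Y, CHUNK C5a (M/L).  Horizontal directions, general.
-/

open MvPolynomial

namespace Pool.Agent.H89Y

open Pool.Agent.H89T Pool.Agent.H78G Pool.Agent.H53Y

variable {β : Type} {m : β → ℕ} {ι : Type} {sb : ι → β} {dg : ι → ℕ} {n r : ℕ}

/-- CHUNK C5a (general: the horizontal fields of one coordinate `b` of a block `s`).  `lam` = the velocity of the coordinate `e ⟨s, b⟩`; the factors `i`
with `sb i ≠ s` do not move.  The hypothesis `hg` says: for every factor of the block there is a compensation.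

PROOF.  For every `i` choose `G i : Idx (m (sb i)) (dg i) → UG ..`: if `sb i = s` from `hg`, otherwise `0`.
`V = mkDerivation ℂ (Sum.elim (fun q => if q.1 = e ⟨s, b⟩ then lam.coeff (q.2 : ℕ) else 0) (fun x => G x.1 x.2))`.
Admissible: `cf_vG`; let `i` be given.  If `sb i = s`: `obtain rfl` is possible after generalizing (`s` is a variable; or apply `hg i h` where the statement is
already about `e ⟨s, b⟩`); in the sum over `b' : Fin (m (sb i))` only `b' = b` contributes: `V (bj e xG (sb i) (b', l)) = V (xG (e ⟨sb i, b'⟩, l))`, and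
`e ⟨sb i, b'⟩ = e ⟨s, b⟩` iff `b' = b` (`e.injective`); `arc (fun q => V ..) b = lam` since `lam` has degree `≤ r` (`ext l`, `coeff_arc`,
`Polynomial.coeff_eq_zero_of_natDegree_lt`).  If `sb i ≠ s`: all terms are `0`.
Weights: `lam.coeff l`, `0`, `G i α`.
The value of `V` is `∑ l, eval (lam.coeff l) • single (inl (e ⟨s, b⟩, l)) + ∑ x, eval (G x) • single (inr x)`, and the second sum is in `SpG` by `hv` (terms with
`sb x.1 ≠ s` are `0`). -/
theorem hor_general [Fintype ι] [DecidableEq β] [DecidableEq ι] (e : Co m ≃ Fin n) (s : β) (b : Fin (m s)) {c : ℕ}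
    (lam : Polynomial (UG m sb dg n r)) (hdeg : lam.natDegree ≤ r) (hlam : ∀ l, WtS c (lam.coeff l))
    (hg : ∀ i (h : sb i = s), ∃ g : Idx (m (sb i)) (dg i) → UG m sb dg n r, (∀ α, WtS c (g α)) ∧
      Fx g (bj e xG (sb i)) + Fdx (Fin.cast (by rw [h]) b) (fun α => (aG ⟨i, α⟩ : UG m sb dg n r)) (bj e xG (sb i)) * lam ∈
        Ideal.span {vG e i, (Polynomial.X : Polynomial (UG m sb dg n r)) ^ (r + 1)})
    (a : Cf m sb dg → ℂ) (ξ : JV n r → ℂ)
    (hv : ∀ i, sb i = s → ∀ α, (Pi.single (Sum.inr ⟨i, α⟩) 1 : JV n r ⊕ Cf m sb dg → ℂ) ∈ SpG e c a ξ) :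
    (∑ l : Fin (r + 1), eval (Sum.elim ξ a) (lam.coeff (l : ℕ)) •
      (Pi.single (Sum.inl (e ⟨s, b⟩, l)) 1 : JV n r ⊕ Cf m sb dg → ℂ)) ∈ SpG e c a ξ := by
  classical
  have hG : ∀ i, ∃ g : Idx (m (sb i)) (dg i) → UG m sb dg n r, (∀ α, WtS c (g α)) ∧
      (∀ h : sb i = s, Fx g (bj e xG (sb i)) + Fdx (Fin.cast (by rw [h]) b) (fun α => (aG ⟨i, α⟩ : UG m sb dg n r))
        (bj e xG (sb i)) * lam ∈ Ideal.span {vG e i, (Polynomial.X : Polynomial (UG m sb dg n r)) ^ (r + 1)}) ∧
      (sb i ≠ s → g = 0) := by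
    intro i
    by_cases h : sb i = s
    · obtain ⟨g, h1, h2⟩ := hg i h
      exact ⟨g, h1, fun _ => h2, fun h' => absurd h h'⟩
    · exact ⟨0, fun α => WtS.zero _, fun h' => absurd h' h, fun _ => rfl⟩
  choose G hG1 hG2 hG3 using hG
  obtain ⟨V, hV⟩ : ∃ V : Derivation ℂ (UG m sb dg n r) (UG m sb dg n r), V = mkDerivation ℂ (Sum.elim
    (fun q : JV n r => if q.1 = e ⟨s, b⟩ then lam.coeff (q.2 : ℕ) else 0) (fun x => G x.1 x.2)) := ⟨_, rfl⟩
  have hVx : ∀ q : JV n r, V (xG q : UG m sb dg n r) = if q.1 = e ⟨s, b⟩ then lam.coeff (q.2 : ℕ) else 0 := by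
    intro q
    rw [hV]
    unfold xG
    rw [mkDerivation_X, Sum.elim_inl]
  have hVa : ∀ x : Cf m sb dg, V (aG x : UG m sb dg n r) = G x.1 x.2 := by
    intro x
    rw [hV]
    unfold aG
    rw [mkDerivation_X, Sum.elim_inr]
  have hinj : ∀ (i : ι) (s' : β) (h : sb i = s') (b₁ : Fin (m s')) (b' : Fin (m (sb i))),
      e ⟨sb i, b'⟩ = e ⟨s', b₁⟩ → b' = Fin.cast (by rw [h]) b₁ := by
    intro i s' h b₁ b' h1
    subst h
    exact eq_of_heq (Sigma.mk.inj (e.injective h1)).2
  have hinj' : ∀ (i : ι) (s' : β) (h : sb i = s') (b₁ : Fin (m s')),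
      e ⟨sb i, Fin.cast (by rw [h]) b₁⟩ = e ⟨s', b₁⟩ := by
    intro i s' h b₁
    subst h
    rfl
  have harc0 : ∀ (i : ι) (b' : Fin (m (sb i))), e ⟨sb i, b'⟩ ≠ e ⟨s, b⟩ →
      arc (fun q => V (bj e xG (sb i) q : UG m sb dg n r)) b' = 0 := by
    intro i b' h
    ext1 l
    rw [coeff_arc, Polynomial.coeff_zero]
    split_ifs with hl
    · have h1 := hVx (e ⟨sb i, b'⟩, ⟨l, hl⟩)
      rw [if_neg h] at h1
      exact h1
    · rfl
  have harc1 : ∀ (i : ι) (h : sb i = s),
      arc (fun q => V (bj e xG (sb i) q : UG m sb dg n r)) (Fin.cast (by rw [h]) b) = lam := by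
    intro i h
    ext1 l
    rw [coeff_arc]
    split_ifs with hl
    · have h1 := hVx (e ⟨sb i, Fin.cast (by rw [h]) b⟩, ⟨l, hl⟩)
      rw [if_pos (hinj' i s h b)] at h1
      exact h1
    · rw [Polynomial.coeff_eq_zero_of_natDegree_lt (by omega)]
  have hadm : AdG e (r + 1) V := by
    intro i
    rw [cf_vG]
    have e1 : (fun α => V (aG ⟨i, α⟩ : UG m sb dg n r)) = G i := funext fun α => hVa _
    rw [e1]
    by_cases h : sb i = s
    · rw [Finset.sum_eq_single (Fin.cast (by rw [h]) b)]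
      · rw [harc1 i h]
        exact hG2 i h
      · intro b' _ hb'
        rw [harc0 i b' (fun h' => hb' (hinj i s h b b' h')), mul_zero]
      · intro h'
        exact absurd (Finset.mem_univ _) h'
    · have e2 : Fx (G i) (bj e xG (sb i)) = 0 := by
        rw [hG3 i h]
        unfold Fx ev
        exact Finset.sum_eq_zero fun γ _ => by simp only [Pi.zero_apply, map_zero, zero_mul]
      have e3 : ∑ b', Fdx b' (fun α => (aG ⟨i, α⟩ : UG m sb dg n r)) (bj e xG (sb i)) *
          arc (fun q => V (bj e xG (sb i) q)) b' = 0 := by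
        refine Finset.sum_eq_zero fun b' _ => ?_
        rw [harc0 i b' (fun h' => h (Sigma.mk.inj (e.injective h')).1), mul_zero]
      rw [e2, e3, add_zero]
      exact Ideal.zero_mem _
  have hwt : ∀ x, WtS c (V (X x)) := by
    rintro (q | x)
    · have h1 := hVx q
      change WtS c (V (xG q))
      rw [h1]
      split_ifs
      · exact hlam _
      · exact WtS.zero _
    · have h1 := hVa x
      change WtS c (V (aG x))
      rw [h1]
      exact hG1 _ _
  have hTV : (fun x : JV n r ⊕ Cf m sb dg => eval (Sum.elim ξ a) (V (X x))) ∈ SpG e c a ξ :=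
    Submodule.subset_span ⟨V, ⟨hadm, hwt⟩, rfl⟩
  have hR : (∑ x : Cf m sb dg, eval (Sum.elim ξ a) (G x.1 x.2) • (Pi.single (Sum.inr x) 1 : JV n r ⊕ Cf m sb dg → ℂ)) ∈
      SpG e c a ξ := by
    refine Submodule.sum_mem _ fun x _ => ?_
    by_cases h : sb x.1 = s
    · exact Submodule.smul_mem _ _ (hv x.1 h x.2)
    · rw [hG3 x.1 h, Pi.zero_apply, map_zero, zero_smul]
      exact Submodule.zero_mem _
  have hS : (∑ l : Fin (r + 1), eval (Sum.elim ξ a) (lam.coeff (l : ℕ)) •
      (Pi.single (Sum.inl (e ⟨s, b⟩, l)) 1 : JV n r ⊕ Cf m sb dg → ℂ)) =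
      (fun x => eval (Sum.elim ξ a) (V (X x))) -
        ∑ x : Cf m sb dg, eval (Sum.elim ξ a) (G x.1 x.2) • (Pi.single (Sum.inr x) 1 : JV n r ⊕ Cf m sb dg → ℂ) := by
    funext x
    rw [Pi.sub_apply, Finset.sum_apply, Finset.sum_apply]
    simp only [Pi.smul_apply, smul_eq_mul]
    rcases x with q | x
    · have e4 : V (X (Sum.inl q)) = if q.1 = e ⟨s, b⟩ then lam.coeff (q.2 : ℕ) else 0 := hVx q
      rw [e4]
      have e5 : ∑ x : Cf m sb dg, eval (Sum.elim ξ a) (G x.1 x.2) *
          (Pi.single (Sum.inr x) 1 : JV n r ⊕ Cf m sb dg → ℂ) (Sum.inl q) = 0 :=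
        Finset.sum_eq_zero fun x _ => by rw [Pi.single_apply, if_neg (by simp), mul_zero]
      rw [e5, sub_zero]
      by_cases hq : q.1 = e ⟨s, b⟩
      · rw [if_pos hq, Finset.sum_eq_single q.2]
        · rw [Pi.single_apply, if_pos (by rw [← hq]), mul_one]
        · intro l _ hl
          rw [Pi.single_apply, if_neg, mul_zero]
          intro h
          exact hl (congrArg Prod.snd (Sum.inl_injective h)).symm
        · intro h
          exact absurd (Finset.mem_univ _) h
      · rw [if_neg hq, map_zero]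
        refine Finset.sum_eq_zero fun l _ => ?_
        rw [Pi.single_apply, if_neg, mul_zero]
        intro h
        exact hq (congrArg Prod.fst (Sum.inl_injective h))
    · have e4 : V (X (Sum.inr x)) = G x.1 x.2 := hVa x
      rw [e4]
      have e5 : ∑ l : Fin (r + 1), eval (Sum.elim ξ a) (lam.coeff (l : ℕ)) *
          (Pi.single (Sum.inl (e ⟨s, b⟩, l)) 1 : JV n r ⊕ Cf m sb dg → ℂ) (Sum.inr x) = 0 :=
        Finset.sum_eq_zero fun l _ => by rw [Pi.single_apply, if_neg (by simp), mul_zero]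
      rw [e5, Finset.sum_eq_single x]
      · rw [Pi.single_apply, if_pos rfl, mul_one, sub_self]
      · intro y _ hy
        rw [Pi.single_apply, if_neg, mul_zero]
        intro h
        exact hy (Sum.inr_injective h).symm
      · intro h
        exact absurd (Finset.mem_univ _) h
  rw [hS]
  exact Submodule.sub_mem _ hTV hR

end Pool.Agent.H89Y
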