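import Pool.Agent.Lib.H89Y.C6b
import Pool.Agent.Lib.H89Y.C5a

set_option autoImplicit false

/-!
H89Y, CHUNK C6c (M).  Horizontal directions: the small blocks.
-/

open MvPolynomial

namespace Pool.Agent.H89Y

open Pool.Agent.H89T Pool.Agent.H78G Pool.Agent.H53Y

/-- CHUNK C6c.  PROOF.  `N`, `cH` from `small_comp`, `c₀ = cH + cH`.  For every `i` choose `α i : Idx (m (sb i)) (dg i)` with `a ⟨i, α i⟩ ≠ 0` (otherwise
`fv e a _ i = ev .. = 0`: unfold `fv ev`).  Let `S = Finset.univ.filter (fun i => sb i = s)` and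
`φ = Wd hr (bj e xG s) ^ N * ∏ i ∈ S, aG ⟨i, α i⟩ ^ N`, `lam = C φ * X ^ (l : ℕ)`.  Apply `hor_general` (C5a) with this `lam`:
degree `≤ r` (`Polynomial.natDegree_C_mul_X_pow_le`); weights: `WtS cH` for the power of `Wd`, weight `0` for the product (`WtS.inr`, `WtS.pow`, `WtS.prod`),
`Polynomial.coeff_C_mul`, `Polynomial.coeff_X_pow`, `WtS.mono`.  Compensation for `i ∈ S`: with `D = ∏ i' ∈ S.erase i, aG ⟨i', α i'⟩ ^ N` (weight `0`) and `g` of `small_comp` take
`fun α' => D * g α'`: `Fx (D * g) = C D * Fx g` (`Fx` is linear: unfold `Fx ev`, `Finset.mul_sum`; compare `ev_smul` in Lib/H89T/N1.lean) and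
`C φ = C D * C ((Wd * aG ⟨i, α i⟩) ^ N)` (`Finset.mul_prod_erase`, `mul_pow`), so the element is `C D *` (the element of `small_comp`).
The conclusion of `hor_general`: only the term `l' = l` of the sum is not `0`; its coefficient is `eval (Sum.elim ξ a) φ = Wd hr (bj e ξ s) ^ N * ∏ a ⟨i, α i⟩ ^ N ≠ 0`
(`Wd_map` for `eval (Sum.elim ξ a)`, `eval_X`).  Divide (`Submodule.smul_mem`).  (As in `span_fieldsU`, Lib/H78G/C5.lean.) -/
theorem hor_small {β : Type} [DecidableEq β] (m : β → ℕ) (s : β) {r : ℕ} (hr : m s ≤ r) : ∃ c₀ : ℕ,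
    ∀ {n : ℕ} (e : Co m ≃ Fin n) {ι : Type} [Fintype ι] [DecidableEq ι] (sb : ι → β) (dg : ι → ℕ),
      (∀ i, sb i = s → dg i = 1) → ∀ (a : Cf m sb dg → ℂ) (ξ : JV n r → ℂ),
      (∀ i, fv e a (fun b => ξ (b, 0)) i ≠ 0) → Wd hr (bj e ξ s) ≠ 0 → ∀ c, c₀ ≤ c →
      (∀ i, sb i = s → ∀ α, (Pi.single (Sum.inr ⟨i, α⟩) 1 : JV n r ⊕ Cf m sb dg → ℂ) ∈ SpG e c a ξ) →
      ∀ (b : Fin (m s)) (l : Fin (r + 1)),
        (Pi.single (Sum.inl (e ⟨s, b⟩, l)) 1 : JV n r ⊕ Cf m sb dg → ℂ) ∈ SpG e c a ξ := by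
  classical
  obtain ⟨N, cH, hsc⟩ := small_comp m s hr
  refine ⟨cH + cH, ?_⟩
  intro n e ι _ _ sb dg hdg a ξ hF hWd c hc hv b l
  obtain ⟨hwN, hcomp⟩ := hsc e sb dg
  have hα : ∀ i, ∃ α : Idx (m (sb i)) (dg i), a ⟨i, α⟩ ≠ 0 := by
    intro i
    by_contra hcon
    push Not at hcon
    apply hF i
    unfold fv ev
    exact Finset.sum_eq_zero fun α _ => mul_eq_zero_of_left (hcon α) _
  choose α hα using hα
  obtain ⟨S, hS⟩ : ∃ S : Finset ι, S = Finset.univ.filter (fun i => sb i = s) := ⟨_, rfl⟩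
  obtain ⟨φ, hφ⟩ : ∃ φ : UG m sb dg n r, φ = Wd hr (bj e xG s) ^ N *
    ∏ i ∈ S, (aG ⟨i, α i⟩ : UG m sb dg n r) ^ N := ⟨_, rfl⟩
  have hprod : ∀ T : Finset ι, WtS 0 (∏ i ∈ T, (aG ⟨i, α i⟩ : UG m sb dg n r) ^ N) := by
    intro T
    have h1 : ∀ i ∈ T, WtS 0 ((aG ⟨i, α i⟩ : UG m sb dg n r) ^ N) := by
      intro i _
      have h2 : WtS 0 (aG ⟨i, α i⟩ : UG m sb dg n r) := WtS.inr _
      exact (h2.pow N).mono (by rw [Nat.mul_zero])
    exact (WtS.prod h1).mono (by rw [Finset.sum_const_zero])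
  have hwφ : WtS cH φ := by
    rw [hφ]
    exact (hwN.mul (hprod S)).mono (by omega)
  obtain ⟨lam, hlam⟩ : ∃ lam : Polynomial (UG m sb dg n r),
    lam = Polynomial.C φ * Polynomial.X ^ (l : ℕ) := ⟨_, rfl⟩
  have hco : ∀ l' : ℕ, lam.coeff l' = if l' = (l : ℕ) then φ else 0 := by
    intro l'
    rw [hlam, Polynomial.coeff_C_mul, Polynomial.coeff_X_pow]
    split_ifs
    · rw [mul_one]
    · rw [mul_zero]
  have hmain := hor_general e s b (c := c) lam
    (by
      rw [hlam]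
      refine (Polynomial.natDegree_C_mul_X_pow_le φ l).trans ?_
      omega)
    (by
      intro l'
      rw [hco]
      split_ifs
      · exact hwφ.mono (by omega)
      · exact WtS.zero _)
    (by
      intro i h
      obtain ⟨g, hg1, hg2⟩ := hcomp i h (hdg i h) (α i) b l
      obtain ⟨D, hD⟩ : ∃ D : UG m sb dg n r,
        D = ∏ i' ∈ S.erase i, (aG ⟨i', α i'⟩ : UG m sb dg n r) ^ N := ⟨_, rfl⟩
      have hiS : i ∈ S := by
        rw [hS, Finset.mem_filter]
        exact ⟨Finset.mem_univ _, h⟩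
      have hφD : φ = D * (Wd hr (bj e xG s) * aG ⟨i, α i⟩) ^ N := by
        rw [hφ, hD, ← Finset.mul_prod_erase S _ hiS, mul_pow]
        ring
      refine ⟨fun α' => D * g α', fun α' => ?_, ?_⟩
      · have h1 : WtS 0 D := by
          rw [hD]
          exact hprod _
        exact (h1.mul (hg1 α')).mono (by omega)
      · have h1 : Fx (fun α' => D * g α') (bj e xG (sb i)) =
            Polynomial.C D * Fx g (bj e xG (sb i)) := by
          unfold Fx
          simp only [map_mul]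
          exact ev_smul _ _ _
        have h2 : Fx (fun α' => D * g α') (bj e xG (sb i)) +
            Fdx (Fin.cast (by rw [h]) b) (fun α' => (aG ⟨i, α'⟩ : UG m sb dg n r))
              (bj e xG (sb i)) * lam =
            Polynomial.C D * (Fx g (bj e xG (sb i)) +
              Fdx (Fin.cast (by rw [h]) b) (fun α' => (aG ⟨i, α'⟩ : UG m sb dg n r))
                (bj e xG (sb i)) *
              (Polynomial.C ((Wd hr (bj e xG s) * aG ⟨i, α i⟩) ^ N) *
                Polynomial.X ^ (l : ℕ))) := by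
          rw [h1, hlam, hφD, map_mul Polynomial.C D]
          ring
        rw [h2]
        exact Ideal.mul_mem_left _ _ hg2)
    a ξ hv
  rw [Finset.sum_eq_single l] at hmain
  · rw [hco, if_pos rfl] at hmain
    have hne : eval (Sum.elim ξ a) φ ≠ 0 := by
      rw [hφ, map_mul, map_pow, map_prod]
      refine mul_ne_zero (pow_ne_zero _ ?_) (Finset.prod_ne_zero_iff.mpr fun i _ => ?_)
      · rw [Wd_map]
        have h1 : (fun p : JV (m s) r => eval (Sum.elim ξ a)
            (bj e (xG : JV n r → UG m sb dg n r) s p)) = bj e ξ s := by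
          funext p
          exact eval_X _
        rw [h1]
        exact hWd
      · rw [map_pow]
        refine pow_ne_zero _ ?_
        have h1 : eval (Sum.elim ξ a) (aG ⟨i, α i⟩ : UG m sb dg n r) = a ⟨i, α i⟩ := eval_X _
        rw [h1]
        exact hα i
    exact (Submodule.smul_mem_iff _ hne).mp hmain
  · intro l' _ hl'
    rw [hco, if_neg (fun h => hl' (Fin.ext h)), map_zero, zero_smul]
  · intro h
    exact absurd (Finset.mem_univ _) h

end Pool.Agent.H89Y
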