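import Pool.Agent.Lib.H89Y.C4a
import Pool.Agent.Lib.H89Y.C4b
import Pool.Agent.Lib.H89Y.C5c
import Pool.Agent.Lib.H89Y.C6c

set_option autoImplicit false

/-!
H89Y, CHUNK C7 (S/M).  The fields span everything.
-/

open MvPolynomial

namespace Pool.Agent.H89Y

open Pool.Agent.H89T Pool.Agent.H78G Pool.Agent.H53Y

/-- CHUNK C7.  PROOF.  `choose cS hcS using fun s => hor_small m s (hr s)`, `c = cF r + (r + 1) + ∑ s, cS s`.  `C5_single` (Lib/H78G/C5.lean): it suffices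
to show that the unit vectors are in `SpG`.  `Sum.inr ⟨i, α⟩`: by cases `T (sb i)`: `vert_small` or `vert_large` (with `b`, `one` from the last hypothesis for `s = sb i`;
`bj e ξ s (b, l) = ξ (e ⟨s, b⟩, l)` by `rfl`).  `Sum.inl (b, l)`: `b = e ⟨s, b'⟩` (`e.surjective` / `e.apply_symm_apply`), by cases `T s`: `hcS s` (`hor_small`) or
`hor_large`. -/
theorem span_SpG {β : Type} [Fintype β] [DecidableEq β] (m : β → ℕ) (T : β → Bool) {n r : ℕ}
    (e : Co m ≃ Fin n) (hr : ∀ s, m s ≤ r) : ∃ c : ℕ,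
    ∀ {ι : Type} [Fintype ι] [DecidableEq ι] (sb : ι → β) (dg : ι → ℕ),
      (∀ i, T (sb i) = true → dg i = 1) → (∀ i, T (sb i) = false → r ≤ dg i) →
      ∀ (a : Cf m sb dg → ℂ) (ξ : JV n r → ℂ),
      (∀ i, fv e a (fun b => ξ (b, 0)) i ≠ 0) →
      (∀ s, T s = true → Wd (hr s) (bj e ξ s) ≠ 0) →
      (∀ s, T s = false → ∃ b, ∃ l : Fin (r + 1), (l : ℕ) = 1 ∧ bj e ξ s (b, l) ≠ 0) →
      SpG (m := m) (sb := sb) (dg := dg) (r := r) e c a ξ = ⊤ := by
  choose cS hcS using fun s => hor_small m s (hr s)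
  obtain ⟨c, hc⟩ : ∃ c : ℕ, c = cF r + (r + 1) + ∑ s, cS s := ⟨_, rfl⟩
  refine ⟨c, ?_⟩
  intro ι _ _ sb dg hT1 hT2 a ξ hF hW hL
  have hc1 : cF r ≤ c := by omega
  have hc2 : r + 1 ≤ c := by omega
  have hcs : ∀ s, cS s ≤ c := by
    intro s
    have h1 : cS s ≤ ∑ s, cS s := Finset.single_le_sum (fun _ _ => Nat.zero_le _) (Finset.mem_univ s)
    omega
  have hv : ∀ (i : ι) (α : Idx (m (sb i)) (dg i)),
      (Pi.single (Sum.inr ⟨i, α⟩) 1 : JV n r ⊕ Cf m sb dg → ℂ) ∈ SpG e c a ξ := by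
    intro i α
    cases h : T (sb i)
    · obtain ⟨b, one, h1, hx⟩ := hL (sb i) h
      exact vert_large e i (hT2 i h) a ξ b one h1 hx (hF i) hc1 α
    · exact vert_small e i (hT1 i h) a ξ (hF i) hc2 α
  refine C5_single _ fun x => ?_
  rcases x with ⟨b, l⟩ | ⟨i, α⟩
  · obtain ⟨⟨s, b'⟩, rfl⟩ := e.surjective b
    cases h : T s
    · obtain ⟨b₀, one, h1, hx⟩ := hL s h
      exact hor_large e s (fun i hi => hT2 i (by rw [hi]; exact h)) a ξ b₀ one h1 hx hc1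
        (fun i _ α => hv i α) b' l
    · exact hcS s e sb dg (fun i hi => hT1 i (by rw [hi]; exact h)) a ξ hF (hW s h) c (hcs s)
        (fun i _ α => hv i α) b' l
  · exact hv i α

end Pool.Agent.H89Y
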