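import Pool.Agent.Lib.H89Y.C0

set_option autoImplicit false

/-!
H89Y, CHUNK C8 (M, COPY of the corresponding lemmas of Lib/H78G/C6.lean: search and replace `HV n K` by `τ`, `UA n K r` by `MvPolynomial (JV n r ⊕ τ) ℂ`,
`flatU` by `flatT`, `specU` by `specT`, `xU p` by `X (Sum.inl p)`, `hU s` by `X (Sum.inr s)`, `isJetU` by `isJT`, `jetCoeffU` by `jcT`).
-/

open MvPolynomial

namespace Pool.Agent.H89Y

open Pool.Agent.H89T Pool.Agent.H78G Pool.Agent.H53Y

variable {n r : ℕ} {τ : Type}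

/-- `flatT` as a ring homomorphism. -/
noncomputable def flT (n r : ℕ) (τ : Type) :
    MvPolynomial (JV n r) (MvPolynomial τ ℂ) →+* MvPolynomial (JV n r ⊕ τ) ℂ :=
  ((sumAlgEquiv ℂ (JV n r) τ).symm : _ →ₐ[ℂ] _).toRingHom

theorem flT_apply (P : MvPolynomial (JV n r) (MvPolynomial τ ℂ)) : flT n r τ P = flatT P := rfl

/-- CHUNK C8a.  `C6_flat_X`. -/
theorem flatT_X (q : JV n r) : flatT (X q : MvPolynomial (JV n r) (MvPolynomial τ ℂ)) = X (Sum.inl q) :=
  sumAlgEquiv_symm_X _ _ _ _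

/-- CHUNK C8b.  `C6_flat_C_X`. -/
theorem flatT_C_X (s : τ) : flatT (C (X s) : MvPolynomial (JV n r) (MvPolynomial τ ℂ)) = X (Sum.inr s) :=
  sumAlgEquiv_symm_C_X _ _ _ _

/-- CHUNK C8c.  `C6_flat_C_C`. -/
theorem flatT_C_C (c : ℂ) : flatT (C (C c) : MvPolynomial (JV n r) (MvPolynomial τ ℂ)) = C c :=
  sumAlgEquiv_symm_C_C _ _ _ _

/-- CHUNK C8d.  `flatU_ne_zero`. -/
theorem flatT_ne_zero {P : MvPolynomial (JV n r) (MvPolynomial τ ℂ)} (hP : P ≠ 0) : flatT P ≠ 0 := by
  intro h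
  apply hP
  unfold flatT at h
  exact (map_eq_zero_iff _ (sumAlgEquiv ℂ (JV n r) τ).symm.injective).1 h

theorem c8_mul (P Q : MvPolynomial (JV n r) (MvPolynomial τ ℂ)) : flatT (P * Q) = flatT P * flatT Q :=
  map_mul (flT n r τ) P Q

theorem c8_add (P Q : MvPolynomial (JV n r) (MvPolynomial τ ℂ)) : flatT (P + Q) = flatT P + flatT Q :=
  map_add (flT n r τ) P Q

theorem c8_flat_C (q : MvPolynomial τ ℂ) :
    flatT (C q : MvPolynomial (JV n r) (MvPolynomial τ ℂ)) = rename Sum.inr q := by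
  induction q using MvPolynomial.induction_on with
  | C c => rw [flatT_C_C, rename_C]
  | add p q hp hq => rw [map_add, c8_add, hp, hq, map_add]
  | mul_X p α hp => rw [map_mul, c8_mul, hp, flatT_C_X, map_mul, rename_X]

theorem c8_flat_support (P : MvPolynomial (JV n r) (MvPolynomial τ ℂ)) (m : JV n r ⊕ τ →₀ ℕ)
    (hm : m ∈ (flatT P).support) : ∃ m' ∈ P.support, ∀ p : JV n r, m (Sum.inl p) = m' p := by
  classical
  have h1 : flatT P = ∑ m' ∈ P.support, flatT (monomial m' (P.coeff m')) := by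
    simp only [← flT_apply]
    rw [← map_sum, ← P.as_sum]
  rw [h1] at hm
  have h2 := support_sum hm
  obtain ⟨m', hm', h3⟩ := Finset.mem_biUnion.1 h2
  refine ⟨m', hm', fun p => ?_⟩
  have h4 : flatT (monomial m' (P.coeff m')) =
      rename Sum.inr (P.coeff m') * ∏ p : JV n r, X (Sum.inl p) ^ (m' p) := by
    rw [monomial_eq, c8_mul, c8_flat_C]
    congr 1
    rw [← flT_apply, Finsupp.prod_fintype _ _ (fun _ => pow_zero _), map_prod]
    refine Finset.prod_congr rfl fun p _ => ?_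
    rw [map_pow, flT_apply, flatT_X]
  have h5 : (∏ p : JV n r, X (Sum.inl p) ^ (m' p) : MvPolynomial (JV n r ⊕ τ) ℂ) =
      monomial (m'.mapDomain Sum.inl) 1 := by
    rw [monomial_eq, map_one, one_mul, Finsupp.prod_mapDomain_index_inj Sum.inl_injective,
      Finsupp.prod_fintype _ _ (fun _ => pow_zero _)]
  rw [h4, h5] at h3
  obtain ⟨u, hu, v, hv, rfl⟩ := Finset.mem_add.mp (support_mul _ _ h3)
  have hv' := Finset.mem_singleton.mp (support_monomial_subset hv)
  subst hv'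
  rw [support_rename_of_injective Sum.inr_injective] at hu
  obtain ⟨w, hw, rfl⟩ := Finset.mem_image.1 hu
  rw [Finsupp.add_apply, Finsupp.mapDomain_apply Sum.inl_injective,
    Finsupp.mapDomain_of_notMem_range _ _ (by simp), zero_add]

/-- CHUNK C8e.  `C6_flatU_HasMon` (with `C6_flat_support`, `C6_flat_C`; `WtS` and the jet degree). -/
theorem flatT_HasMon {d M : ℕ} {P : MvPolynomial (JV n r) (MvPolynomial τ ℂ)} (hP : HasMon d M P) :
    (∀ m ∈ (flatT P).support, (∑ p : JV n r, if p.2 = 0 then 0 else m (Sum.inl p)) ≤ M) ∧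
      WtS (d + (r + 1) * M) (flatT P) := by
  constructor
  · intro m hm
    obtain ⟨m', hm', h⟩ := c8_flat_support P m hm
    simp only [h]
    exact (hP m' hm').2
  · intro m hm
    obtain ⟨m', hm', h⟩ := c8_flat_support P m hm
    simp only [h]
    obtain ⟨h1, h2⟩ := hP m' hm'
    have h3 := wt_le m'
    have h4 : (r + 1) * jd m' ≤ (r + 1) * M := Nat.mul_le_mul_left _ h2
    change wt m' ≤ _
    omega

/-- CHUNK C8f.  `C6_jetCoeffU_ne_zero`. -/
theorem jcT_ne_zero [Fintype τ] (P : MvPolynomial (JV n r ⊕ τ) ℂ) (e : JV n r ⊕ τ →₀ ℕ) (he : P.coeff e ≠ 0) :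
    jcT P e ≠ 0 := by
  classical
  intro h0
  have h1 : (jcT P e).coeff (Finsupp.equivFunOnFinite.symm
      (Sum.elim (fun b => e (Sum.inl (b, 0))) fun α => e (Sum.inr α))) = P.coeff e := by
    unfold jcT
    rw [coeff_sum, Finset.sum_eq_single e]
    · rw [if_pos (fun _ _ => rfl), coeff_monomial, if_pos rfl]
    · intro m _ hm
      split_ifs with h
      · rw [coeff_monomial, if_neg]
        intro h2
        apply hm
        have h3 := Finsupp.equivFunOnFinite.symm.injective h2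
        ext s
        rcases s with p | α
        · by_cases hp : p.2 = 0
          · have h4 := congrFun h3 (Sum.inl p.1)
            simp only [Sum.elim_inl] at h4
            have h5 : p = (p.1, 0) := by rw [← hp]
            rw [h5]
            exact h4
          · exact h p hp
        · exact congrFun h3 (Sum.inr α)
      · rw [coeff_zero]
    · intro h
      rw [notMem_support_iff.1 h]
      simp
  rw [h0, coeff_zero] at h1
  exact he h1.symm

/-- CHUNK C8g.  `C6_isJetU_inl`, `C6_isJetU_inr`. -/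
theorem isJT_iff (s : JV n r ⊕ τ) : isJT s ↔ ∃ q : JV n r, s = Sum.inl q ∧ q.2 ≠ 0 := Iff.rfl

theorem c8_isJT_inl (p : JV n r) : isJT (τ := τ) (Sum.inl p) ↔ p.2 ≠ 0 := by
  unfold isJT
  constructor
  · rintro ⟨q, hq, h⟩
    rwa [Sum.inl_injective hq]
  · intro h
    exact ⟨p, rfl, h⟩

theorem c8_isJT_inr (α : τ) : ¬ isJT (n := n) (r := r) (Sum.inr α) := by
  rintro ⟨q, hq, h⟩
  cases hq

/-- The jet part of a monomial. -/
noncomputable def c8_jp [Fintype τ] (m : JV n r ⊕ τ →₀ ℕ) : JV n r ⊕ τ →₀ ℕ :=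
  Finsupp.equivFunOnFinite.symm (Sum.elim (fun p => if p.2 = 0 then 0 else m (Sum.inl p))
    fun _ => 0)

theorem c8_jp_eq_iff [Fintype τ] (m e : JV n r ⊕ τ →₀ ℕ) :
    c8_jp m = c8_jp e ↔ ∀ p : JV n r, p.2 ≠ 0 → m (Sum.inl p) = e (Sum.inl p) := by
  unfold c8_jp
  constructor
  · intro h p hp
    have h1 := congrFun (Finsupp.equivFunOnFinite.symm.injective h) (Sum.inl p)
    simpa [hp] using h1
  · intro h
    congr 2
    funext p
    split_ifs with hp
    · rfl
    · exact h p hp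

theorem c8_restrict_monomial [Fintype τ] (a : τ → ℂ) (ξ : JV n r → ℂ)
    (m : JV n r ⊕ τ →₀ ℕ) (c : ℂ) :
    aeval (fun s => open Classical in if isJT s then X s else
        C (Sum.elim ξ a s) : JV n r ⊕ τ → MvPolynomial (JV n r ⊕ τ) ℂ) (monomial m c) =
      monomial (c8_jp m) (c * ((∏ b, ξ (b, 0) ^ (m (Sum.inl (b, 0)))) *
        ∏ α, a α ^ (m (Sum.inr α)))) := by
  classical
  rw [aeval_monomial, Finsupp.prod_fintype _ _ (fun _ => pow_zero _), Fintype.prod_sum_type,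
    monomial_eq, Finsupp.prod_fintype _ _ (fun _ => pow_zero _), Fintype.prod_sum_type]
  have h1 : ∀ p : JV n r, ((if isJT (τ := τ) (Sum.inl p) then X (Sum.inl p) else
      C (Sum.elim ξ a (Sum.inl p)) : MvPolynomial (JV n r ⊕ τ) ℂ)) ^ (m (Sum.inl p)) =
      if p.2 = 0 then C (ξ p) ^ (m (Sum.inl p)) else X (Sum.inl p) ^ (m (Sum.inl p)) := by
    intro p
    by_cases hp : p.2 = 0
    · rw [if_neg (by rw [c8_isJT_inl]; simpa using hp), if_pos hp, Sum.elim_inl]
    · rw [if_pos ((c8_isJT_inl p).2 hp), if_neg hp]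
  have h2 : ∀ α : τ, ((if isJT (n := n) (r := r) (Sum.inr α) then X (Sum.inr α) else
      C (Sum.elim ξ a (Sum.inr α)) : MvPolynomial (JV n r ⊕ τ) ℂ)) ^ (m (Sum.inr α)) =
      C (a α ^ (m (Sum.inr α))) := by
    intro α
    rw [if_neg (c8_isJT_inr α), Sum.elim_inr, map_pow]
  simp only [h1, h2]
  rw [C6_prod_split (fun p : JV n r => (X (Sum.inl p) ^ (m (Sum.inl p)) : MvPolynomial (JV n r ⊕ τ) ℂ))
    (fun p : JV n r => (C (ξ p) ^ (m (Sum.inl p)) : MvPolynomial (JV n r ⊕ τ) ℂ))]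
  have h3 : ∀ p : JV n r, (X (Sum.inl p) : MvPolynomial (JV n r ⊕ τ) ℂ) ^ (c8_jp m (Sum.inl p)) =
      if p.2 = 0 then 1 else X (Sum.inl p) ^ (m (Sum.inl p)) := by
    intro p
    unfold c8_jp
    rw [Finsupp.equivFunOnFinite_symm_apply_apply, Sum.elim_inl]
    split_ifs
    · exact pow_zero _
    · rfl
  have h4 : ∀ α : τ, (X (Sum.inr α) : MvPolynomial (JV n r ⊕ τ) ℂ) ^ (c8_jp m (Sum.inr α)) = 1 := by
    intro α
    unfold c8_jp
    rw [Finsupp.equivFunOnFinite_symm_apply_apply, Sum.elim_inr, pow_zero]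
  simp only [h3, h4, Finset.prod_const_one, mul_one, map_mul, map_prod, map_pow, algebraMap_eq]
  ring

/-- CHUNK C8h.  `C6_restrictU_ne_zero` (with `C6_jp`, `C6_jp_eq_iff`, `C6_prod_split`, `C6_restrict_monomial`; replace the last `convert` by
`simpa using h3` or an `exact` after `open Classical in`). -/
theorem restrictT_ne_zero [Fintype τ] (a : τ → ℂ) (P : MvPolynomial (JV n r ⊕ τ) ℂ) (e : JV n r ⊕ τ →₀ ℕ)
    (ξ : JV n r → ℂ) (h : eval (Sum.elim (fun b => ξ (b, 0)) a) (jcT P e) ≠ 0) :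
    aeval (fun s => open Classical in if isJT s then X s else
        C (Sum.elim ξ a s) : JV n r ⊕ τ → MvPolynomial (JV n r ⊕ τ) ℂ) P ≠ 0 := by
  classical
  intro h0
  apply h
  have h1 : (aeval (fun s => open Classical in if isJT s then X s else
      C (Sum.elim ξ a s) : JV n r ⊕ τ → MvPolynomial (JV n r ⊕ τ) ℂ) P).coeff (c8_jp e) =
      eval (Sum.elim (fun b => ξ (b, 0)) a) (jcT P e) := by
    have h2 : aeval (fun s => open Classical in if isJT s then X s else
        C (Sum.elim ξ a s) : JV n r ⊕ τ → MvPolynomial (JV n r ⊕ τ) ℂ) P = ∑ m ∈ P.support,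
        monomial (c8_jp m) (P.coeff m * ((∏ b, ξ (b, 0) ^ (m (Sum.inl (b, 0)))) *
        ∏ α, a α ^ (m (Sum.inr α)))) := by
      conv_lhs => rw [P.as_sum]
      rw [map_sum]
      exact Finset.sum_congr rfl fun m _ => c8_restrict_monomial a ξ m _
    rw [h2, coeff_sum]
    unfold jcT
    rw [map_sum]
    refine Finset.sum_congr rfl fun m _ => ?_
    rw [coeff_monomial]
    by_cases hm : c8_jp m = c8_jp e
    · rw [if_pos hm, if_pos ((c8_jp_eq_iff m e).1 hm), eval_monomial,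
        Finsupp.prod_fintype _ _ (fun _ => pow_zero _), Fintype.prod_sum_type]
      simp
    · rw [if_neg hm, if_neg (fun h => hm ((c8_jp_eq_iff m e).2 h)), map_zero]
  rw [← h1, h0, coeff_zero]

theorem c8_spec_monomial [Fintype τ] (a : τ → ℂ) (m : JV n r ⊕ τ →₀ ℕ) (c : ℂ) :
    specT a (monomial m c) = monomial (Finsupp.equivFunOnFinite.symm fun p => m (Sum.inl p))
      (c * ∏ α, a α ^ (m (Sum.inr α))) := by
  unfold specT
  rw [aeval_monomial, Finsupp.prod_fintype _ _ (fun _ => pow_zero _), Fintype.prod_sum_type,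
    monomial_eq, Finsupp.prod_fintype _ _ (fun _ => pow_zero _)]
  simp only [Sum.elim_inl, Sum.elim_inr, algebraMap_eq, Finsupp.equivFunOnFinite_symm_apply_apply,
    map_mul, map_prod, map_pow]
  ring

/-- CHUNK C8i.  `C6_specU_WtS` (with `C6_spec_monomial`). -/
theorem specT_WtS [Fintype τ] {d : ℕ} (a : τ → ℂ) {P : MvPolynomial (JV n r ⊕ τ) ℂ} (hP : WtS d P) :
    HasWt d (specT a P) := by
  classical
  intro m hm
  have h1 : specT a P = ∑ m' ∈ P.support, specT a (monomial m' (P.coeff m')) := by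
    rw [← map_sum, ← P.as_sum]
  rw [h1] at hm
  obtain ⟨m', hm', h3⟩ := Finset.mem_biUnion.1 (support_sum hm)
  rw [c8_spec_monomial] at h3
  have h4 := Finset.mem_singleton.mp (support_monomial_subset h3)
  subst h4
  exact hP m' hm'

/-- CHUNK C8j.  `C6_evU_eq`. -/
theorem eval_specT (a : τ → ℂ) (ξ : JV n r → ℂ) (P : MvPolynomial (JV n r ⊕ τ) ℂ) :
    eval (Sum.elim ξ a) P = eval ξ (specT a P) := by
  have h : (aeval (Sum.elim ξ a) : MvPolynomial (JV n r ⊕ τ) ℂ →ₐ[ℂ] ℂ) =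
      ((aeval ξ : MvPolynomial (JV n r) ℂ →ₐ[ℂ] ℂ)).comp (specT a) := by
    apply MvPolynomial.algHom_ext
    intro s
    unfold specT
    rw [AlgHom.comp_apply, aeval_X, aeval_X]
    cases s with
    | inl p => simp
    | inr α => simp [← algebraMap_eq]
  have h1 := congrArg (fun f : MvPolynomial (JV n r ⊕ τ) ℂ →ₐ[ℂ] ℂ => f P) h
  exact h1

/-- CHUNK C8k.  The field weight lemma for a general derivation.  PROOF.  The last lines of `WtS.field` (Lib/H78G/W0.lean): `P.as_sum`, `map_sum`, `WtS.sum`,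
`w0_deriv_mem`. -/
theorem WtS_der [Fintype τ] {d c : ℕ} {P : MvPolynomial (JV n r ⊕ τ) ℂ} (hP : WtS d P)
    (V : Derivation ℂ (MvPolynomial (JV n r ⊕ τ) ℂ) (MvPolynomial (JV n r ⊕ τ) ℂ)) (hV : ∀ x, WtS c (V (X x))) :
    WtS (d + c) (V P) := by
  rw [P.as_sum, map_sum]
  refine WtS.sum fun m hm => ?_
  have h1 := hP m hm
  change w0w m ≤ d at h1
  exact (w0_deriv_mem _ hV m _).mono (by omega)

end Pool.Agent.H89Y
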