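import Pool.Agent.Lib.H89Y.C1
import Pool.Agent.Lib.H89Y.C8

set_option autoImplicit false

/-!
H89Y, CHUNK C9 (M).  Property (A) under flattening and specialization (model Lib/H78G/C6.lean).
-/

open MvPolynomial

namespace Pool.Agent.H89Y

open Pool.Agent.H89T Pool.Agent.H78G Pool.Agent.H53Y

variable {β : Type} {m : β → ℕ} {ι : Type} {sb : ι → β} {dg : ι → ℕ} {n r : ℕ}

/-- The generic coefficients. -/
noncomputable def gnG (m : β → ℕ) (sb : ι → β) (dg : ι → ℕ) (x : Cf m sb dg) : MvPolynomial (Cf m sb dg) ℂ := X x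

/-- `vG` by coefficients. -/
theorem c9_vG (e : Co m ≃ Fin n) (i : ι) (l : ℕ) :
    ((vG e i).coeff l : UG m sb dg n r) = uu (fun α => aG ⟨i, α⟩) (bj e xG (sb i)) l := rfl

theorem c9_us {R : Type} [CommRing R] (e : Co m ≃ Fin n) (a : Cf m sb dg → R) (i : ι) (l : ℕ) :
    us (r := r) e a i l = uu (fun α => C (a ⟨i, α⟩)) (bj e (fun q => X q) (sb i)) l := rfl

/-- CHUNK C9a.  PROOF.  As `flatU_uR` (Lib/H78G/C6.lean): `uu_map` for `flT` (C8), `flatT_X`, `flatT_C_X`; `us e a i l = uu (fun α => C (a ⟨i, α⟩)) (bj e (fun q => X q) (sb i)) l`,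
`(vG e i).coeff l = uu (fun α => aG ⟨i, α⟩) (bj e xG (sb i)) l` by `rfl` (unfold `vG fa`). -/
theorem flatT_us (e : Co m ≃ Fin n) (i : ι) (l : ℕ) :
    flatT (us (r := r) e (gnG m sb dg) i l) = (vG e i).coeff l := by
  have h := uu_map (flT n r (Cf m sb dg)) (fun α => C (gnG m sb dg ⟨i, α⟩))
    (bj e (fun q => X q) (sb i)) l
  rw [c9_vG, ← flT_apply, c9_us, h]
  congr 1
  · funext α
    rw [flT_apply]
    exact flatT_C_X _
  · funext q
    rw [flT_apply]
    exact flatT_X _

theorem c9_add (P Q : MvPolynomial (JV n r) (MvPolynomial (Cf m sb dg) ℂ)) :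
    flatT (P + Q) = flatT P + flatT Q := map_add (flT n r (Cf m sb dg)) P Q

theorem c9_mul (P Q : MvPolynomial (JV n r) (MvPolynomial (Cf m sb dg) ℂ)) :
    flatT (P * Q) = flatT P * flatT Q := map_mul (flT n r (Cf m sb dg)) P Q

theorem c9_flat_NN_X (p : JV n r) :
    flatT (NN n r (MvPolynomial (Cf m sb dg) ℂ) (X p)) = NG (flatT (X p)) := by
  have h1 : (X (Sum.inl p) : UG m sb dg n r) = xG p := rfl
  rw [C6_NN_X, flatT_X, h1, NG_xG]
  split_ifs with h
  · rw [nsmul_eq_mul, nsmul_eq_mul, c9_mul, flatT_X]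
    congr 1
    rw [← flT_apply, map_natCast]
  · rw [← flT_apply, map_zero]

/-- CHUNK C9b.  PROOF.  As `flatU_NN` (with `C6_flat_NN_X`), `NG_xG`, `NG_aG` (C1), `flatT_X`, `flatT_C_X`, `flatT_C_C`. -/
theorem flatT_NN (P : MvPolynomial (JV n r) (MvPolynomial (Cf m sb dg) ℂ)) :
    flatT (NN n r (MvPolynomial (Cf m sb dg) ℂ) P) = NG (flatT P) := by
  induction P using MvPolynomial.induction_on with
  | C q =>
    have h0 : NN n r (MvPolynomial (Cf m sb dg) ℂ) (C q) = 0 := by
      rw [← algebraMap_eq]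
      exact Derivation.map_algebraMap _ _
    rw [h0, ← flT_apply, map_zero]
    symm
    induction q using MvPolynomial.induction_on with
    | C c =>
      rw [flatT_C_C]
      exact Derivation.map_algebraMap _ _
    | add p q hp hq =>
      have hp' := hp (by rw [← algebraMap_eq]; exact Derivation.map_algebraMap _ _)
      have hq' := hq (by rw [← algebraMap_eq]; exact Derivation.map_algebraMap _ _)
      rw [map_add, c9_add, map_add, hp', hq', add_zero]
    | mul_X p α hp =>
      have hp' := hp (by rw [← algebraMap_eq]; exact Derivation.map_algebraMap _ _)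
      have h2 : NG (X (Sum.inr α) : UG m sb dg n r) = 0 := NG_aG α
      rw [map_mul, c9_mul, Derivation.leibniz, hp', flatT_C_X, h2]
      simp
  | add p q hp hq => rw [map_add, c9_add, hp, hq, c9_add, map_add]
  | mul_X p i hp =>
    rw [Derivation.leibniz, c9_mul, Derivation.leibniz, c9_add, smul_eq_mul, smul_eq_mul,
      c9_mul, c9_mul, hp, c9_flat_NN_X, smul_eq_mul, smul_eq_mul]

theorem c9_map_iterate (P : MvPolynomial (JV n r) (MvPolynomial (Cf m sb dg) ℂ)) (l : ℕ) :
    flatT ((NN n r (MvPolynomial (Cf m sb dg) ℂ))^[l] P) = (NG)^[l] (flatT P) := by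
  induction l with
  | zero => rfl
  | succ l ih => rw [Function.iterate_succ_apply', Function.iterate_succ_apply', flatT_NN, ih]

/-- CHUNK C9c.  PROOF.  As `C6_flatU_PropA`: iterate `flatT_NN`; the ideals: cases `i = i'`, `i ≠ i'` (unfold `IG IU`, `if_pos`, `if_neg`), `Ideal.mem_span_pair`,
`map_add`, `map_mul` for `flT`, `flatT_us`. -/
theorem flatT_PropG [DecidableEq ι] {e : Co m ≃ Fin n} {q : ℕ} {P : MvPolynomial (JV n r) (MvPolynomial (Cf m sb dg) ℂ)}
    (hP : PropG e (gnG m sb dg) q P) : PropU e q (flatT P) := by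
  intro l hl i i'
  have h := hP l hl i i'
  rw [← c9_map_iterate]
  unfold IG at h
  unfold IU
  by_cases hii : i = i'
  · rw [if_pos hii] at h ⊢
    obtain ⟨u, v, huv⟩ := Ideal.mem_span_pair.1 h
    rw [← huv, c9_add, c9_mul, c9_mul, flatT_us, flatT_us]
    exact Ideal.mem_span_pair.2 ⟨_, _, rfl⟩
  · rw [if_neg hii] at h ⊢
    obtain ⟨u, v, huv⟩ := Ideal.mem_span_pair.1 h
    rw [← huv, c9_add, c9_mul, c9_mul, flatT_us, flatT_us]
    exact Ideal.mem_span_pair.2 ⟨_, _, rfl⟩

theorem c9_spec_xG (a : Cf m sb dg → ℂ) (p : JV n r) : specT a (xG p : UG m sb dg n r) = X p := by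
  unfold specT xG
  rw [aeval_X, Sum.elim_inl]

theorem c9_spec_aG (a : Cf m sb dg → ℂ) (x : Cf m sb dg) :
    specT a (aG x : UG m sb dg n r) = C (a x) := by
  unfold specT aG
  rw [aeval_X, Sum.elim_inr]

/-- CHUNK C9d.  PROOF.  As `specU_uU`: `uu_map` for `(specT a).toRingHom`; `specT a (xG q) = X q`, `specT a (aG x) = C (a x)` (`aeval_X`). -/
theorem specT_vG (e : Co m ≃ Fin n) (a : Cf m sb dg → ℂ) (i : ι) (l : ℕ) :
    specT a ((vG e i).coeff l : UG m sb dg n r) = us e a i l := by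
  have h := uu_map (specT (n := n) (r := r) a).toRingHom
    (fun α => (aG ⟨i, α⟩ : UG m sb dg n r)) (bj e xG (sb i)) l
  rw [c9_vG, c9_us]
  refine Eq.trans ?_ (h.trans ?_)
  · rfl
  · congr 1
    · funext α
      exact c9_spec_aG a _
    · funext q
      exact c9_spec_xG a _

theorem c9_spec_NG_X (a : Cf m sb dg → ℂ) (s : JV n r ⊕ Cf m sb dg) :
    specT a (NG (X s : UG m sb dg n r)) = NN n r ℂ (specT a (X s)) := by
  cases s with
  | inl p =>
    change specT a (NG (xG p)) = NN n r ℂ (specT a (xG p))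
    rw [NG_xG, c9_spec_xG, C6_NN_X]
    split_ifs with h
    · rw [nsmul_eq_mul, nsmul_eq_mul, map_mul, c9_spec_xG, map_natCast]
    · exact map_zero _
  | inr α =>
    change specT a (NG (aG α)) = NN n r ℂ (specT a (aG α))
    rw [NG_aG, c9_spec_aG, map_zero, ← algebraMap_eq, Derivation.map_algebraMap]

/-- CHUNK C9e.  PROOF.  As `specU_NU` (with `C6_spec_NU_X`). -/
theorem specT_NG (a : Cf m sb dg → ℂ) (P : UG m sb dg n r) : specT a (NG P) = NN n r ℂ (specT a P) := by
  induction P using MvPolynomial.induction_on with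
  | C c =>
    have h1 : NG (C c : UG m sb dg n r) = 0 := Derivation.map_algebraMap _ _
    have h2 : specT (n := n) (r := r) a (C c) = C c := (specT a).commutes c
    rw [h1, h2, map_zero, ← algebraMap_eq, Derivation.map_algebraMap]
  | add p q hp hq => rw [map_add, map_add, map_add, map_add, hp, hq]
  | mul_X p s hp =>
    rw [Derivation.leibniz, map_add, smul_eq_mul, smul_eq_mul, map_mul, map_mul, c9_spec_NG_X, hp,
      map_mul, Derivation.leibniz, smul_eq_mul, smul_eq_mul]

theorem c9_spec_iterate (a : Cf m sb dg → ℂ) (P : UG m sb dg n r) (l : ℕ) :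
    specT a ((NG)^[l] P) = (NN n r ℂ)^[l] (specT a P) := by
  induction l with
  | zero => rfl
  | succ l ih => rw [Function.iterate_succ_apply', Function.iterate_succ_apply', specT_NG, ih]

/-- CHUNK C9f.  PROOF.  As `C6_specU_PropU`, with the two cases as in C9c. -/
theorem specT_PropU [DecidableEq ι] {e : Co m ≃ Fin n} {q : ℕ} (a : Cf m sb dg → ℂ) {P : UG m sb dg n r}
    (hP : PropU e q P) : PropG e a q (specT a P) := by
  intro l hl i i'
  have h := hP l hl i i'
  rw [← c9_spec_iterate]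
  unfold IU at h
  unfold IG
  by_cases hii : i = i'
  · rw [if_pos hii] at h ⊢
    obtain ⟨u, v, huv⟩ := Ideal.mem_span_pair.1 h
    rw [← huv, map_add, map_mul, map_mul, specT_vG, specT_vG]
    exact Ideal.mem_span_pair.2 ⟨_, _, rfl⟩
  · rw [if_neg hii] at h ⊢
    obtain ⟨u, v, huv⟩ := Ideal.mem_span_pair.1 h
    rw [← huv, map_add, map_mul, map_mul, specT_vG, specT_vG]
    exact Ideal.mem_span_pair.2 ⟨_, _, rfl⟩

end Pool.Agent.H89Y
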