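import Pool.Agent.Lib.H89Y.C2
import Pool.Agent.Lib.H89Y.C7
import Pool.Agent.Lib.H89Y.C9

set_option autoImplicit false

/-!
H89Y, CHUNK C10 (M).  Slanted fields: conclusion (model Lib/H78G/C7.lean).
-/

open MvPolynomial

namespace Pool.Agent.H89Y

open Pool.Agent.H89T Pool.Agent.H78G Pool.Agent.H53Y

/-- CHUNK C10a.  PROOF.  As `C7_app_prop` (Lib/H78G/C7.lean), induction on the list: `WtS_der` (C8), `PropU.field` (C2). -/
theorem app_propG {β : Type} {m : β → ℕ} {ι : Type} [DecidableEq ι] [Fintype ι] {sb : ι → β} {dg : ι → ℕ} {n r : ℕ}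
    {e : Co m ≃ Fin n} {c w : ℕ}
    (L : List (Derivation ℂ (UG m sb dg n r) (UG m sb dg n r))) (hL : ∀ V ∈ L, V ∈ FldG (r := r) e c)
    (P : UG m sb dg n r) (hw : WtS w P) :
    WtS (w + L.length * c) (app L P) ∧ (PropU e r P → PropU e r (app L P)) := by
  induction L with
  | nil => exact ⟨by simpa [app] using hw, fun h => h⟩
  | cons V L ih =>
    obtain ⟨h1, h2⟩ := ih (fun V' hV' => hL V' (List.mem_cons_of_mem _ hV'))
    obtain ⟨hadm, hV⟩ := hL V List.mem_cons_self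
    have happ : app (V :: L) P = V (app L P) := rfl
    rw [happ]
    refine ⟨?_, fun h => (h2 h).field hadm⟩
    refine (WtS_der h1 V hV).mono ?_
    rw [List.length_cons]
    ring_nf
    exact le_rfl

/-- CHUNK C10b.  PROOF.  As `slantU` (Lib/H78G/C7.lean): `c` from `span_SpG` (C7); `flatT P ≠ 0`, choose `e₀` in its support, `W = jcT (flatT P) e₀`
(`jcT_ne_zero`); at a good point apply `exists_app_ne_zero` (Lib/H89T/C9.lean) with the point `Sum.elim ξ a`, the set `FldG e c` (its span is `SpG = ⊤`, `SpG` is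
defined as this span), `J = {s | isJT s}`, the degree bound from `flatT_HasMon`, `restrictT_ne_zero`; `Q = specT a (app L (flatT P))`: `specT_WtS`, `eval_specT`,
`flatT_PropG`, `app_propG`, `specT_PropU`. -/
theorem slantG {β : Type} [Fintype β] [DecidableEq β] (m : β → ℕ) (T : β → Bool) {n r : ℕ}
    (e : Co m ≃ Fin n) (hr : ∀ s, m s ≤ r) : ∃ c : ℕ,
    ∀ {ι : Type} [Fintype ι] [DecidableEq ι] (sb : ι → β) (dg : ι → ℕ),
      (∀ i, T (sb i) = true → dg i = 1) → (∀ i, T (sb i) = false → r ≤ dg i) →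
      ∀ {d M : ℕ} (P : MvPolynomial (JV n r) (MvPolynomial (Cf m sb dg) ℂ)), P ≠ 0 → HasMon d M P →
      PropG e (gnG m sb dg) r P →
      ∃ W : MvPolynomial (Fin n ⊕ Cf m sb dg) ℂ, W ≠ 0 ∧
      ∀ (a : Cf m sb dg → ℂ) (ξ : JV n r → ℂ),
      eval (Sum.elim (fun b => ξ (b, 0)) a) W ≠ 0 →
      (∀ i, fv e a (fun b => ξ (b, 0)) i ≠ 0) →
      (∀ s, T s = true → Wd (hr s) (bj e ξ s) ≠ 0) →
      (∀ s, T s = false → ∃ b, ∃ l : Fin (r + 1), (l : ℕ) = 1 ∧ bj e ξ s (b, l) ≠ 0) →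
      ∃ Q : MvPolynomial (JV n r) ℂ, HasWt (d + (r + 1) * M + M * c) Q ∧ PropG e a r Q ∧ eval ξ Q ≠ 0 := by
  classical
  obtain ⟨c, hc⟩ := span_SpG m T e hr
  refine ⟨c, ?_⟩
  intro ι _ _ sb dg hT1 hT2 d M P hP0 hP hA
  have hflat : flatT P ≠ 0 := flatT_ne_zero hP0
  obtain ⟨e₀, he⟩ := MvPolynomial.exists_coeff_ne_zero hflat
  obtain ⟨hjd, hwt⟩ := flatT_HasMon hP
  refine ⟨jcT (flatT P) e₀, jcT_ne_zero _ _ he, ?_⟩
  intro a ξ hW hF hWd hL1
  have hspan := hc sb dg hT1 hT2 a ξ hF hWd hL1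
  have hres := restrictT_ne_zero a (flatT P) e₀ ξ hW
  have hinl : ∀ p : JV n r, isJT (Sum.inl p : JV n r ⊕ Cf m sb dg) ↔ p.2 ≠ 0 := by
    intro p
    rw [isJT_iff]
    constructor
    · rintro ⟨q, hq, hq2⟩
      rw [Sum.inl_injective hq]
      exact hq2
    · intro h
      exact ⟨p, rfl, h⟩
  have hinr : ∀ x : Cf m sb dg, ¬ isJT (Sum.inr x : JV n r ⊕ Cf m sb dg) := by
    intro x
    rw [isJT_iff]
    rintro ⟨q, hq, _⟩
    exact Sum.inr_ne_inl hq
  obtain ⟨L, hL, hlen, hne⟩ := exists_app_ne_zero (Sum.elim ξ a) (FldG (r := r) e c)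
    hspan {s | isJT s} (flatT P) M (by
      intro μ hμ
      refine le_trans (le_of_eq ?_) (hjd μ hμ)
      rw [Fintype.sum_sum_type]
      have h2 : ∀ α : Cf m sb dg, (if (Sum.inr α : JV n r ⊕ Cf m sb dg) ∈ {s | isJT s} then
          μ (Sum.inr α) else 0) = 0 := fun α => if_neg (hinr α)
      simp only [h2, Finset.sum_const_zero, add_zero]
      refine Finset.sum_congr rfl fun p _ => ?_
      by_cases hp : p.2 = 0
      · rw [if_pos hp, if_neg]
        rw [Set.mem_ofPred_eq, hinl]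
        simpa using hp
      · rw [if_neg hp, if_pos]
        rw [Set.mem_ofPred_eq, hinl]
        exact hp) (by
      have h2 : (fun s => if s ∈ {s | isJT s} then X s else C (Sum.elim ξ a s) :
          JV n r ⊕ Cf m sb dg → UG m sb dg n r) =
          fun s => open Classical in if isJT s then X s else C (Sum.elim ξ a s) := by
        funext s
        by_cases hs : isJT s
        · rw [if_pos hs, if_pos (by rw [Set.mem_ofPred_eq]; exact hs)]
        · rw [if_neg hs, if_neg (by rw [Set.mem_ofPred_eq]; exact hs)]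
      rw [h2]
      exact hres)
  obtain ⟨h1, h2⟩ := app_propG L hL (flatT P) hwt
  refine ⟨specT a (app L (flatT P)), ?_, ?_, ?_⟩
  · refine specT_WtS a (h1.mono ?_)
    have := Nat.mul_le_mul_right c hlen
    omega
  · exact specT_PropU a (h2 (flatT_PropG hA))
  · rw [← eval_specT]
    exact hne

end Pool.Agent.H89Y
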