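import Pool.Agent.Lib.H89Y.A6
import Pool.Agent.Lib.H89Y.A7
import Pool.Agent.Lib.H89Y.C10

set_option autoImplicit false

/-!
H89Y, CHUNK AMain (M).  Assembly of modules A and C (model Lib/H78G/AH.lean).
-/

open MvPolynomial

namespace Pool.Agent.H89Y

open Pool.Agent.H89T Pool.Agent.H78G Pool.Agent.H53Y

theorem amain_wt {n r : ℕ} : HasWt 0 (1 : MvPolynomial (JV n r) ℂ) := by
  intro μ hμ
  have h1 : (1 : MvPolynomial (JV n r) ℂ) = monomial 0 1 := rfl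
  rw [h1] at hμ
  have h2 := support_monomial_subset hμ
  rw [Finset.mem_singleton] at h2
  rw [h2]
  unfold wt
  simp

/-- The case without factors. -/
theorem amain_empty {β : Type} [DecidableEq β] {m : β → ℕ} {n r : ℕ} (e : Co m ≃ Fin n) (ι : Type) [Fintype ι] [DecidableEq ι] [IsEmpty ι]
    (sb : ι → β) (dg : ι → ℕ) (α : ℝ) (hα : 0 < α) (c : ℕ) (a : Cf m sb dg → ℂ) (ξ : JV n r → ℂ) :
    ∃ (d : ℕ) (P : MvPolynomial (JV n r) ℂ),
      (d : ℝ) ≤ α * r * (∑ i, dg i : ℕ) + c ∧ HasWt d P ∧ PropG e a r P ∧ eval ξ P ≠ 0 := by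
  refine ⟨0, 1, ?_, amain_wt, ?_, ?_⟩
  · rw [Nat.cast_zero]
    positivity
  · intro l _ i
    exact isEmptyElim i
  · rw [map_one]
    exact one_ne_zero

/-- CHUNK AMain1.  PROOF.  `β` is nonempty or `n = 0`.  Let `r₀ = ∑ s, m s` (so `m s ≤ r₀`), `r, s, M` from `count_G n hn r₀ α hα` (A6), `hr s : m s ≤ r`, `c` from
`slantG m T e hr` (C10), `C = (r + 1) * M + M * c + r + 1` (so `2 ≤ C`).  Given `sb`, `dg`: `D = ∑ dg i`.
If `ι` is empty: `W = 1`, `d = 0`, `P = 1` (`HasWt 0 1`, `PropG` is vacuous, `eval = 1`).  Otherwise `1 ≤ D` (`dg i = 1` or `C ≤ dg i`), `exists_PG` (A7) with `d = s * D`, `M`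
(`hT`: small: `dg i = 1`; large: `2 ≤ C ≤ dg i`, `2 ≤ m (sb i)`), then `slantG` gives `W` and for good `(a, ξ)` the operator `Q` of weight `≤ s D + (r + 1) M + M c ≤ α r D + C`. -/
theorem algG_pos {β : Type} [Fintype β] [DecidableEq β] (m : β → ℕ) (T : β → Bool) {n : ℕ}
    (e : Co m ≃ Fin n) (hm : ∀ s, 1 ≤ m s) (hT : ∀ s, T s = false → 2 ≤ m s) (hn : 1 ≤ n) (α : ℝ) (hα : 0 < α) :
    AlgG m T e α := by
  classical
  obtain ⟨r, s, M, hr1, hr0, hs, hcount⟩ := count_G n hn (∑ s, m s) α hα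
  have hr : ∀ s, m s ≤ r := fun s =>
    (Finset.single_le_sum (f := m) (fun _ _ => Nat.zero_le _) (Finset.mem_univ s)).trans hr0
  obtain ⟨c, hc⟩ := slantG m T e hr
  refine ⟨r, (r + 1) * M + M * c + r + 1, hr, hr1, ?_⟩
  intro ι _ _ sb dg hd1 hd2
  rcases isEmpty_or_nonempty ι with hι | ⟨⟨i₀⟩⟩
  · exact ⟨1, one_ne_zero, fun a ξ _ _ _ _ => amain_empty e ι sb dg α hα _ a ξ⟩
  · have h1 : ∀ i, dg i = 1 ∨ (2 ≤ dg i ∧ 2 ≤ m (sb i)) := by
      intro i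
      rcases hb : T (sb i) with _ | _
      · right
        exact ⟨by have := hd2 i hb; omega, hT _ hb⟩
      · left
        exact hd1 i hb
    have hD : 1 ≤ ∑ i, dg i := by
      have h2 : dg i₀ ≤ ∑ i, dg i := Finset.single_le_sum (f := dg) (fun _ _ => Nat.zero_le _) (Finset.mem_univ i₀)
      rcases h1 i₀ with h3 | h3
      · omega
      · omega
    obtain ⟨P, hP0, hPm, hPA⟩ := exists_PG (sb := sb) (dg := dg) (r := r) e hm h1 hr1 (s * ∑ i, dg i) M (hcount _ hD)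
    obtain ⟨W, hW0, hW⟩ := hc sb dg hd1 (fun i hi => by have := hd2 i hi; omega) P hP0 hPm hPA
    refine ⟨W, hW0, fun a ξ g1 g2 g3 g4 => ?_⟩
    obtain ⟨Q, hQw, hQA, hQ0⟩ := hW a ξ g1 g2 g3 g4
    refine ⟨_, Q, ?_, hQw, hQA, hQ0⟩
    have h4 : (s : ℝ) * ((∑ i, dg i : ℕ) : ℝ) ≤ α * r * ((∑ i, dg i : ℕ) : ℝ) :=
      mul_le_mul_of_nonneg_right hs (Nat.cast_nonneg _)
    have h5 : (0 : ℝ) ≤ (r : ℝ) := Nat.cast_nonneg _
    rw [Nat.cast_add, Nat.cast_add, Nat.cast_mul, Nat.cast_add, Nat.cast_add, Nat.cast_add, Nat.cast_one]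
    linarith

/-- CHUNK AMain2.  PROOF.  If `1 ≤ n`: `algG_pos`.  If `n = 0`: `β` is empty (`⟨s, ⟨0, _⟩⟩ : Co m` would give an element of `Fin 0`), so `ι` is empty for all `sb : ι → β`; take `r = 1`, `C = 0`,
`W = 1`, `d = 0`, `P = 1`. -/
theorem algG {β : Type} [Fintype β] [DecidableEq β] (m : β → ℕ) (T : β → Bool) {n : ℕ}
    (e : Co m ≃ Fin n) (hm : ∀ s, 1 ≤ m s) (hT : ∀ s, T s = false → 2 ≤ m s) (α : ℝ) (hα : 0 < α) :
    AlgG m T e α := by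
  rcases Nat.eq_zero_or_pos n with rfl | hn
  · have hβ : IsEmpty β := ⟨fun s => (e ⟨s, ⟨0, hm s⟩⟩).elim0⟩
    refine ⟨1, 0, fun s => (hβ.false s).elim, le_rfl, ?_⟩
    intro ι _ _ sb dg _ _
    have hι : IsEmpty ι := ⟨fun i => hβ.false (sb i)⟩
    exact ⟨1, one_ne_zero, fun a ξ _ _ _ _ => amain_empty e ι sb dg α hα 0 a ξ⟩
  · exact algG_pos m T e hm hT hn α hα

end Pool.Agent.H89Y
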