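import Pool.Agent.Lib.H89Y.C9
import Pool.Agent.Lib.H89T.AlgFinal

set_option autoImplicit false

/-!
H89Y, module A: leading monomials, more unknowns than conditions.
-/

open MvPolynomial

namespace Pool.Agent.H89Y

open Pool.Agent.H89T Pool.Agent.H78G Pool.Agent.H53Y

section Leading

variable {σ : Type}

/-- `m` is the leading monomial of `f` for the weight `om`. -/
def Lead (om : σ → ℕ) (f : MvPolynomial σ ℂ) (m : σ →₀ ℕ) : Prop :=
  coeff m f ≠ 0 ∧ ∀ m' ∈ f.support, m' = m ∨ Finsupp.weight om m' < Finsupp.weight om m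

/-- PROOF.  Coefficient of `m + m'` in `f g`: `coeff_mul`; a pair `(u, v)` with `u + v = m + m'`, `u ∈ f.support`, `v ∈ g.support` has `weight u ≤ weight m`, `weight v ≤ weight m'`
with equality only for `u = m`, `v = m'`; the weights add (`map_add`).  Support: `support_mul`. -/
theorem Lead.mul {om : σ → ℕ} {f g : MvPolynomial σ ℂ} {m m' : σ →₀ ℕ} (hf : Lead om f m)
    (hg : Lead om g m') : Lead om (f * g) (m + m') := by
  classical
  constructor
  · rw [coeff_mul, Finset.sum_eq_single (m, m')]
    · exact mul_ne_zero hf.1 hg.1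
    · rintro ⟨u, v⟩ huv hne
      rw [Finset.HasAntidiagonal.mem_antidiagonal] at huv
      simp only at huv ⊢
      by_cases hu : coeff u f = 0
      · rw [hu, zero_mul]
      by_cases hv : coeff v g = 0
      · rw [hv, mul_zero]
      exfalso
      have hw : Finsupp.weight om u + Finsupp.weight om v = Finsupp.weight om m + Finsupp.weight om m' := by
        rw [← map_add, ← map_add, huv]
      rcases hf.2 u (mem_support_iff.2 hu) with h1 | h1
      · rcases hg.2 v (mem_support_iff.2 hv) with h2 | h2
        · exact hne (Prod.ext h1 h2)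
        · rw [h1] at hw
          omega
      · rcases hg.2 v (mem_support_iff.2 hv) with h2 | h2
        · rw [h2] at hw
          omega
        · omega
    · intro h
      refine absurd ?_ h
      rw [Finset.HasAntidiagonal.mem_antidiagonal]
  · intro w hw
    obtain ⟨u, hu, v, hv, rfl⟩ := Finset.mem_add.1 (support_mul f g hw)
    rw [map_add, map_add]
    rcases hf.2 u hu with h1 | h1
    · rcases hg.2 v hv with h2 | h2
      · exact Or.inl (by rw [h1, h2])
      · right
        rw [h1]
        omega
    · rcases hg.2 v hv with h2 | h2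
      · right
        rw [h2]
        omega
      · right
        omega

theorem Lead.monomial (om : σ → ℕ) (m : σ →₀ ℕ) {c : ℂ} (hc : c ≠ 0) :
    Lead om (MvPolynomial.monomial m c) m := by
  classical
  constructor
  · rw [coeff_monomial, if_pos rfl]
    exact hc
  · intro m' hm'
    exact Or.inl (Finset.mem_singleton.1 (support_monomial_subset hm'))

theorem Lead.one (om : σ → ℕ) : Lead om (1 : MvPolynomial σ ℂ) 0 :=
  Lead.monomial om 0 one_ne_zero

theorem Lead.pow {om : σ → ℕ} {f : MvPolynomial σ ℂ} {m : σ →₀ ℕ} (hf : Lead om f m) (q : ℕ) :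
    Lead om (f ^ q) (q • m) := by
  induction q with
  | zero =>
    rw [pow_zero, zero_smul]
    exact Lead.one om
  | succ q ih =>
    rw [pow_succ, succ_nsmul]
    exact ih.mul hf

theorem Lead.prod {ι : Type*} (s : Finset ι) {om : σ → ℕ} {f : ι → MvPolynomial σ ℂ}
    {m : ι → σ →₀ ℕ} (hf : ∀ i ∈ s, Lead om (f i) (m i)) :
    Lead om (∏ i ∈ s, f i) (∑ i ∈ s, m i) := by
  classical
  induction s using Finset.induction_on with
  | empty =>
    rw [Finset.prod_empty, Finset.sum_empty]
    exact Lead.one om
  | insert i s hi ih =>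
    rw [Finset.prod_insert hi, Finset.sum_insert hi]
    exact (hf i (Finset.mem_insert_self i s)).mul
      (ih fun j hj => hf j (Finset.mem_insert_of_mem hj))

/-- PROOF.  Strong induction on `weight om m`: `f = coeff m f • monomial m 1 + ∑_(m' ≠ m) coeff m' f • monomial m' 1`, and the terms of the sum are in `V` by induction. -/
theorem span_of_lead (s : Set (σ →₀ ℕ)) (om : σ → ℕ) (V : Submodule ℂ (MvPolynomial σ ℂ))
    (h : ∀ m ∈ s, ∃ f ∈ V, Lead om f m ∧ ∀ m' ∈ f.support, m' ∈ s) :
    ∀ m ∈ s, MvPolynomial.monomial m (1 : ℂ) ∈ V := by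
  classical
  have key : ∀ N : ℕ, ∀ m ∈ s, Finsupp.weight om m = N → MvPolynomial.monomial m (1 : ℂ) ∈ V := by
    intro N
    induction N using Nat.strong_induction_on with
    | _ N ih =>
      intro m hm hN
      obtain ⟨f, hfV, hL, hsup⟩ := h m hm
      have hmem : m ∈ f.support := mem_support_iff.2 hL.1
      have h1 : f = MvPolynomial.monomial m (coeff m f) +
          ∑ m' ∈ f.support.erase m, MvPolynomial.monomial m' (coeff m' f) := by
        rw [Finset.add_sum_erase f.support (fun m' => MvPolynomial.monomial m' (coeff m' f)) hmem]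
        exact as_sum f
      have h2 : ∑ m' ∈ f.support.erase m, MvPolynomial.monomial m' (coeff m' f) ∈ V := by
        refine V.sum_mem fun m' hm' => ?_
        obtain ⟨hne, hms⟩ := Finset.mem_erase.1 hm'
        have h3 : MvPolynomial.monomial m' (coeff m' f) =
            coeff m' f • MvPolynomial.monomial m' (1 : ℂ) := by
          rw [smul_monomial, smul_eq_mul, mul_one]
        rw [h3]
        refine V.smul_mem _ ?_
        rcases hL.2 m' hms with h4 | h4
        · exact absurd h4 hne
        · exact ih (Finsupp.weight om m') (hN ▸ h4) m' (hsup m' hms) rfl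
      have h5 : MvPolynomial.monomial m (coeff m f) ∈ V := by
        have h6 : MvPolynomial.monomial m (coeff m f) =
            f - ∑ m' ∈ f.support.erase m, MvPolynomial.monomial m' (coeff m' f) :=
          eq_sub_of_add_eq h1.symm
        rw [h6]
        exact V.sub_mem hfV h2
      have h7 : MvPolynomial.monomial m (1 : ℂ) = (coeff m f)⁻¹ • MvPolynomial.monomial m (coeff m f) := by
        rw [smul_monomial, smul_eq_mul, inv_mul_cancel₀ hL.1]
      rw [h7]
      exact V.smul_mem _ h5
  exact fun m hm => key _ m hm rfl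

end Leading

theorem exists_coeffsL {R V ι L : Type} [CommRing R] [Nontrivial R] [AddCommGroup V] [Module R V]
    [Fintype ι] [Fintype L] (f : ι → V) (T : L → V →ₗ[R] V) (N : L → Submodule R V)
    (κ : L → Type) [∀ l, Fintype (κ l)] (ν : ∀ l, κ l → V) (t : L → R)
    (h : ∀ l i, t l • T l (f i) ∈ N l ⊔ Submodule.span R (Set.range (ν l)))
    (hc : ∑ l, Fintype.card (κ l) < Fintype.card ι) :
    ∃ p : ι → R, p ≠ 0 ∧ ∀ l, t l • T l (∑ i, p i • f i) ∈ N l := by
  classical
  have h1 : ∀ l i, ∃ c : κ l → R, t l • T l (f i) - ∑ x, c x • ν l x ∈ N l := by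
    intro l i
    obtain ⟨y, hy, z, hz, hyz⟩ := Submodule.mem_sup.1 (h l i)
    obtain ⟨c, hc⟩ := (Submodule.mem_span_range_iff_exists_fun R).1 hz
    refine ⟨c, ?_⟩
    rw [hc, ← hyz]
    simpa using hy
  choose c hcm using h1
  let Φ : (ι → R) →ₗ[R] ((Σ l, κ l) → R) :=
    { toFun := fun p s => ∑ i, p i * c s.1 i s.2
      map_add' := by
        intro p p'
        funext s
        simp only [Pi.add_apply, add_mul, Finset.sum_add_distrib]
      map_smul' := by
        intro a p
        funext s
        simp only [Pi.smul_apply, smul_eq_mul, RingHom.id_apply, mul_assoc, Finset.mul_sum] }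
  have hni : ¬ Function.Injective Φ := by
    intro hinj
    have h2 := card_le_of_injective R Φ hinj
    rw [Fintype.card_sigma] at h2
    omega
  have hex : ∃ p : ι → R, p ≠ 0 ∧ Φ p = 0 := by
    by_contra hno
    push Not at hno
    apply hni
    rw [← LinearMap.ker_eq_bot, LinearMap.ker_eq_bot']
    intro p hp
    by_contra hp0
    exact hno p hp0 hp
  obtain ⟨p, hp0, hp⟩ := hex
  refine ⟨p, hp0, fun l => ?_⟩
  have h3 : t l • T l (∑ i, p i • f i) =
      ∑ i, p i • (t l • T l (f i) - ∑ x, c l i x • ν l x) := by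
    have h4 : ∑ i, p i • ∑ x, c l i x • ν l x = 0 := by
      have h5 : ∑ i, p i • ∑ x, c l i x • ν l x = ∑ x, (∑ i, p i * c l i x) • ν l x := by
        simp only [Finset.smul_sum, Finset.sum_smul, smul_smul]
        exact Finset.sum_comm
      rw [h5]
      apply Finset.sum_eq_zero
      intro x _
      have h6 : Φ p ⟨l, x⟩ = 0 := by rw [hp]; rfl
      have h7 : (∑ i, p i * c l i x) = 0 := h6
      rw [h7, zero_smul]
    simp only [smul_sub, Finset.sum_sub_distrib]
    rw [h4, sub_zero, map_sum, Finset.smul_sum]
    apply Finset.sum_congr rfl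
    intro i _
    rw [map_smul, smul_comm]
  rw [h3]
  exact Submodule.sum_mem _ (fun i _ => Submodule.smul_mem _ _ (hcm l i))

end Pool.Agent.H89Y
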