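import Pool.Agent.Lib.H89Y.A0

set_option autoImplicit false

/-!
H89Y, CHUNK A1 (M).  One condition: reduction modulo two elements of an ideal at a special point of the parameters.
-/

open MvPolynomial

namespace Pool.Agent.H89Y

open Pool.Agent.H89T Pool.Agent.H78G Pool.Agent.H53Y

/-- CHUNK A1.  PROOF.  `Mon n r d M` is finite (`Mon_finite`, Lib/H89T/N2.lean), `S` = its `toFinset`.  Let `N` be the submodule of the statement.  By `exists_smul_mem`
(Lib/H89T/A3.lean, `a := p`, `s := S`) it is enough: for every `m ∈ S` there is `G ∈ N` with support in `S` and `map (eval p) G = monomial m 1`.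
Let `V` be the set of all `f : MvPolynomial (JV n r) ℂ` for which there is `G ∈ N` with support in `S` and `map (eval p) G = f`; it is a `ℂ`-submodule (sum:
`support_add`; scalar `c`: `(C c : MvPolynomial τ ℂ) • G`, `support_smul`, `map_smul` / `smul_eq_C_mul`, `map_C`).  Apply `span_of_lead` (A0.lean) with `s = Mon n r d M`, `om`, `V`:
given `m ∈ Mon n r d M`,
* if `u j ≤ m` for `j = 0` or `j = 1`: `m = m'' + u j`, `m'' = m - u j` (`tsub_add_cancel_of_le`); `f = monomial m'' 1 * map (eval p) (w j)` with `G = monomial m'' 1 * w j`, which is in the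
ideal (`Ideal.mul_mem_left`, `Submodule.mem_sup_left`); a monomial of the support of `G` (or of `f`) is `m'' + m'` with `m' ∈ (w j).support`
(`support_mul`, `Finset.mem_add`, `support_monomial_subset`; for `f`: `support_map_subset`), and `xd (m'' + m') ≤ xd (m'' + u j) = xd m ≤ d` (`xd_add`, `jd_add`, `hs`), the same for
`jd`; the leading monomial: `(Lead.monomial om m'' one_ne_zero).mul (hu j)`.
* otherwise `f = monomial m 1`, `G = monomial m 1` (`Submodule.mem_sup_right`, `Submodule.subset_span`), `Lead.monomial`. -/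
theorem onecond {n r : ℕ} {τ : Type} (p : τ → ℂ)
    (J : Ideal (MvPolynomial (JV n r) (MvPolynomial τ ℂ))) {d M : ℕ} (om : JV n r → ℕ)
    (w : Fin 2 → MvPolynomial (JV n r) (MvPolynomial τ ℂ)) (hw : ∀ j, w j ∈ J)
    (u : Fin 2 → (JV n r →₀ ℕ)) (hu : ∀ j, Lead om (MvPolynomial.map (eval p) (w j)) (u j))
    (hs : ∀ j, ∀ m' ∈ (w j).support, xd m' ≤ xd (u j) ∧ jd m' ≤ jd (u j)) :
    ∃ t : MvPolynomial τ ℂ, t ≠ 0 ∧ ∀ m ∈ Mon n r d M, t • monomial m (1 : MvPolynomial τ ℂ) ∈
      J.restrictScalars (MvPolynomial τ ℂ) ⊔ Submodule.span (MvPolynomial τ ℂ)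
        ((fun m => monomial m (1 : MvPolynomial τ ℂ)) '' {m | m ∈ Mon n r d M ∧ ¬ u 0 ≤ m ∧ ¬ u 1 ≤ m}) := by
  classical
  obtain ⟨N, hN⟩ : ∃ N : Submodule (MvPolynomial τ ℂ) (MvPolynomial (JV n r) (MvPolynomial τ ℂ)),
    N = J.restrictScalars (MvPolynomial τ ℂ) ⊔ Submodule.span (MvPolynomial τ ℂ)
        ((fun m => monomial m (1 : MvPolynomial τ ℂ)) ''
          {m | m ∈ Mon n r d M ∧ ¬ u 0 ≤ m ∧ ¬ u 1 ≤ m}) := ⟨_, rfl⟩
  rw [← hN]
  let V : Submodule ℂ (MvPolynomial (JV n r) ℂ) :=
    { carrier := {f | ∃ G ∈ N, (∀ m' ∈ G.support, m' ∈ Mon n r d M) ∧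
        MvPolynomial.map (eval p) G = f}
      add_mem' := by
        rintro f g ⟨G, hG, hG1, hG2⟩ ⟨H, hH, hH1, hH2⟩
        refine ⟨G + H, N.add_mem hG hH, fun m' hm' => ?_, by rw [map_add, hG2, hH2]⟩
        rcases Finset.mem_union.mp (support_add hm') with h | h
        · exact hG1 m' h
        · exact hH1 m' h
      zero_mem' := ⟨0, N.zero_mem, fun m' hm' => by simp at hm', map_zero _⟩
      smul_mem' := by
        rintro c f ⟨G, hG, hG1, hG2⟩
        refine ⟨(C c : MvPolynomial τ ℂ) • G, N.smul_mem _ hG,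
          fun m' hm' => hG1 m' (support_smul hm'), ?_⟩
        rw [smul_eq_C_mul, map_mul, map_C, eval_C, hG2, ← smul_eq_C_mul] }
  have hV : ∀ m ∈ Mon n r d M, MvPolynomial.monomial m (1 : ℂ) ∈ V := by
    refine span_of_lead (Mon n r d M) om V ?_
    intro m hm
    by_cases hj : ∃ j, u j ≤ m
    · obtain ⟨j, hj⟩ := hj
      have hsum : m - u j + u j = m := tsub_add_cancel_of_le hj
      have hx : xd (m - u j) + xd (u j) = xd m := by rw [← xd_add, hsum]
      have hjd : jd (m - u j) + jd (u j) = jd m := by rw [← jd_add, hsum]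
      have hsup : ∀ m' ∈ (monomial (m - u j) (1 : MvPolynomial τ ℂ) * w j).support,
          m' ∈ Mon n r d M := by
        intro m' hm'
        obtain ⟨a, ha, b, hb, rfl⟩ := Finset.mem_add.mp (support_mul _ _ hm')
        have ha' := Finset.mem_singleton.mp (support_monomial_subset ha)
        subst ha'
        obtain ⟨h1, h2⟩ := hs j b hb
        have h3 : xd m ≤ d := hm.1
        have h4 : jd m ≤ M := hm.2
        refine ⟨?_, ?_⟩
        · rw [xd_add]
          omega
        · rw [jd_add]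
          omega
      have hmap : MvPolynomial.map (eval p) (monomial (m - u j) (1 : MvPolynomial τ ℂ) * w j) =
          monomial (m - u j) (1 : ℂ) * MvPolynomial.map (eval p) (w j) := by
        rw [map_mul, map_monomial, map_one]
      refine ⟨monomial (m - u j) (1 : ℂ) * MvPolynomial.map (eval p) (w j),
        ⟨monomial (m - u j) (1 : MvPolynomial τ ℂ) * w j, ?_, hsup, hmap⟩, ?_, ?_⟩
      · rw [hN]
        exact Submodule.mem_sup_left (Ideal.mul_mem_left J _ (hw j))
      · have h1 := (Lead.monomial om (m - u j) (one_ne_zero (α := ℂ))).mul (hu j)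
        rw [hsum] at h1
        exact h1
      · intro m' hm'
        rw [← hmap] at hm'
        exact hsup m' (support_map_subset _ _ hm')
    · have h0 : ¬ u 0 ≤ m := fun h => hj ⟨0, h⟩
      have h1 : ¬ u 1 ≤ m := fun h => hj ⟨1, h⟩
      refine ⟨monomial m 1, ⟨monomial m 1, ?_, ?_, ?_⟩, Lead.monomial om m one_ne_zero, ?_⟩
      · rw [hN]
        exact Submodule.mem_sup_right (Submodule.subset_span ⟨m, ⟨hm, h0, h1⟩, rfl⟩)
      · intro m' hm'
        rw [Finset.mem_singleton.mp (support_monomial_subset hm')]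
        exact hm
      · rw [map_monomial, map_one]
      · intro m' hm'
        rw [Finset.mem_singleton.mp (support_monomial_subset hm')]
        exact hm
  have key : ∀ m ∈ (Mon_finite n r d M).toFinset, ∃ G ∈ N,
      (∀ m' ∈ G.support, m' ∈ (Mon_finite n r d M).toFinset) ∧
        MvPolynomial.map (eval p) G = monomial m 1 := by
    intro m hm
    obtain ⟨G, hG, hG1, hG2⟩ := hV m ((Mon_finite n r d M).mem_toFinset.mp hm)
    exact ⟨G, hG, fun m' hm' => (Mon_finite n r d M).mem_toFinset.mpr (hG1 m' hm'), hG2⟩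
  obtain ⟨t, ht, h⟩ := exists_smul_mem p (Mon_finite n r d M).toFinset N key
  exact ⟨t, ht, fun m hm => h m ((Mon_finite n r d M).mem_toFinset.mpr hm)⟩

end Pool.Agent.H89Y
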