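import Pool.Agent.Lib.H89Y.A0

set_option autoImplicit false

/-!
H89Y, CHUNK A2 (M).  The special coefficients `F_i = ∑_{b ∈ c i} x_b ^ (dg i)`; the degrees of `u_0`, `u_1`.
-/

open MvPolynomial

namespace Pool.Agent.H89Y

open Pool.Agent.H89T Pool.Agent.H78G Pool.Agent.H53Y

/-- The index of the coefficient of `x_b ^ d`. -/
def pw {n d : ℕ} (b : Fin n) : Idx n d :=
  ⟨fun b' => if b' = b then Fin.last d else 0, by
    classical
    rw [Finset.sum_eq_single b]
    · simp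
    · intro b' _ hb
      simp [hb]
    · intro h; exact absurd (Finset.mem_univ _) h⟩

variable {β : Type} {m : β → ℕ} {ι : Type} {sb : ι → β} {dg : ι → ℕ} {n r : ℕ}

/-- The special coefficients. -/
noncomputable def spc (c : ∀ i : ι, Finset (Fin (m (sb i)))) (x : Cf m sb dg) : ℂ :=
  open Classical in
  ∑ b ∈ c x.1, if x.2 = pw b then 1 else 0

/-- CHUNK A2a.  PROOF.  `ev`, `Finset.sum_comm` (`Finset.sum_mul`, `map_sum`): for fixed `b` only the index `α = pw b` contributes, and `∏ b', x b' ^ (pw b).1 b' = x b ^ d`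
(`Finset.prod_eq_single b`). -/
theorem ev_spc {B : Type*} [CommRing B] (φ : ℂ →+* B) (c : ∀ i : ι, Finset (Fin (m (sb i)))) (i : ι)
    (x : Fin (m (sb i)) → B) :
    ev (fun α => φ (spc (m := m) (sb := sb) (dg := dg) c ⟨i, α⟩)) x = ∑ b ∈ c i, x b ^ dg i := by
  classical
  unfold ev spc
  simp only [map_sum, Finset.sum_mul]
  rw [Finset.sum_comm]
  refine Finset.sum_congr rfl fun b _ => ?_
  rw [Finset.sum_eq_single (pw b)]
  · rw [if_pos rfl, map_one, one_mul, Finset.prod_eq_single b]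
    · simp [pw]
    · intro b' _ hb'
      simp [pw, hb']
    · intro h
      exact absurd (Finset.mem_univ _) h
  · intro α _ hα
    rw [if_neg hα, map_zero, zero_mul]
  · intro h
    exact absurd (Finset.mem_univ _) h

/-- CHUNK A2b.  PROOF.  `uu_map` (Lib/H89T/N1.lean) for the ring homomorphism `MvPolynomial.map (eval p)`, `map_C`, `map_X`, `eval_X` (`gnG x = X x`); `bj` commutes with maps by `rfl`. -/
theorem map_us (e : Co m ≃ Fin n) (p : Cf m sb dg → ℂ) (i : ι) (l : ℕ) :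
    MvPolynomial.map (eval p) (us (r := r) e (gnG m sb dg) i l) = us e p i l := by
  have h := uu_map (MvPolynomial.map (σ := JV n r) (eval p))
    (fun α => C (gnG m sb dg ⟨i, α⟩)) (bj e (fun q => X q) (sb i)) l
  rw [c9_us, c9_us, h]
  congr 1
  · funext α
    rw [map_C]
    unfold gnG
    rw [eval_X]
  · funext q
    exact map_X _ _

theorem a2_pow {B : Type*} [CommRing B] (p : Polynomial B) (d : ℕ) :
    (p ^ d).coeff 1 = (d : B) * p.coeff 0 ^ (d - 1) * p.coeff 1 := by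
  have h := congrArg (fun P => Polynomial.coeff P 0) (Polynomial.derivative_pow p d)
  simp only [Polynomial.coeff_derivative, Polynomial.mul_coeff_zero, Polynomial.coeff_C_zero] at h
  have h2 : (p ^ (d - 1)).coeff 0 = p.coeff 0 ^ (d - 1) := by
    rw [← Polynomial.constantCoeff_apply, map_pow, Polynomial.constantCoeff_apply]
  rw [h2] at h
  simpa using h

theorem a2_evd {R : Type} [CommRing R] (e : Co m ≃ Fin n) (a : Cf m sb dg → R) (i : ι)
    (j : Fin (m (sb i))) :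
    HasMon (dg i - 1) 0 (evd j (fun α => C (a ⟨i, α⟩))
      (fun b => bj e (fun q => (X q : MvPolynomial (JV n r) R)) (sb i) (b, 0))) := by
  rw [evd]
  refine HasMon.sum fun α _ => ?_
  by_cases h0 : (α.1 j : ℕ) = 0
  · rw [h0]
    simpa using N2_hasMon_zero
  have h := (HasMon.C (n := n) (r := r) (a ⟨i, α⟩)).mul
    ((HasMon.C (n := n) (r := r) (((α.1 j : ℕ) : ℕ) : R)).mul
    (N2_prod (R := R) (s := Finset.univ)
      (d := fun b : Fin (m (sb i)) => ((α.1 b : ℕ) - (if b = j then 1 else 0)) * 1)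
      (M := fun b : Fin (m (sb i)) => ((α.1 b : ℕ) - (if b = j then 1 else 0)) * 0)
      (P := fun b : Fin (m (sb i)) =>
        (X (e ⟨sb i, b⟩, 0) : MvPolynomial (JV n r) R) ^
          ((α.1 b : ℕ) - (if b = j then 1 else 0)))
        fun b _ => (HasMon.X0 _).pow _))
  rw [map_natCast] at h
  refine h.mono ?_ ?_
  · have h1 : ∑ b, (α.1 b : ℕ) ≤ dg i := α.2
    have h2 : ∑ b, ((α.1 b : ℕ) - (if b = j then 1 else 0)) * 1 + 1 = ∑ b, (α.1 b : ℕ) := by
      rw [← Finset.add_sum_erase _ _ (Finset.mem_univ j), ← Finset.add_sum_erase _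
        (fun b => (α.1 b : ℕ)) (Finset.mem_univ j)]
      have h3 : ∑ b ∈ Finset.univ.erase j, ((α.1 b : ℕ) - (if b = j then 1 else 0)) * 1 =
          ∑ b ∈ Finset.univ.erase j, (α.1 b : ℕ) := by
        refine Finset.sum_congr rfl fun b hb => ?_
        rw [if_neg (Finset.ne_of_mem_erase hb), Nat.sub_zero, mul_one]
      rw [h3]
      simp only [if_true]
      omega
    omega
  · simp

/-- CHUNK A2c.  PROOF.  `uu_zero` (Lib/H89T/N1.lean), `ev_spc` for `φ = C`. -/
theorem us_spc_zero (e : Co m ≃ Fin n) (c : ∀ i : ι, Finset (Fin (m (sb i)))) (i : ι) :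
    us (r := r) e (spc (m := m) (sb := sb) (dg := dg) c) i 0 = ∑ b ∈ c i, X (e ⟨sb i, b⟩, 0) ^ dg i := by
  rw [c9_us, uu_zero]
  exact ev_spc C c i _

/-- CHUNK A2d.  PROOF.  `Fx = ev (Polynomial.C ∘ ..) (arc ..) = ∑ b ∈ c i, (arc ..  b) ^ dg i` (`ev_spc` for `φ = Polynomial.C.comp C`, unfold `us uu Fx`); the coefficient `1` of a
power: `(p ^ d).coeff 1 = d * p.coeff 0 ^ (d - 1) * p.coeff 1` (via `Polynomial.derivative`: `coeff_derivative` at `0`, `Polynomial.derivative_pow`,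
`Polynomial.mul_coeff_zero`, `Polynomial.coeff_zero_eq_eval_zero`, `eval_pow`; or induction on `d` with `Polynomial.mul_coeff_one`); `coeff_arc`. -/
theorem us_spc_one (e : Co m ≃ Fin n) (c : ∀ i : ι, Finset (Fin (m (sb i)))) (i : ι) (one : Fin (r + 1))
    (h1 : (one : ℕ) = 1) :
    us (r := r) e (spc (m := m) (sb := sb) (dg := dg) c) i 1 =
      ∑ b ∈ c i, C (dg i : ℂ) * (X (e ⟨sb i, b⟩, 0) ^ (dg i - 1) * X (e ⟨sb i, b⟩, one)) := by
  rw [c9_us]
  unfold uu Fx
  have h := ev_spc (m := m) (sb := sb) (dg := dg)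
    ((Polynomial.C : MvPolynomial (JV n r) ℂ →+* Polynomial (MvPolynomial (JV n r) ℂ)).comp C)
    c i (arc (bj e (fun q => (X q : MvPolynomial (JV n r) ℂ)) (sb i)))
  have h2 : ev (fun α => Polynomial.C (C (spc (m := m) (sb := sb) (dg := dg) c ⟨i, α⟩)))
      (arc (bj e (fun q => (X q : MvPolynomial (JV n r) ℂ)) (sb i))) =
      ∑ b ∈ c i, arc (bj e (fun q => (X q : MvPolynomial (JV n r) ℂ)) (sb i)) b ^ dg i := h
  rw [h2, Polynomial.finsetSum_coeff]
  refine Finset.sum_congr rfl fun b _ => ?_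
  have h3 : (arc (bj e (fun q => (X q : MvPolynomial (JV n r) ℂ)) (sb i)) b).coeff 1 =
      X (e ⟨sb i, b⟩, one) := by
    rw [coeff_arc, dif_pos (by have := one.2; omega)]
    have h4 : (⟨1, by have := one.2; omega⟩ : Fin (r + 1)) = one := Fin.ext h1.symm
    rw [h4]
    rfl
  rw [a2_pow, N1_arc_zero, h3, map_natCast, mul_assoc]
  rfl

/-- CHUNK A2e.  PROOF.  `uu_zero`; then as `HasMon.u0` (Lib/H89T/N2.lean): `HasMon.sum`, `HasMon.C`, `N2_prod`, `HasMon.pow`, `HasMon.X0`, and `∑ b, α.1 b ≤ dg i`. -/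
theorem hasMon_us_zero {R : Type} [CommRing R] (e : Co m ≃ Fin n) (a : Cf m sb dg → R) (i : ι) :
    HasMon (dg i) 0 (us (r := r) e a i 0) := by
  rw [c9_us, uu_zero, ev]
  refine HasMon.sum fun α _ => ?_
  have h := (HasMon.C (n := n) (r := r) (a ⟨i, α⟩)).mul
    (N2_prod (R := R) (s := Finset.univ) (d := fun b : Fin (m (sb i)) => (α.1 b : ℕ) * 1)
      (M := fun b : Fin (m (sb i)) => (α.1 b : ℕ) * 0) (P := fun b : Fin (m (sb i)) =>
        (X (e ⟨sb i, b⟩, 0) : MvPolynomial (JV n r) R) ^ (α.1 b : ℕ))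
      fun b _ => (HasMon.X0 _).pow _)
  refine h.mono ?_ ?_
  · simpa using α.2
  · simp

/-- CHUNK A2f.  PROOF.  `uu_one` (Lib/H89T/N1.lean): `us e a i 1 = ∑ b, evd b .. * X (e ⟨sb i, b⟩, one)`; `evd b ..` has `HasMon (dg i - 1) 0` (as `HasMon.gR`, Lib/H89T/N2.lean),
`HasMon.X1`. -/
theorem hasMon_us_one {R : Type} [CommRing R] (e : Co m ≃ Fin n) (a : Cf m sb dg → R) (i : ι) (one : Fin (r + 1))
    (h1 : (one : ℕ) = 1) : HasMon (dg i - 1) 1 (us (r := r) e a i 1) := by
  rw [c9_us, uu_one _ _ one h1]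
  refine HasMon.sum fun b _ => ?_
  have hone : one ≠ 0 := by
    intro h
    rw [h] at h1
    exact absurd h1 (by simp)
  have h := (a2_evd (r := r) e a i b).mul (HasMon.X1 (R := R) (e ⟨sb i, b⟩, one) hone)
  exact h.mono (by omega) (by omega)

end Pool.Agent.H89Y
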