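import Pool.Agent.Lib.H89Y.C3

set_option autoImplicit false

/-!
H89Y, CHUNK C6a (M).  Linear factors; weights and renaming.
-/

open MvPolynomial

namespace Pool.Agent.H89Y

open Pool.Agent.H89T Pool.Agent.H78G Pool.Agent.H53Y

variable {n d r : ℕ} {B : Type} [CommRing B]

/-- The index of the constant coefficient (`0`) and of the coefficient of the variable `b` (`b.succ`) of a linear polynomial. -/
def ix (hd : d = 1) (c : Fin (n + 1)) : Idx n d :=
  ⟨fun b => if c = b.succ then ⟨1, by omega⟩ else 0, by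
    classical
    rcases Fin.eq_zero_or_eq_succ c with h | ⟨b₀, h⟩
    · subst h
      simp [(Fin.succ_ne_zero _).symm]
    · subst h
      rw [Finset.sum_eq_single b₀]
      · simp [hd]
      · intro b _ hb
        have h1 : ¬ (b₀.succ = b.succ) := fun h => hb (Fin.succ_injective _ h).symm
        simp [h1]
      · intro h; exact absurd (Finset.mem_univ _) h⟩

/-- CHUNK C6a1.  PROOF.  `subst hd`.  Injective: `ix c = ix c'`: compare the values at the `b`s (`Subtype.ext_iff`, `congrFun`): `c = b.succ ↔ c' = b.succ` for all `b`;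
`Fin.cases`.  Surjective: `α` with `∑ α ≤ 1`: if all `α b = 0` take `0`; otherwise some `α b₀ = 1` (`Fin 2`) and the other values are `0`
(`Finset.single_le_sum`, `Finset.add_sum_erase`), take `b₀.succ`. -/
theorem ix_bij (hd : d = 1) : Function.Bijective (ix hd : Fin (n + 1) → Idx n d) := by
  subst hd
  constructor
  · intro c c' h
    have h1 : ∀ b : Fin n, c = b.succ ↔ c' = b.succ := by
      intro b
      have h2 := congrFun (congrArg Subtype.val h) b
      change (if c = b.succ then (⟨1, by omega⟩ : Fin 2) else 0) = (if c' = b.succ then (⟨1, by omega⟩ : Fin 2) else 0) at h2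
      by_cases hc : c = b.succ
      · by_cases hc' : c' = b.succ
        · exact ⟨fun _ => hc', fun _ => hc⟩
        · rw [if_pos hc, if_neg hc'] at h2
          have h3 : (1 : ℕ) = 0 := congrArg Fin.val h2
          omega
      · by_cases hc' : c' = b.succ
        · rw [if_neg hc, if_pos hc'] at h2
          have h3 : (0 : ℕ) = 1 := congrArg Fin.val h2
          omega
        · exact ⟨fun h => absurd h hc, fun h => absurd h hc'⟩
    rcases Fin.eq_zero_or_eq_succ c with h2 | ⟨b₀, h2⟩
    · rcases Fin.eq_zero_or_eq_succ c' with h3 | ⟨b₁, h3⟩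
      · rw [h2, h3]
      · rw [(h1 b₁).2 h3, h3]
    · rw [(h1 b₀).1 h2, h2]
  · intro α
    by_cases hex : ∃ b₀ : Fin n, (α.1 b₀ : ℕ) ≠ 0
    · obtain ⟨b₀, hb₀⟩ := hex
      refine ⟨b₀.succ, Subtype.ext (funext fun b => Fin.ext ?_)⟩
      change ((if b₀.succ = b.succ then (⟨1, by omega⟩ : Fin 2) else 0 : Fin 2) : ℕ) = (α.1 b : ℕ)
      by_cases hb : b = b₀
      · subst hb
        rw [if_pos rfl]
        have h1 := (α.1 b).2
        change 1 = (α.1 b : ℕ)
        omega
      · rw [if_neg (fun h => hb (Fin.succ_injective _ h).symm)]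
        change 0 = (α.1 b : ℕ)
        have h1 : (α.1 b : ℕ) + (α.1 b₀ : ℕ) ≤ ∑ x, (α.1 x : ℕ) := by
          rw [← Finset.sum_pair hb (f := fun x => (α.1 x : ℕ))]
          exact Finset.sum_le_sum_of_subset (Finset.subset_univ _)
        have h2 := α.2
        omega
    · push Not at hex
      refine ⟨0, Subtype.ext (funext fun b => Fin.ext ?_)⟩
      change ((if (0 : Fin (n + 1)) = b.succ then (⟨1, by omega⟩ : Fin 2) else 0 : Fin 2) : ℕ) = (α.1 b : ℕ)
      rw [if_neg (Fin.succ_ne_zero b).symm, hex b]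
      rfl

theorem c6a_val (hd : d = 1) (c : Fin (n + 1)) (b : Fin n) : ((ix hd c).1 b : ℕ) = if c = b.succ then 1 else 0 := by
  change ((if c = b.succ then (⟨1, by omega⟩ : Fin (d + 1)) else 0 : Fin (d + 1)) : ℕ) = _
  split_ifs <;> rfl

theorem c6a_prod (hd : d = 1) (c : Fin (n + 1)) (x : Fin n → B) :
    ∏ b, x b ^ ((ix hd c).1 b : ℕ) = (Fin.cons 1 x : Fin (n + 1) → B) c := by
  classical
  simp only [c6a_val]
  rcases Fin.eq_zero_or_eq_succ c with h | ⟨b₀, h⟩
  · subst h
    rw [Fin.cons_zero]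
    refine Finset.prod_eq_one fun b _ => ?_
    rw [if_neg (Fin.succ_ne_zero b).symm, pow_zero]
  · subst h
    rw [Fin.cons_succ, Finset.prod_eq_single b₀]
    · rw [if_pos rfl, pow_one]
    · intro b _ hb
      rw [if_neg (fun h => hb (Fin.succ_injective _ h).symm), pow_zero]
    · intro h
      exact absurd (Finset.mem_univ _) h

/-- CHUNK C6a2.  PROOF.  `(ix_bij hd).sum_comp` (`Function.Bijective.sum_comp`), `Fin.sum_univ_succ`, `linA`; `∏ b, x b ^ (if c = b.succ then 1 else 0)` is `1` for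
`c = 0` and `x b₀` for `c = b₀.succ` (`Finset.prod_eq_single`). -/
theorem ev_ix (hd : d = 1) (a : Idx n d → B) (x : Fin n → B) : ev a x = linA (fun c => a (ix hd c)) x := by
  unfold ev linA
  rw [← (ix_bij hd).sum_comp]
  simp only [c6a_prod]
  rw [Fin.sum_univ_succ, Fin.cons_zero, mul_one]
  simp only [Fin.cons_succ]

/-- CHUNK C6a3.  PROOF.  The same: only the term `c = b.succ` of `evd` is not `0`, and its product is `1` (all exponents are `0`). -/
theorem evd_ix (hd : d = 1) (b : Fin n) (a : Idx n d → B) (x : Fin n → B) : evd b a x = a (ix hd b.succ) := by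
  classical
  unfold evd
  rw [← (ix_bij hd).sum_comp, Finset.sum_eq_single b.succ]
  · have h1 : ∏ b', x b' ^ (((ix hd b.succ).1 b' : ℕ) - (if b' = b then 1 else 0)) = 1 := by
      refine Finset.prod_eq_one fun b' _ => ?_
      rw [c6a_val]
      by_cases h : b' = b
      · rw [if_pos h, if_pos (by rw [h]), Nat.sub_self, pow_zero]
      · rw [if_neg h, if_neg (fun h' => h (Fin.succ_injective _ h').symm), Nat.sub_zero, pow_zero]
    rw [h1, mul_one, c6a_val, if_pos rfl, Nat.cast_one, mul_one]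
  · intro c _ hc
    rw [c6a_val, if_neg hc, Nat.cast_zero, zero_mul, mul_zero]
  · intro h
    exact absurd (Finset.mem_univ _) h

/-- CHUNK C6a4.  PROOF.  `ev_ix` for `Polynomial B` (unfold `Fx`). -/
theorem Fx_ix (hd : d = 1) (a : Idx n d → B) (ξ : JV n r → B) :
    Fx a ξ = linA (fun c => Polynomial.C (a (ix hd c))) (arc ξ) := by
  unfold Fx
  exact ev_ix hd _ _

/-- CHUNK C6a5.  PROOF.  `evd_ix` for `Polynomial B` (unfold `Fdx`). -/
theorem Fdx_ix (hd : d = 1) (b : Fin n) (a : Idx n d → B) (ξ : JV n r → B) :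
    Fdx b a ξ = Polynomial.C (a (ix hd b.succ)) := by
  unfold Fdx
  exact evd_ix hd b _ _

theorem c6a_w {n' : ℕ} {τ τ' : Type} (φ : JV n' r → JV n r) (hφ : ∀ q, (φ q).2 = q.2) (f : τ' → τ)
    (v : JV n' r ⊕ τ' →₀ ℕ) : w0w (Finsupp.mapDomain (Sum.map φ f) v) = w0w v := by
  induction v using Finsupp.induction_linear with
  | zero => rw [Finsupp.mapDomain_zero, w0w_zero, w0w_zero]
  | add g h hg hh => rw [Finsupp.mapDomain_add, w0w_add, w0w_add, hg, hh]
  | single x c =>
    rw [Finsupp.mapDomain_single]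
    rcases x with q | α
    · change w0w (Finsupp.single (Sum.inl (φ q) : JV n r ⊕ τ) c) = _
      rw [w0w_single_inl, w0w_single_inl, hφ]
    · change w0w (Finsupp.single (Sum.inr (f α) : JV n r ⊕ τ) c) = _
      rw [w0w_single_inr, w0w_single_inr]

/-- CHUNK C6a6.  Weights and renaming of the variables.  PROOF.  As `io_wt` (C3): `P.as_sum`, `map_sum`, `WtS.sum` (Lib/H78G/W0.lean), `rename_monomial`,
`w0_monomial_le`, and `w0w (Finsupp.mapDomain (Sum.map φ f) m) = w0w m`, by induction on `m` (`Finsupp.induction_linear`, `Finsupp.mapDomain_add`,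
`Finsupp.mapDomain_single`, `w0w_add`, `w0w_zero`, `w0w_single_inl`, `w0w_single_inr`; `hφ`). -/
theorem WtS_rename {n' : ℕ} {τ τ' : Type} (φ : JV n' r → JV n r) (hφ : ∀ q, (φ q).2 = q.2) (f : τ' → τ) {w : ℕ}
    {P : MvPolynomial (JV n' r ⊕ τ') ℂ} (hP : WtS w P) : WtS w (rename (Sum.map φ f) P) := by
  have h1 : rename (Sum.map φ f) P = ∑ v ∈ P.support, monomial (Finsupp.mapDomain (Sum.map φ f) v) (P.coeff v) := by
    conv_lhs => rw [P.as_sum]
    rw [map_sum]
    exact Finset.sum_congr rfl fun v _ => rename_monomial _ _ _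
  rw [h1]
  refine WtS.sum fun v hv => w0_monomial_le _ _ ?_
  rw [c6a_w φ hφ f v]
  exact hP v hv

end Pool.Agent.H89Y
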