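import Pool.Agent.Lib.H89Y.A1
import Pool.Agent.Lib.H89Y.A2
import Pool.Agent.Lib.H89Y.C6a

set_option autoImplicit false

/-!
H89Y, module A: the condition of a pair of factors (definition).
-/

open MvPolynomial

namespace Pool.Agent.H89Y

open Pool.Agent.H89T Pool.Agent.H78G Pool.Agent.H53Y

variable {β : Type} {m : β → ℕ} {ι : Type} {sb : ι → β} {dg : ι → ℕ} {n r : ℕ}

/-- The multiples by `t` of the monomials in `Mon n r d M` are combinations of the monomials in `κ` modulo the ideal of the pair `(i, i')`. -/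
def CondG [DecidableEq ι] (e : Co m ≃ Fin n) (sb : ι → β) (dg : ι → ℕ) (i i' : ι) (d M : ℕ)
    (κ : Set (JV n r →₀ ℕ)) : Prop :=
  ∃ t : MvPolynomial (Cf m sb dg) ℂ, t ≠ 0 ∧ ∀ m' ∈ Mon n r d M, t • monomial m' (1 : MvPolynomial (Cf m sb dg) ℂ) ∈
    (IG e (gnG m sb dg) i i').restrictScalars (MvPolynomial (Cf m sb dg) ℂ) ⊔
      Submodule.span (MvPolynomial (Cf m sb dg) ℂ)
        ((fun ν => monomial ν (1 : MvPolynomial (Cf m sb dg) ℂ)) '' κ)

end Pool.Agent.H89Y
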