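import Pool.Agent.Lib.H89Y.A3

set_option autoImplicit false

/-!
H89Y, CHUNK A3a (M).  Tangency, degree at least `2`.
-/

open MvPolynomial

namespace Pool.Agent.H89Y

open Pool.Agent.H89T Pool.Agent.H78G Pool.Agent.H53Y

variable {β : Type} {m : β → ℕ} {ι : Type} {sb : ι → β} {dg : ι → ℕ} {n r : ℕ}

theorem a3a_lead {σ : Type} {om : σ → ℕ} {A B : σ →₀ ℕ} {a b : ℂ} (ha : a ≠ 0)
    (h : Finsupp.weight om B < Finsupp.weight om A) :
    Lead om (monomial A a + monomial B b) A := by
  classical
  have hBA : B ≠ A := by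
    intro h'
    rw [h'] at h
    exact lt_irrefl _ h
  constructor
  · rw [coeff_add, coeff_monomial, coeff_monomial, if_pos rfl, if_neg hBA, add_zero]
    exact ha
  · intro m' hm'
    rcases Finset.mem_union.1 (support_add hm') with h1 | h1
    · exact Or.inl (Finset.mem_singleton.1 (support_monomial_subset h1))
    · right
      rw [Finset.mem_singleton.1 (support_monomial_subset h1)]
      exact h

theorem a3a_weight {σ : Type} (om : σ → ℕ) (q : σ) (k : ℕ) :
    Finsupp.weight om (Finsupp.single q k) = k * om q := by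
  rw [Finsupp.weight_single, smul_eq_mul]

/-- CHUNK A3a.  PROOF.  Let `q1 = e ⟨sb i, b1⟩`, `q2 = e ⟨sb i, b2⟩` (different: `e.injective`, `sigma` eta), `k = dg i`.  `onecond` (A1) with the special point `p = spc c`,
`c = Function.update (fun _ => ∅) i {b1, b2}` (`Function.update_self`), `J = IG e gnG i i = span {us .. 0, us .. 1}` (unfold `IG`, `if_pos rfl`), `w 0 = us e gnG i 0`, `w 1 = us e gnG i 1`
(`![.., ..]`, `Fin.forall_fin_two`), `u 0 = single (q1, 0) k`, `u 1 = single (q2, 0) (k - 1) + single (q2, one) 1`, `om q = if q = (q1, 0) then 1 else if q = (q2, one) then k + 1 else 0`.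
By `map_us`, `us_spc_zero`, `us_spc_one` (A2; `Finset.sum_pair`): `map w 0 = X (q1,0) ^ k + X (q2,0) ^ k` and `map w 1 = C k * (X (q1,0) ^ (k-1) * X (q1,one)) + C k * (X (q2,0) ^ (k-1) * X (q2,one))`.
`Lead`: write everything as monomials (`X_pow_eq_monomial`, `monomial_mul`, `C_mul_monomial`): the weights (`Finsupp.weight_apply`, `map_add`, `Finsupp.weight_single`) are `k`, `0` and
`k - 1`, `k + 1`; coefficients: `coeff_add`, `coeff_monomial`; the two exponents are different.  Degrees: `hasMon_us_zero`, `hasMon_us_one` (A2) and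
`xd (u 0) = k`, `xd (u 1) = k - 1`, `jd (u 1) = 1` (`xd_add`, `jd_add`, `A2_xd_single`, `A2_jd_single`, `A2_xd_single1`, `A2_jd_single1` in Lib/H89T/A2.lean).
The set of normal monomials of `onecond` is contained in `Normal` (`Submodule.span_mono`, `sup_le_sup_left`, `Set.image_mono`): `¬ u 0 ≤ m` gives `m (q1, 0) < k`
(`Finsupp.single_le_iff`), `¬ u 1 ≤ m` gives `m (q2, 0) < k - 1` or `m (q2, one) = 0` (otherwise `u 1 ≤ m`, check pointwise as in Lib/H78G/A2.lean). -/
theorem condT [DecidableEq ι] (e : Co m ≃ Fin n) (i : ι) (hd : 2 ≤ dg i) (b1 b2 : Fin (m (sb i))) (hb : b1 ≠ b2)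
    (one : Fin (r + 1)) (h1 : (one : ℕ) = 1) (d M : ℕ) :
    CondG (r := r) e sb dg i i d M (Normal n r (dg i) d M (e ⟨sb i, b1⟩) (e ⟨sb i, b2⟩) one) := by
  classical
  have hone : one ≠ 0 := by
    intro h
    rw [h] at h1
    exact absurd h1 (by simp)
  have hq : e ⟨sb i, b1⟩ ≠ e ⟨sb i, b2⟩ := by
    intro h
    have h2 := e.injective h
    simp only [Sigma.mk.injEq, heq_eq_eq, true_and] at h2
    exact hb h2
  set q1 := e ⟨sb i, b1⟩ with hq1
  set q2 := e ⟨sb i, b2⟩ with hq2
  have hk := hd
  have hne : ∀ b b' : Fin n, ((b, 0) : JV n r) ≠ (b', one) := by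
    intro b b' h
    exact hone (congrArg Prod.snd h).symm
  have hne1 : ((q2, 0) : JV n r) ≠ (q1, 0) := fun h => hq (congrArg Prod.fst h).symm
  have hne2 : ((q1, one) : JV n r) ≠ (q2, one) := fun h => hq (congrArg Prod.fst h)
  let c : ∀ j : ι, Finset (Fin (m (sb j))) := Function.update (fun _ => ∅) i {b1, b2}
  have hc : c i = {b1, b2} := Function.update_self _ _ _
  let p : Cf m sb dg → ℂ := spc (m := m) (sb := sb) (dg := dg) c
  let om : JV n r → ℕ := fun q => if q = (q1, 0) then 1 else if q = (q2, one) then dg i + 1 else 0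
  have om1 : om (q1, 0) = 1 := if_pos rfl
  have om2 : om (q2, one) = dg i + 1 := by
    show (if (q2, one) = (q1, 0) then 1 else if (q2, one) = (q2, one) then dg i + 1 else 0) = _
    rw [if_neg (hne q1 q2).symm, if_pos rfl]
  have om3 : om (q2, 0) = 0 := by
    show (if (q2, 0) = (q1, 0) then 1 else if (q2, 0) = (q2, one) then dg i + 1 else 0) = _
    rw [if_neg hne1, if_neg (hne q2 q2)]
  have om4 : om (q1, one) = 0 := by
    show (if (q1, one) = (q1, 0) then 1 else if (q1, one) = (q2, one) then dg i + 1 else 0) = _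
    rw [if_neg (hne q1 q1).symm, if_neg hne2]
  have hu0 : MvPolynomial.map (eval p) (us (r := r) e (gnG m sb dg) i 0) =
      monomial (Finsupp.single (q1, 0) (dg i)) 1 + monomial (Finsupp.single (q2, 0) (dg i)) 1 := by
    rw [map_us, us_spc_zero, hc, Finset.sum_pair hb, X_pow_eq_monomial, X_pow_eq_monomial]
  have hm6 : ∀ b : Fin n, (C (dg i : ℂ) * (X (b, 0) ^ (dg i - 1) * X (b, one)) :
      MvPolynomial (JV n r) ℂ) =
      monomial (Finsupp.single ((b, 0) : JV n r) (dg i - 1) + Finsupp.single (b, one) 1)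
        (dg i : ℂ) := by
    intro b
    rw [X_pow_eq_monomial, X, monomial_mul, C_mul_monomial, one_mul, mul_one]
  have hu1 : MvPolynomial.map (eval p) (us (r := r) e (gnG m sb dg) i 1) =
      monomial (Finsupp.single (q2, 0) (dg i - 1) + Finsupp.single (q2, one) 1) (dg i : ℂ) +
      monomial (Finsupp.single (q1, 0) (dg i - 1) + Finsupp.single (q1, one) 1) (dg i : ℂ) := by
    rw [map_us, us_spc_one e c i one h1, hc, Finset.sum_pair hb, hm6, hm6, add_comm]
  have hkC : (dg i : ℂ) ≠ 0 := by
    exact_mod_cast (by omega : dg i ≠ 0)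
  have hIG : IG (r := r) e (gnG m sb dg) i i =
      Ideal.span {us e (gnG m sb dg) i 0, us e (gnG m sb dg) i 1} := by
    unfold IG
    rw [if_pos rfl]
  have key := onecond (n := n) (r := r) p (IG e (gnG m sb dg) i i) (d := d) (M := M) om
    ![us e (gnG m sb dg) i 0, us e (gnG m sb dg) i 1]
    (by
      rw [Fin.forall_fin_two, hIG]
      exact ⟨Ideal.subset_span (Set.mem_insert _ _),
        Ideal.subset_span (Set.mem_insert_of_mem _ (Set.mem_singleton _))⟩)
    ![Finsupp.single (q1, 0) (dg i), Finsupp.single (q2, 0) (dg i - 1) + Finsupp.single (q2, one) 1]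
    (by
      rw [Fin.forall_fin_two]
      constructor
      · show Lead om (MvPolynomial.map (eval p) (us (r := r) e (gnG m sb dg) i 0))
          (Finsupp.single (q1, 0) (dg i))
        rw [hu0]
        refine a3a_lead one_ne_zero ?_
        rw [a3a_weight, a3a_weight, om1, om3]
        omega
      · show Lead om (MvPolynomial.map (eval p) (us (r := r) e (gnG m sb dg) i 1))
          (Finsupp.single (q2, 0) (dg i - 1) + Finsupp.single (q2, one) 1)
        rw [hu1]
        refine a3a_lead hkC ?_
        rw [map_add, map_add, a3a_weight, a3a_weight, a3a_weight, a3a_weight, om1, om2, om3, om4]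
        omega)
    (by
      rw [Fin.forall_fin_two]
      constructor
      · show ∀ m' ∈ (us (r := r) e (gnG m sb dg) i 0).support,
          xd m' ≤ xd (Finsupp.single ((q1, 0) : JV n r) (dg i)) ∧
            jd m' ≤ jd (Finsupp.single ((q1, 0) : JV n r) (dg i))
        intro m' hm'
        rw [A2_xd_single, A2_jd_single]
        exact hasMon_us_zero e (gnG m sb dg) i m' hm'
      · show ∀ m' ∈ (us (r := r) e (gnG m sb dg) i 1).support,
          xd m' ≤ xd (Finsupp.single ((q2, 0) : JV n r) (dg i - 1) + Finsupp.single (q2, one) 1) ∧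
            jd m' ≤ jd (Finsupp.single ((q2, 0) : JV n r) (dg i - 1) + Finsupp.single (q2, one) 1)
        intro m' hm'
        rw [xd_add, jd_add, A2_xd_single, A2_jd_single, A2_xd_single1 _ hone, A2_jd_single1 _ hone,
          add_zero, zero_add]
        exact hasMon_us_one e (gnG m sb dg) i one h1 m' hm')
  obtain ⟨t, ht, H⟩ := key
  refine ⟨t, ht, fun m' hm' => ?_⟩
  have hle : (IG e (gnG m sb dg) i i).restrictScalars (MvPolynomial (Cf m sb dg) ℂ) ⊔
      Submodule.span (MvPolynomial (Cf m sb dg) ℂ)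
        ((fun ν => monomial ν (1 : MvPolynomial (Cf m sb dg) ℂ)) ''
          {ν | ν ∈ Mon n r d M ∧
            ¬ (![Finsupp.single (q1, 0) (dg i),
              Finsupp.single (q2, 0) (dg i - 1) + Finsupp.single (q2, one) 1] :
                Fin 2 → (JV n r →₀ ℕ)) 0 ≤ ν ∧
            ¬ (![Finsupp.single (q1, 0) (dg i),
              Finsupp.single (q2, 0) (dg i - 1) + Finsupp.single (q2, one) 1] :
                Fin 2 → (JV n r →₀ ℕ)) 1 ≤ ν}) ≤
      (IG e (gnG m sb dg) i i).restrictScalars (MvPolynomial (Cf m sb dg) ℂ) ⊔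
      Submodule.span (MvPolynomial (Cf m sb dg) ℂ)
        ((fun ν => monomial ν (1 : MvPolynomial (Cf m sb dg) ℂ)) ''
          (Normal n r (dg i) d M q1 q2 one)) := by
    refine sup_le_sup_left (Submodule.span_mono (Set.image_mono ?_)) _
    rintro ν ⟨hν, h3, h4⟩
    have h3' : ¬ Finsupp.single ((q1, 0) : JV n r) (dg i) ≤ ν := h3
    have h4' : ¬ (Finsupp.single ((q2, 0) : JV n r) (dg i - 1) + Finsupp.single (q2, one) 1) ≤ ν := h4
    refine ⟨hν.1, hν.2, ?_, ?_⟩
    · rw [Finsupp.single_le_iff] at h3'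
      omega
    · by_contra hcon
      push Not at hcon
      obtain ⟨hn1, hn2⟩ := hcon
      apply h4'
      intro q
      rw [Finsupp.add_apply]
      by_cases hp : q = (q2, 0)
      · rw [hp, Finsupp.single_eq_same, Finsupp.single_eq_of_ne (hne q2 q2)]
        omega
      · rw [Finsupp.single_eq_of_ne hp, zero_add]
        by_cases hp' : q = (q2, one)
        · rw [hp', Finsupp.single_eq_same]
          omega
        · rw [Finsupp.single_eq_of_ne hp']
          exact Nat.zero_le _
  exact hle (H m' hm')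

end Pool.Agent.H89Y
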