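import Pool.Agent.Lib.H53Y.D0
import Pool.Agent.Lib.H89T.C11
import Pool.Agent.Lib.H78G.C7

set_option autoImplicit false

/-!
H89Y (modules A and C of H53Y: existence of the operators and slanted fields), module C: definitions.

The universal ring `UG m sb dg n r`: jets `xG` of order `r` in the `n` coordinates and the coefficients `aG` of all factors.
-/

open MvPolynomial

namespace Pool.Agent.H89Y

open Pool.Agent.H89T Pool.Agent.H78G Pool.Agent.H53Y

section Defs

variable {β : Type} (m : β → ℕ) {ι : Type} (sb : ι → β) (dg : ι → ℕ) (n r : ℕ)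

/-- The universal ring. -/
abbrev UG : Type := MvPolynomial (JV n r ⊕ Cf m sb dg) ℂ

end Defs

section Defs2

variable {β : Type} {m : β → ℕ} {ι : Type} {sb : ι → β} {dg : ι → ℕ} {n r : ℕ}

/-- The coefficients as elements of the universal ring. -/
noncomputable def aG (x : Cf m sb dg) : UG m sb dg n r := X (Sum.inr x)

/-- The jet variables as elements of the universal ring. -/
noncomputable def xG (q : JV n r) : UG m sb dg n r := X (Sum.inl q)

/-- The factor `i` on the arc of the generic jet. -/
noncomputable def vG (e : Co m ≃ Fin n) (i : ι) : Polynomial (UG m sb dg n r) := fa e aG xG i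

/-- The derivation `N` of the universal ring. -/
noncomputable def NG : Derivation ℂ (UG m sb dg n r) (UG m sb dg n r) :=
  mkDerivation ℂ (Sum.elim (fun q : JV n r =>
    if h : (q.2 : ℕ) < r then ((q.2 : ℕ) + 1) • xG (q.1, ⟨(q.2 : ℕ) + 1, by omega⟩) else 0)
    fun _ => 0)

/-- `s`-admissible fields: `V (v_i (t)) ∈ (v_i (t), t ^ s)` for all factors. -/
def AdG (e : Co m ≃ Fin n) (s : ℕ) (V : Derivation ℂ (UG m sb dg n r) (UG m sb dg n r)) : Prop :=
  ∀ i, cf V (vG e i) ∈ Ideal.span {vG e i, (Polynomial.X : Polynomial (UG m sb dg n r)) ^ s}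

/-- The ideal of the pair `(i, i')` in the universal ring. -/
noncomputable def IU [DecidableEq ι] (e : Co m ≃ Fin n) (i i' : ι) : Ideal (UG m sb dg n r) :=
  if i = i' then Ideal.span {(vG e i).coeff 0, (vG e i).coeff 1}
  else Ideal.span {(vG e i).coeff 0, (vG e i').coeff 0}

/-- Property (A) in the universal ring. -/
def PropU [DecidableEq ι] (e : Co m ≃ Fin n) (q : ℕ) (P : UG m sb dg n r) : Prop :=
  ∀ l < q, ∀ i i' : ι, (NG)^[l] P ∈ IU e i i'

/-- The admissible fields of weight at most `c`. -/
def FldG (e : Co m ≃ Fin n) (c : ℕ) : Set (Derivation ℂ (UG m sb dg n r) (UG m sb dg n r)) :=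
  {V | AdG e (r + 1) V ∧ ∀ x, WtS c (V (X x))}

/-- The span of the values of the fields at the point `(a, ξ)`. -/
noncomputable def SpG (e : Co m ≃ Fin n) (c : ℕ) (a : Cf m sb dg → ℂ) (ξ : JV n r → ℂ) :
    Submodule ℂ (JV n r ⊕ Cf m sb dg → ℂ) :=
  Submodule.span ℂ ((fun V : Derivation ℂ (UG m sb dg n r) (UG m sb dg n r) =>
    fun x : JV n r ⊕ Cf m sb dg => eval (Sum.elim ξ a) (V (X x))) '' FldG e c)

end Defs2

/-! ### Polynomials in the jets with coefficients in `ℂ[τ]` -/

section Flat

variable {n r : ℕ} {τ : Type}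

/-- The polynomial `P` as an element of the ring of all variables. -/
noncomputable def flatT (P : MvPolynomial (JV n r) (MvPolynomial τ ℂ)) : MvPolynomial (JV n r ⊕ τ) ℂ :=
  (sumAlgEquiv ℂ (JV n r) τ).symm P

/-- Specialization of the parameters. -/
noncomputable def specT (a : τ → ℂ) : MvPolynomial (JV n r ⊕ τ) ℂ →ₐ[ℂ] MvPolynomial (JV n r) ℂ :=
  aeval (Sum.elim (fun q => X q) fun s => C (a s))

/-- The variables of the jets of order at least `1`. -/
def isJT (s : JV n r ⊕ τ) : Prop := ∃ q : JV n r, s = Sum.inl q ∧ q.2 ≠ 0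

/-- The coefficient (a polynomial in the coordinates and in the parameters) of the jet part of the monomial `e` in a
polynomial `P`. -/
noncomputable def jcT [Fintype τ] (P : MvPolynomial (JV n r ⊕ τ) ℂ) (e : JV n r ⊕ τ →₀ ℕ) : MvPolynomial (Fin n ⊕ τ) ℂ :=
  open Classical in
  ∑ m ∈ P.support, if (∀ q : JV n r, q.2 ≠ 0 → m (Sum.inl q) = e (Sum.inl q)) then
    monomial (Finsupp.equivFunOnFinite.symm
      (Sum.elim (fun b => m (Sum.inl (b, 0))) fun x => m (Sum.inr x))) (P.coeff m) else 0

end Flat

end Pool.Agent.H89Y
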