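import Pool.Agent.Lib.H89Y.C0

set_option autoImplicit false

/-!
H89Y, CHUNK C1 (M).  Derivations and the arcs of the factors.
-/

open MvPolynomial

namespace Pool.Agent.H89Y

open Pool.Agent.H89T Pool.Agent.H78G Pool.Agent.H53Y

variable {β : Type} {m : β → ℕ} {ι : Type} {sb : ι → β} {dg : ι → ℕ} {n r : ℕ}

/-- CHUNK C1a.  PROOF.  `unfold NG xG; rw [mkDerivation_X, Sum.elim_inl]` (as `NA_xA` in Lib/H89T/C1.lean). -/
theorem NG_xG (q : JV n r) : NG (xG q : UG m sb dg n r) =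
    if h : (q.2 : ℕ) < r then ((q.2 : ℕ) + 1) • xG (q.1, ⟨(q.2 : ℕ) + 1, by omega⟩) else 0 := by
  unfold NG xG
  rw [mkDerivation_X, Sum.elim_inl]

/-- CHUNK C1b.  PROOF.  As C1a. -/
theorem NG_aG (x : Cf m sb dg) : NG (aG x : UG m sb dg n r) = 0 := by
  unfold NG aG
  rw [mkDerivation_X, Sum.elim_inr]

/-- A derivation on the coefficients of an arc. -/
theorem c1_arc {n' : ℕ} (V : Derivation ℂ (UG m sb dg n r) (UG m sb dg n r)) (ξ : JV n' r → UG m sb dg n r) (b : Fin n') :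
    cf V (arc ξ b) = arc (fun q => V (ξ q)) b := by
  ext1 l
  rw [coeff_cf, coeff_arc, coeff_arc]
  split_ifs with h
  · rfl
  · rw [map_zero]

/-- `cf N - d/dt` as a derivation. -/
noncomputable def c1_D : Derivation ℂ (Polynomial (UG m sb dg n r)) (Polynomial (UG m sb dg n r)) :=
  cfD (NG : Derivation ℂ (UG m sb dg n r) (UG m sb dg n r)) - (Polynomial.derivative' (R := UG m sb dg n r)).restrictScalars ℂ

theorem c1_D_apply (p : Polynomial (UG m sb dg n r)) : c1_D p = cf NG p - Polynomial.derivative p := rfl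

/-- CHUNK C1c.  PROOF.  `chain_rule` (Lib/H89T/C1.lean) with `Δ = cfD V`, `a = fun α => aG ⟨i, α⟩`, `ξ = bj e xG (sb i)` (`vG e i` and
`Fx a ξ` are the same by `rfl`, unfold `vG fa`), `cfD_apply`, `cf_C`; the first sum is `Fx (fun α => V (aG ⟨i, α⟩)) ξ` (unfold `Fx ev`), and
`cf V (arc ξ b) = arc (fun q => V (ξ q)) b`: `ext l`, `coeff_cf`, `coeff_arc` (Lib/H89T/N1.lean), `split_ifs`. -/
theorem cf_vG (e : Co m ≃ Fin n) (V : Derivation ℂ (UG m sb dg n r) (UG m sb dg n r)) (i : ι) :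
    cf V (vG e i) = Fx (fun α => V (aG ⟨i, α⟩)) (bj e xG (sb i)) +
      ∑ b, Fdx b (fun α => (aG ⟨i, α⟩ : UG m sb dg n r)) (bj e xG (sb i)) *
        arc (fun q => V (bj e xG (sb i) q)) b := by
  have h2 := chain_rule (cfD V) (fun α => (aG ⟨i, α⟩ : UG m sb dg n r)) (bj e xG (sb i))
  simp only [cfD_apply, c1_arc, cf_C] at h2
  exact h2

/-- CHUNK C1d.  `N` is the derivative with respect to `t` on the arcs.  PROOF.  As `DD_Fx_aA` (Lib/H89T/C2.lean): the derivation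
`Δ = cfD NG - derivative` of `A[t]` (`(Polynomial.derivative' (R := UG ..)).restrictScalars ℂ`) kills `arc ξ b`, `ξ = bj e xG (sb i)`
(`coeff_cf`, `coeff_arc`, `Polynomial.coeff_derivative`, `NG_xG`, exactly as `cf_NA_arc` in Lib/H89T/C1.lean; `bj e xG s q = xG (e ⟨s, q.1⟩, q.2)` by
`rfl`) and `C (aG x)` (`NG_aG`); `chain_rule` gives `Δ (vG e i) = 0`. -/
theorem cf_NG_vG (e : Co m ≃ Fin n) (i : ι) :
    cf NG (vG e i : Polynomial (UG m sb dg n r)) = Polynomial.derivative (vG e i) := by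
  have h1 : ∀ b, c1_D (arc (bj e (xG : JV n r → UG m sb dg n r) (sb i)) b) = 0 := by
    intro b
    rw [c1_D_apply, sub_eq_zero]
    ext1 l
    rw [coeff_cf, Polynomial.coeff_derivative, coeff_arc, coeff_arc]
    by_cases h1 : l < r
    · rw [dif_pos (by omega : l < r + 1), dif_pos (by omega : l + 1 < r + 1)]
      show NG (xG (e ⟨sb i, b⟩, ⟨l, _⟩)) = _
      rw [NG_xG, dif_pos h1, nsmul_eq_mul, mul_comm]
      push_cast
      rfl
    · rw [dif_neg (by omega : ¬ l + 1 < r + 1), zero_mul]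
      split_ifs with h2
      · show NG (xG (e ⟨sb i, b⟩, ⟨l, _⟩)) = _
        rw [NG_xG, dif_neg h1]
      · rw [map_zero]
  have h3 := chain_rule (c1_D (m := m) (sb := sb) (dg := dg) (n := n) (r := r)) (fun α => (aG ⟨i, α⟩ : UG m sb dg n r)) (bj e xG (sb i))
  have h4 : ∀ x : Cf m sb dg, c1_D (Polynomial.C (aG x : UG m sb dg n r)) = 0 := by
    intro x
    rw [c1_D_apply, cf_C, NG_aG, Polynomial.derivative_C, map_zero, sub_zero]
  simp only [h1, h4, mul_zero, zero_mul, Finset.sum_const_zero, add_zero] at h3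
  rw [c1_D_apply, sub_eq_zero] at h3
  exact h3

/-- CHUNK C1e.  PROOF.  `coeff_arc`, `Fx`: `(Fx a ξ).coeff 0 = ev a (fun b => ξ (b, 0))` is `uu_zero` (Lib/H89T/N1.lean); then apply
`eval (Sum.elim ξ a)`: `ev_map`. -/
theorem eval_vG_zero (e : Co m ≃ Fin n) (i : ι) (a : Cf m sb dg → ℂ) (ξ : JV n r → ℂ) :
    eval (Sum.elim ξ a) ((vG e i).coeff 0 : UG m sb dg n r) = fv e a (fun b => ξ (b, 0)) i := by
  have h1 : ((vG e i).coeff 0 : UG m sb dg n r) =
      ev (fun α => aG ⟨i, α⟩) (fun b => bj e xG (sb i) (b, 0)) := uu_zero _ _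
  rw [h1, ev_map]
  unfold fv aG bj xG
  simp only [eval_X, Sum.elim_inl, Sum.elim_inr]
  rfl

end Pool.Agent.H89Y
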