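import Pool.Agent.Lib.H89Y.C1

set_option autoImplicit false

/-!
H89Y, CHUNK C2 (M).  Admissible fields preserve property (A).
-/

open MvPolynomial

namespace Pool.Agent.H89Y

open Pool.Agent.H89T Pool.Agent.H78G Pool.Agent.H53Y

variable {β : Type} {m : β → ℕ} {ι : Type} {sb : ι → β} {dg : ι → ℕ} {n r : ℕ}

/-- CHUNK C2a.  PROOF.  As `Adm.mono` (Lib/H89T/C2.lean): `X ^ s = X ^ s' * X ^ (s - s')`. -/
theorem AdG.mono {e : Co m ≃ Fin n} {s s' : ℕ} (hs : s' ≤ s)
    {V : Derivation ℂ (UG m sb dg n r) (UG m sb dg n r)} (h : AdG e s V) : AdG e s' V := by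
  intro i
  obtain ⟨a, b, hab⟩ := Ideal.mem_span_pair.1 (h i)
  rw [Ideal.mem_span_pair]
  refine ⟨a, b * Polynomial.X ^ (s - s'), ?_⟩
  rw [← hab, mul_assoc, ← pow_add, Nat.sub_add_cancel hs]

theorem c2_comm (V W : Derivation ℂ (UG m sb dg n r) (UG m sb dg n r)) (p : Polynomial (UG m sb dg n r)) :
    cf ⁅V, W⁆ p = cf V (cf W p) - cf W (cf V p) := by
  ext1 l
  rw [Polynomial.coeff_sub, coeff_cf, coeff_cf, coeff_cf, coeff_cf, coeff_cf, Derivation.commutator_apply]

theorem c2_der (V : Derivation ℂ (UG m sb dg n r) (UG m sb dg n r)) (p : Polynomial (UG m sb dg n r)) :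
    cf V (Polynomial.derivative p) = Polynomial.derivative (cf V p) := by
  ext1 l
  rw [coeff_cf, Polynomial.coeff_derivative, Polynomial.coeff_derivative, coeff_cf]
  have e : ((l : UG m sb dg n r) + 1) = ((l + 1 : ℕ) : UG m sb dg n r) := by push_cast; rfl
  rw [e, Derivation.leibniz, Derivation.map_natCast, smul_zero, zero_add, smul_eq_mul, mul_comm]

theorem c2_D_v (e : Co m ≃ Fin n) (i : ι) : c1_D (vG e i : Polynomial (UG m sb dg n r)) = 0 := by
  rw [c1_D_apply, cf_NG_vG, sub_self]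

theorem c2_D_X (s : ℕ) : c1_D ((Polynomial.X : Polynomial (UG m sb dg n r)) ^ (s + 1)) =
    -(Polynomial.C ((s : UG m sb dg n r) + 1) * Polynomial.X ^ s) := by
  rw [c1_D_apply, cf_X_pow, Polynomial.derivative_X_pow, zero_sub]
  simp

theorem c2_pair {V : Derivation ℂ (UG m sb dg n r) (UG m sb dg n r)} {x y P : UG m sb dg n r}
    (hx : V x ∈ Ideal.span {x, y}) (hy : V y ∈ Ideal.span {x, y}) (hP : P ∈ Ideal.span {x, y}) :
    V P ∈ Ideal.span {x, y} := by
  have h0 : x ∈ Ideal.span {x, y} := Ideal.subset_span (Set.mem_insert _ _)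
  have h1 : y ∈ Ideal.span {x, y} := Ideal.subset_span (Set.mem_insert_of_mem _ rfl)
  obtain ⟨a, b, hab⟩ := Ideal.mem_span_pair.1 hP
  rw [← hab, map_add, Derivation.leibniz, Derivation.leibniz]
  simp only [smul_eq_mul]
  refine Ideal.add_mem _ (Ideal.add_mem _ ?_ ?_) (Ideal.add_mem _ ?_ ?_)
  · exact Ideal.mul_mem_left _ _ hx
  · exact Ideal.mul_mem_right _ _ h0
  · exact Ideal.mul_mem_left _ _ hy
  · exact Ideal.mul_mem_right _ _ h1

theorem c2_coeff {e : Co m ≃ Fin n} {V : Derivation ℂ (UG m sb dg n r) (UG m sb dg n r)} {s : ℕ}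
    (h : AdG e s V) (i : ι) (J : Ideal (UG m sb dg n r)) (l : ℕ) (hl : l < s) (hJ : ∀ j ≤ l, (vG e i).coeff j ∈ J) :
    V ((vG e i).coeff l) ∈ J := by
  rw [← coeff_cf]
  obtain ⟨a, b, hab⟩ := Ideal.mem_span_pair.1 (h i)
  rw [← hab, Polynomial.coeff_add, Polynomial.coeff_mul_X_pow', if_neg (by omega), add_zero, Polynomial.coeff_mul]
  refine Ideal.sum_mem _ fun x hx => ?_
  have hx' := Finset.HasAntidiagonal.mem_antidiagonal.1 hx
  exact Ideal.mul_mem_left _ _ (hJ x.2 (by omega))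

/-- CHUNK C2b.  PROOF.  Let `v = vG e i`, `cf V v = a * v + b * X ^ (s + 1)` (`Ideal.mem_span_pair`).  `⁅NG, V⁆ P = NG (V P) - V (NG P)`
(`Derivation.commutator_apply`), so coefficientwise `cf ⁅NG, V⁆ v = cf NG (cf V v) - cf V (cf NG v)` (`coeff_cf`), and `cf NG v = derivative v`
(`cf_NG_vG`), `cf V (derivative v) = derivative (cf V v)` (`coeff_cf`, `Polynomial.coeff_derivative`, `Derivation.leibniz`, `V` kills natural numbers:
`Derivation.map_natCast`).  So `cf ⁅NG, V⁆ v = Δ (cf V v)` with the derivation `Δ = cfD NG - derivative` of `A[t]` (see `DD` in Lib/H89T/C2.lean),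
`Δ v = 0`, `Δ (X ^ (s + 1)) = - (s + 1) X ^ s`: `Δ (a v + b X ^ (s + 1)) = Δ a * v + Δ b * X ^ (s + 1) - (s + 1) b X ^ s`. -/
theorem AdG.commutator {e : Co m ≃ Fin n} {s : ℕ} {V : Derivation ℂ (UG m sb dg n r) (UG m sb dg n r)}
    (h : AdG e (s + 1) V) : AdG e s ⁅(NG : Derivation ℂ (UG m sb dg n r) (UG m sb dg n r)), V⁆ := by
  intro i
  rw [c2_comm, cf_NG_vG, c2_der, ← c1_D_apply]
  obtain ⟨a, b, hab⟩ := Ideal.mem_span_pair.1 (h i)
  rw [← hab, map_add, Derivation.leibniz, Derivation.leibniz, c2_D_v, c2_D_X, Ideal.mem_span_pair]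
  refine ⟨c1_D a, -(b * Polynomial.C ((s : UG m sb dg n r) + 1)) + Polynomial.X * c1_D b, ?_⟩
  simp only [smul_eq_mul]
  ring

/-- CHUNK C2c.  PROOF.  `V ((vG e i).coeff l) = (cf V (vG e i)).coeff l` (`coeff_cf`) and `cf V (vG e i) = a * v + b * X ^ 2`: the coefficient `0` is
`a.coeff 0 * v.coeff 0`, the coefficient `1` is `a.coeff 0 * v.coeff 1 + a.coeff 1 * v.coeff 0` (`Polynomial.coeff_mul`, `Polynomial.coeff_mul_X_pow'`;
see `Adm.VV_uA_eq` and `Adm.preserves_ideal` in Lib/H89T/C2.lean).  So `V` maps the generators of `IU e i i'` (two cases of the `if`) into `IU e i i'`;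
`V (x u + y w) = x V u + u V x + y V w + w V y` (`Derivation.leibniz`). -/
theorem AdG.maps_IU [DecidableEq ι] {e : Co m ≃ Fin n} {V : Derivation ℂ (UG m sb dg n r) (UG m sb dg n r)}
    (h : AdG e 2 V) (i i' : ι) {P : UG m sb dg n r} (hP : P ∈ IU e i i') : V P ∈ IU e i i' := by
  unfold IU at hP ⊢
  by_cases hii : i = i'
  · rw [if_pos hii] at hP ⊢
    have h0 : (vG e i).coeff 0 ∈ Ideal.span {(vG e i).coeff 0, (vG e i : Polynomial (UG m sb dg n r)).coeff 1} :=
      Ideal.subset_span (Set.mem_insert _ _)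
    have h1 : (vG e i).coeff 1 ∈ Ideal.span {(vG e i).coeff 0, (vG e i : Polynomial (UG m sb dg n r)).coeff 1} :=
      Ideal.subset_span (Set.mem_insert_of_mem _ rfl)
    refine c2_pair (c2_coeff h i _ 0 (by omega) fun j hj => ?_) (c2_coeff h i _ 1 (by omega) fun j hj => ?_) hP
    · interval_cases j
      exact h0
    · interval_cases j
      · exact h0
      · exact h1
  · rw [if_neg hii] at hP ⊢
    refine c2_pair (c2_coeff h i _ 0 (by omega) fun j hj => ?_) (c2_coeff h i' _ 0 (by omega) fun j hj => ?_) hP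
    · interval_cases j
      exact Ideal.subset_span (Set.mem_insert _ _)
    · interval_cases j
      exact Ideal.subset_span (Set.mem_insert_of_mem _ rfl)

/-- CHUNK C2d.  PROOF.  As `PropAA.field` (Lib/H89T/C2.lean), induction on `q` for all `P`, `V`: `l = 0`: `AdG.maps_IU` and `AdG.mono`; for `l + 1`:
`NG^[l] (NG (V P)) = NG^[l] (V (NG P)) + NG^[l] (⁅NG, V⁆ P)` (`Derivation.commutator_apply`, `Function.iterate_succ_apply`, additivity of the iterates),
`NG P` has the property with `q` instead of `q + 1`, `⁅NG, V⁆` is `(q + 1)`-admissible (`AdG.commutator`). -/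
theorem PropU.field [DecidableEq ι] {e : Co m ≃ Fin n} {q : ℕ} {V : Derivation ℂ (UG m sb dg n r) (UG m sb dg n r)}
    (h : AdG e (q + 1) V) {P : UG m sb dg n r} (hP : PropU e q P) : PropU e q (V P) := by
  induction q generalizing P V with
  | zero => intro l hl; omega
  | succ q ih =>
    intro l hl i i'
    cases l with
    | zero => exact (h.mono (by omega)).maps_IU i i' (hP 0 (by omega) i i')
    | succ l =>
      have e1 : (NG : Derivation ℂ (UG m sb dg n r) (UG m sb dg n r)) (V P) = V (NG P) + ⁅(NG : Derivation ℂ (UG m sb dg n r) (UG m sb dg n r)), V⁆ P := by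
        rw [Derivation.commutator_apply]
        ring
      rw [Function.iterate_succ_apply, e1]
      have hit : ∀ (a b : UG m sb dg n r), (NG : Derivation ℂ (UG m sb dg n r) (UG m sb dg n r))^[l] (a + b) =
          (NG : Derivation ℂ (UG m sb dg n r) (UG m sb dg n r))^[l] a + (NG : Derivation ℂ (UG m sb dg n r) (UG m sb dg n r))^[l] b := by
        intro a b
        exact Function.Semiconj₂.iterate (f := (NG : Derivation ℂ (UG m sb dg n r) (UG m sb dg n r))) (op := (· + ·))
          (fun a b => map_add (NG : Derivation ℂ (UG m sb dg n r) (UG m sb dg n r)) a b) l a b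
      rw [hit]
      refine Ideal.add_mem _ ?_ ?_
      · refine ih (h.mono (by omega)) ?_ l (by omega) i i'
        intro l' hl' i i'
        have h2 := hP (l' + 1) (by omega) i i'
        rwa [Function.iterate_succ_apply] at h2
      · exact ih h.commutator (fun l' hl' => hP l' (by omega)) l (by omega) i i'

end Pool.Agent.H89Y
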