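import Pool.Agent.Lib.H89Y.C1

set_option autoImplicit false

/-!
H89Y, CHUNK C3 (M).  The ring of one factor inside the universal ring; fields which move only the coefficients of one factor.
-/

open MvPolynomial

namespace Pool.Agent.H89Y

open Pool.Agent.H89T Pool.Agent.H78G Pool.Agent.H53Y

variable {β : Type} {m : β → ℕ} {ι : Type} {sb : ι → β} {dg : ι → ℕ} {n r : ℕ}

/-- The map of the variables of the factor `i`. -/
def io0 (e : Co m ≃ Fin n) (i : ι) : JV (m (sb i)) r ⊕ Idx (m (sb i)) (dg i) → JV n r ⊕ Cf m sb dg :=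
  Sum.map (fun q => (e ⟨sb i, q.1⟩, q.2)) fun α => ⟨i, α⟩

/-- The embedding of the universal ring of the factor `i` (Lib/H89T). -/
noncomputable def io (e : Co m ≃ Fin n) (i : ι) : AA (m (sb i)) (dg i) r →ₐ[ℂ] UG m sb dg n r :=
  rename (io0 e i)

/-- CHUNK C3a.  PROOF.  `rename_X`. -/
theorem io_xA (e : Co m ≃ Fin n) (i : ι) (q : JV (m (sb i)) r) :
    io e i (xA q : AA (m (sb i)) (dg i) r) = bj e xG (sb i) q := by
  unfold io xA
  rw [rename_X]
  rfl

/-- CHUNK C3b.  PROOF.  `rename_X`. -/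
theorem io_aA (e : Co m ≃ Fin n) (i : ι) (α : Idx (m (sb i)) (dg i)) :
    io e i (aA α : AA (m (sb i)) (dg i) r) = aG ⟨i, α⟩ := by
  unfold io aA
  rw [rename_X]
  rfl

/-- CHUNK C3c.  PROOF.  `arc_map` (Lib/H89T/N1.lean) for `φ = (io e i).toRingHom`, `io_xA`. -/
theorem io_arc (e : Co m ≃ Fin n) (i : ι) (b : Fin (m (sb i))) :
    Polynomial.map (io (m := m) (sb := sb) (dg := dg) (r := r) e i).toRingHom (arc xA b) = arc (bj e xG (sb i)) b := by
  rw [arc_map]
  congr 1
  funext q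
  exact io_xA e i q

/-- CHUNK C3d.  PROOF.  `Fx_map` (Lib/H89T/N1.lean), `io_xA`. -/
theorem io_Fx (e : Co m ≃ Fin n) (i : ι) (g : Idx (m (sb i)) (dg i) → AA (m (sb i)) (dg i) r) :
    Polynomial.map (io (m := m) (sb := sb) (dg := dg) (r := r) e i).toRingHom (Fx g xA) =
      Fx (fun α => io e i (g α)) (bj e xG (sb i)) := by
  rw [Fx_map]
  congr 1
  funext q
  exact io_xA e i q

/-- CHUNK C3e.  PROOF.  `Fdx` is `evd b` of `C ∘ a` and `arc`: `evd_map` (Lib/H89T/N1.lean) for `Polynomial.mapRingHom (io e i)`, `io_arc`, `io_aA`. -/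
theorem io_Fdx (e : Co m ≃ Fin n) (i : ι) (b : Fin (m (sb i))) :
    Polynomial.map (io (m := m) (sb := sb) (dg := dg) (r := r) e i).toRingHom (Fdx b aA xA) =
      Fdx b (fun α => (aG ⟨i, α⟩ : UG m sb dg n r)) (bj e xG (sb i)) := by
  rw [Fdx_map]
  congr 1
  · funext α
    exact io_aA e i α
  · funext q
    exact io_xA e i q

theorem c3_w (e : Co m ≃ Fin n) (i : ι) (v : JV (m (sb i)) r ⊕ Idx (m (sb i)) (dg i) →₀ ℕ) :
    w0w (Finsupp.mapDomain (io0 (dg := dg) e i) v) = w0w v := by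
  induction v using Finsupp.induction_linear with
  | zero => rw [Finsupp.mapDomain_zero, w0w_zero, w0w_zero]
  | add f g hf hg => rw [Finsupp.mapDomain_add, w0w_add, w0w_add, hf, hg]
  | single x c =>
    rw [Finsupp.mapDomain_single]
    rcases x with q | α
    · change w0w (Finsupp.single (Sum.inl ((e ⟨sb i, q.1⟩, q.2) : JV n r) : JV n r ⊕ Cf m sb dg) c) = _
      rw [w0w_single_inl, w0w_single_inl]
    · change w0w (Finsupp.single (Sum.inr (⟨i, α⟩ : Cf m sb dg) : JV n r ⊕ Cf m sb dg) c) = _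
      rw [w0w_single_inr, w0w_single_inr]

/-- CHUNK C3f.  Weights.  PROOF.  `P.as_sum`, `map_sum`, `WtS.sum` (Lib/H78G/W0.lean), `rename_monomial`, `w0_monomial_le`, and
`w0w (Finsupp.mapDomain (io0 e i) m) ≤ w0w m`: the weight is additive (`w0w_add`, `w0w_zero`), induction on `m` (`Finsupp.induction_linear`) or
`Finsupp.mapDomain` as a sum of `Finsupp.single`s; `w0w (single (io0 e i s) c) =` weight of `single s c` (`w0w_single_inl`, `w0w_single_inr`: equality holds).
`WtA d P` and the property for `w0w` are the same statement by `rfl`. -/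
theorem io_wt (e : Co m ≃ Fin n) (i : ι) {d : ℕ} {P : AA (m (sb i)) (dg i) r} (hP : WtA d P) : WtS d (io e i P) := by
  have h1 : io e i P = ∑ v ∈ P.support, monomial (Finsupp.mapDomain (io0 e i) v) (P.coeff v) := by
    conv_lhs => rw [P.as_sum]
    unfold io
    rw [map_sum]
    exact Finset.sum_congr rfl fun v _ => rename_monomial _ _ _
  rw [h1]
  refine WtS.sum fun v hv => w0_monomial_le _ _ ?_
  rw [c3_w]
  exact hP v hv

/-- CHUNK C3g.  PROOF.  `eval (Sum.elim ξ a) (rename f P) = eval (Sum.elim ξ a ∘ f) P` (`eval_rename`) and `Sum.elim ξ a ∘ io0 e i =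
Sum.elim (bj e ξ (sb i)) (fun α => a ⟨i, α⟩)` (`funext`, cases); `evA` is `aeval`, `MvPolynomial.aeval_eq_eval` / `coe_aeval_eq_eval`. -/
theorem eval_io (e : Co m ≃ Fin n) (i : ι) (a : Cf m sb dg → ℂ) (ξ : JV n r → ℂ) (P : AA (m (sb i)) (dg i) r) :
    eval (Sum.elim ξ a) (io e i P) = evA (fun α => a ⟨i, α⟩) (bj e ξ (sb i)) P := by
  unfold io evA
  rw [eval_rename]
  have h1 : (Sum.elim ξ a ∘ io0 e i : JV (m (sb i)) r ⊕ Idx (m (sb i)) (dg i) → ℂ) =
      Sum.elim (bj e ξ (sb i)) fun α => a ⟨i, α⟩ := by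
    funext x
    cases x <;> rfl
  rw [h1, aeval_eq_eval]

/-- The family of coefficients which is `g` for the factor `i` and `0` for the other ones. -/
noncomputable def exG [DecidableEq ι] (i : ι) (g : Idx (m (sb i)) (dg i) → UG m sb dg n r) (x : Cf m sb dg) : UG m sb dg n r :=
  Function.update (fun i' (_ : Idx (m (sb i')) (dg i')) => (0 : UG m sb dg n r)) i g x.1 x.2

/-- The field which moves only the coefficients of the factor `i`. -/
noncomputable def vD [DecidableEq ι] (i : ι) (g : Idx (m (sb i)) (dg i) → UG m sb dg n r) :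
    Derivation ℂ (UG m sb dg n r) (UG m sb dg n r) :=
  mkDerivation ℂ (Sum.elim (fun _ => 0) (exG i g))

theorem c3_inl [DecidableEq ι] (i : ι) (g : Idx (m (sb i)) (dg i) → UG m sb dg n r) (q : JV n r) :
    vD i g (xG q) = 0 := by
  unfold vD xG
  rw [mkDerivation_X, Sum.elim_inl]

theorem c3_inr_self [DecidableEq ι] (i : ι) (g : Idx (m (sb i)) (dg i) → UG m sb dg n r)
    (α : Idx (m (sb i)) (dg i)) : vD i g (aG ⟨i, α⟩) = g α := by
  unfold vD aG
  rw [mkDerivation_X, Sum.elim_inr]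
  unfold exG
  rw [Function.update_self]

theorem c3_inr_ne [DecidableEq ι] (i : ι) (g : Idx (m (sb i)) (dg i) → UG m sb dg n r) {i' : ι} (h : i' ≠ i)
    (α : Idx (m (sb i')) (dg i')) : vD i g (aG ⟨i', α⟩) = 0 := by
  unfold vD aG
  rw [mkDerivation_X, Sum.elim_inr]
  unfold exG
  rw [Function.update_of_ne h]

/-- CHUNK C3h.  PROOF.  `vD i g (X (Sum.inl q)) = 0`, `vD i g (X (Sum.inr x)) = exG i g x` (`mkDerivation_X`), `exG i g ⟨i, α⟩ = g α`
(`Function.update_self`), `exG i g ⟨i', α⟩ = 0` for `i' ≠ i` (`Function.update_of_ne`).  Admissibility: by `cf_vG` the second sum is `0` (`bj e xG s q` is a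
variable `X (Sum.inl _)`, `arc 0 = 0`), and `cf (vD i g) (vG e i')` is `Fx g ..` for `i' = i` and `0` for `i' ≠ i` (`Fx` of the zero family: unfold `Fx ev`).
Weights: `0` or `g α`; `WtS.zero`. -/
theorem vD_mem [DecidableEq ι] {e : Co m ≃ Fin n} {c : ℕ} (i : ι) (g : Idx (m (sb i)) (dg i) → UG m sb dg n r)
    (hg : ∀ α, WtS c (g α))
    (hm : Fx g (bj e xG (sb i)) ∈ Ideal.span {vG e i, (Polynomial.X : Polynomial (UG m sb dg n r)) ^ (r + 1)}) :
    vD i g ∈ FldG (m := m) (sb := sb) (dg := dg) (r := r) e c := by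
  refine ⟨fun i' => ?_, fun x => ?_⟩
  · rw [cf_vG]
    have h1 : ∑ b, Fdx b (fun α => (aG ⟨i', α⟩ : UG m sb dg n r)) (bj e xG (sb i')) *
        arc (fun q => vD i g (bj e xG (sb i') q)) b = 0 := by
      refine Finset.sum_eq_zero fun b _ => ?_
      have h2 : (fun q => vD i g (bj e xG (sb i') q)) = fun _ : JV (m (sb i')) r => (0 : UG m sb dg n r) := by
        funext q
        exact c3_inl i g _
      have h3 : arc (fun _ : JV (m (sb i')) r => (0 : UG m sb dg n r)) b = 0 := by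
        unfold arc
        refine Finset.sum_eq_zero fun l _ => ?_
        rw [Polynomial.C_0, zero_mul]
      rw [h2, h3, mul_zero]
    rw [h1, add_zero]
    by_cases hi : i' = i
    · subst hi
      have h2 : (fun α => vD i' g (aG ⟨i', α⟩ : UG m sb dg n r)) = g := by
        funext α
        exact c3_inr_self i' g α
      rw [h2]
      exact hm
    · have h2 : (fun α => vD i g (aG ⟨i', α⟩ : UG m sb dg n r)) = fun _ => 0 := by
        funext α
        exact c3_inr_ne i g hi α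
      have h3 : Fx (fun _ : Idx (m (sb i')) (dg i') => (0 : UG m sb dg n r)) (bj e xG (sb i')) = 0 := by
        unfold Fx ev
        refine Finset.sum_eq_zero fun l _ => ?_
        change Polynomial.C 0 * _ = _
        rw [Polynomial.C_0, zero_mul]
      rw [h2, h3]
      exact Ideal.zero_mem _
  · rcases x with q | ⟨i', α⟩
    · rw [show (X (Sum.inl q) : UG m sb dg n r) = xG q from rfl, c3_inl]
      exact WtS.zero c
    · by_cases hi : i' = i
      · subst hi
        rw [show (X (Sum.inr ⟨i', α⟩) : UG m sb dg n r) = aG ⟨i', α⟩ from rfl, c3_inr_self]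
        exact hg α
      · rw [show (X (Sum.inr ⟨i', α⟩) : UG m sb dg n r) = aG ⟨i', α⟩ from rfl, c3_inr_ne i g hi]
        exact WtS.zero c

/-- CHUNK C3i.  PROOF.  `Submodule.subset_span` for the field `vD i g` (`vD_mem`); the values on the variables as in C3h. -/
theorem vD_val [DecidableEq ι] {e : Co m ≃ Fin n} {c : ℕ} (i : ι) (g : Idx (m (sb i)) (dg i) → UG m sb dg n r)
    (hg : ∀ α, WtS c (g α))
    (hm : Fx g (bj e xG (sb i)) ∈ Ideal.span {vG e i, (Polynomial.X : Polynomial (UG m sb dg n r)) ^ (r + 1)})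
    (a : Cf m sb dg → ℂ) (ξ : JV n r → ℂ) (T : JV n r ⊕ Cf m sb dg → ℂ) (h1 : ∀ q, T (Sum.inl q) = 0)
    (h2 : ∀ α, T (Sum.inr ⟨i, α⟩) = eval (Sum.elim ξ a) (g α)) (h3 : ∀ i' α, i' ≠ i → T (Sum.inr ⟨i', α⟩) = 0) :
    T ∈ SpG e c a ξ := by
  refine Submodule.subset_span ⟨vD i g, vD_mem i g hg hm, ?_⟩
  funext x
  rcases x with q | ⟨i', α⟩
  · change eval (Sum.elim ξ a) (vD i g (X (Sum.inl q))) = _
    rw [show (X (Sum.inl q) : UG m sb dg n r) = xG q from rfl, c3_inl, map_zero, h1]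
  · change eval (Sum.elim ξ a) (vD i g (X (Sum.inr ⟨i', α⟩))) = _
    by_cases hi : i' = i
    · subst hi
      rw [show (X (Sum.inr ⟨i', α⟩) : UG m sb dg n r) = aG ⟨i', α⟩ from rfl, c3_inr_self, h2]
    · rw [show (X (Sum.inr ⟨i', α⟩) : UG m sb dg n r) = aG ⟨i', α⟩ from rfl, c3_inr_ne i g hi, map_zero, h3 i' α hi]

end Pool.Agent.H89Y
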