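import Pool.Agent.Lib.H89Y.C3

set_option autoImplicit false

/-!
H89Y, CHUNK C4a (M).  The directions of the coefficients of a factor of large degree.
-/

open MvPolynomial

namespace Pool.Agent.H89Y

open Pool.Agent.H89T Pool.Agent.H78G Pool.Agent.H53Y

variable {β : Type} {m : β → ℕ} {ι : Type} {sb : ι → β} {dg : ι → ℕ} {n r : ℕ}

/-- CHUNK C4a.  A factor of large degree.  PROOF.  As step 1 of `span_fields` (Lib/H89T/C8.lean).  Let `a_i = fun α => a ⟨i, α⟩`, `ξ_i = bj e ξ (sb i)`,
`Q = monomial (fin α) 1 ∈ Sp (m (sb i)) (dg i) r a_i ξ_i` (`mem_Sp`, `totalDegree_monomial_fin`).  The linear map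
`T Q (Sum.inl q) = 0`, `T Q (Sum.inr x) = if h : x.1 = i then Q.coeff (fin (h ▸ x.2)) else 0` (or: `T Q = fun s => Sum.elim 0 (fun x => Function.update
(fun _ _ => 0) i (fun α => Q.coeff (fin α)) x.1 x.2) s`) maps `Sp` into `SpG e c a ξ`: `Submodule.span_induction`; for `G ∈ Verts (m (sb i)) (dg i) r (cF r)` apply
`vD_val` with `g α = io e i (toG (dg i) G α)`: `io_wt` (and `WtS.mono`), `Fx g (bj ..) = map (io e i) (Fx (toG (dg i) G) xA) = map (io e i) (aeval (arc xA) G)`
(`io_Fx`, `Fx_toG`), which is in the ideal because `aeval (arc xA) G ∈ span {Fx aA xA, X ^ (r + 1)}` (write it as `a * _ + b * _`, `Ideal.mem_span_pair`, and apply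
`Polynomial.map`; `map (io e i) (Fx aA xA) = vG e i` by `io_Fx`, `io_aA`); the value at `Sum.inr ⟨i, α⟩` is `evA a_i ξ_i (G.coeff (fin α))` (`eval_io`,
`coeff_map`).  Finally `T (monomial (fin α) 1) = Pi.single (Sum.inr ⟨i, α⟩) 1` (`fin` is injective: `Finsupp.equivFunOnFinite.symm.injective`). -/
theorem vert_large [DecidableEq ι] (e : Co m ≃ Fin n) (i : ι) (hk : r ≤ dg i) (a : Cf m sb dg → ℂ) (ξ : JV n r → ℂ)
    (b : Fin (m (sb i))) (one : Fin (r + 1)) (h1 : (one : ℕ) = 1) (hx : ξ (e ⟨sb i, b⟩, one) ≠ 0)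
    (hF : fv e a (fun b => ξ (b, 0)) i ≠ 0) {c : ℕ} (hc : cF r ≤ c) (α : Idx (m (sb i)) (dg i)) :
    (Pi.single (Sum.inr ⟨i, α⟩) 1 : JV n r ⊕ Cf m sb dg → ℂ) ∈ SpG e c a ξ := by
  have hQ : (monomial (fin α) 1 : MvPolynomial (Fin (m (sb i))) ℂ) ∈
      Sp (m (sb i)) (dg i) r (fun α => a ⟨i, α⟩) (bj e ξ (sb i)) :=
    mem_Sp hk (fun α => a ⟨i, α⟩) (bj e ξ (sb i)) b one h1 hx hF _ (totalDegree_monomial_fin α)
  let T : MvPolynomial (Fin (m (sb i))) ℂ →ₗ[ℂ] (JV n r ⊕ Cf m sb dg → ℂ) :=
    { toFun := fun Q => Sum.elim (fun _ => 0) fun x =>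
        Function.update (fun i' (_ : Idx (m (sb i')) (dg i')) => (0 : ℂ)) i (fun α => Q.coeff (fin α)) x.1 x.2
      map_add' := by
        intro Q Q'
        funext x
        rcases x with q | ⟨i', β⟩
        · exact (add_zero (0 : ℂ)).symm
        · by_cases hi : i' = i
          · subst hi
            simp only [Sum.elim_inr, Pi.add_apply, Function.update_self, coeff_add]
          · simp only [Sum.elim_inr, Pi.add_apply, Function.update_of_ne hi, add_zero]
      map_smul' := by
        intro z Q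
        funext x
        rcases x with q | ⟨i', β⟩
        · exact (mul_zero z).symm
        · by_cases hi : i' = i
          · subst hi
            simp only [Sum.elim_inr, Pi.smul_apply, Function.update_self, coeff_smul, RingHom.id_apply]
          · simp only [Sum.elim_inr, Pi.smul_apply, Function.update_of_ne hi, smul_zero, RingHom.id_apply] }
  have hT0 : ∀ Q q, T Q (Sum.inl q) = 0 := fun _ _ => rfl
  have hTi : ∀ Q α, T Q (Sum.inr ⟨i, α⟩) = Q.coeff (fin α) := by
    intro Q α
    change Function.update (fun i' (_ : Idx (m (sb i')) (dg i')) => (0 : ℂ)) i (fun α => Q.coeff (fin α)) i α = _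
    rw [Function.update_self]
  have hTne : ∀ Q i' α, i' ≠ i → T Q (Sum.inr ⟨i', α⟩) = 0 := by
    intro Q i' α hi
    change Function.update (fun i' (_ : Idx (m (sb i')) (dg i')) => (0 : ℂ)) i (fun α => Q.coeff (fin α)) i' α = _
    rw [Function.update_of_ne hi]
  have hle : Sp (m (sb i)) (dg i) r (fun α => a ⟨i, α⟩) (bj e ξ (sb i)) ≤ (SpG e c a ξ).comap T := by
    unfold Sp
    rw [Submodule.span_le]
    rintro _ ⟨G, ⟨hG1, hG2, hG3⟩, rfl⟩
    refine vD_val (e := e) (c := c) i (fun α => io e i (toG (dg i) G α)) (fun α => ?_) ?_ a ξ _ (hT0 _) (fun α => ?_)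
      (fun i' α hi => hTne _ _ _ hi)
    · exact (io_wt e i (hG2 (fin α))).mono hc
    · have h2 := io_Fx (m := m) (sb := sb) (dg := dg) (r := r) e i (toG (dg i) G)
      rw [← h2, Fx_toG G hG1 xA]
      rw [Ideal.mem_span_pair] at hG3
      obtain ⟨u, v, huv⟩ := hG3
      rw [← huv, Polynomial.map_add, Polynomial.map_mul, Polynomial.map_mul, Polynomial.map_pow, Polynomial.map_X]
      have h3 : Polynomial.map (io (m := m) (sb := sb) (dg := dg) (r := r) e i).toRingHom (Fx aA xA) = vG e i := by
        rw [io_Fx]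
        have h4 : (fun α => io e i (aA α : AA (m (sb i)) (dg i) r)) = fun α => (aG ⟨i, α⟩ : UG m sb dg n r) := by
          funext α
          exact io_aA e i α
        rw [h4]
        rfl
      rw [h3, Ideal.mem_span_pair]
      exact ⟨_, _, rfl⟩
    · rw [hTi, coeff_map, eval_io]
      rfl
  have hmem := hle hQ
  rw [Submodule.mem_comap] at hmem
  have hfin : T (monomial (fin α) 1) = (Pi.single (Sum.inr ⟨i, α⟩) 1 : JV n r ⊕ Cf m sb dg → ℂ) := by
    funext x
    rcases x with q | ⟨i', β⟩
    · rw [hT0, Pi.single_apply, if_neg (by simp)]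
    · by_cases hi : i' = i
      · subst hi
        rw [hTi, coeff_monomial, Pi.single_apply]
        by_cases hβ : α = β
        · subst hβ
          rw [if_pos rfl, if_pos rfl]
        · rw [if_neg, if_neg]
          · intro h
            apply hβ
            have h2 := Sum.inr_injective h
            exact (eq_of_heq (Sigma.mk.inj h2).2).symm
          · intro h
            apply hβ
            have h2 := Finsupp.equivFunOnFinite.symm.injective h
            apply Subtype.ext
            funext b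
            exact Fin.ext (congrFun h2 b)
      · rw [hTne _ _ _ hi, Pi.single_apply, if_neg]
        intro h
        exact hi (Sigma.mk.inj (Sum.inr_injective h)).1
  rw [hfin] at hmem
  exact hmem

end Pool.Agent.H89Y
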