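import Pool.Agent.Lib.H89Y.C6a

set_option autoImplicit false

/-!
H89Y, CHUNK C6b (M).  The compensation for one linear factor of a small block.
-/

open MvPolynomial

namespace Pool.Agent.H89Y

open Pool.Agent.H89T Pool.Agent.H78G Pool.Agent.H53Y

section c6b

variable {β : Type} {m : β → ℕ} {n : ℕ} {ι : Type} {sb : ι → β} {dg : ι → ℕ} {r : ℕ}

/-- The embedding of the ring of one linear polynomial. -/
noncomputable def c6b_k (e : Co m ≃ Fin n) (i : ι) (hd : dg i = 1) : B1 (m (sb i)) r →+* UG m sb dg n r :=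
  (rename (R := ℂ) (Sum.map (fun q : JV (m (sb i)) r => ((e ⟨sb i, q.1⟩, q.2) : JV n r))
    (fun c : Fin (m (sb i) + 1) => (⟨i, ix hd c⟩ : Cf m sb dg)))).toRingHom

theorem c6b_hX (e : Co m ≃ Fin n) (i : ι) (hd : dg i = 1) (c : Fin (m (sb i) + 1)) :
    c6b_k (r := r) e i hd (hX c) = aG ⟨i, ix hd c⟩ := by
  unfold hX aG
  exact rename_X _ _

theorem c6b_xX (e : Co m ≃ Fin n) (i : ι) (hd : dg i = 1) (q : JV (m (sb i)) r) :
    c6b_k (r := r) e i hd (xX q) = bj e (xG (m := m) (sb := sb) (dg := dg)) (sb i) q := by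
  unfold xX bj xG
  exact rename_X _ _

theorem c6b_xX' (e : Co m ≃ Fin n) (i : ι) (hd : dg i = 1) :
    (fun q : JV (m (sb i)) r => c6b_k (r := r) e i hd (xX q)) = bj e (xG (m := m) (sb := sb) (dg := dg)) (sb i) :=
  funext fun q => c6b_xX e i hd q

theorem c6b_linA_map (e : Co m ≃ Fin n) (i : ι) (hd : dg i = 1) (G : Fin (m (sb i) + 1) → B1 (m (sb i)) r) :
    (linA (fun c => Polynomial.C (G c)) (arc xX)).map (c6b_k e i hd) =
      linA (fun c => Polynomial.C (c6b_k e i hd (G c))) (arc (bj e (xG (m := m) (sb := sb) (dg := dg)) (sb i))) := by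
  have h1 := linA_map (Polynomial.mapRingHom (c6b_k (r := r) (sb := sb) (dg := dg) e i hd))
    (fun c => Polynomial.C (G c)) (arc xX)
  have h2 : ∀ b, (arc (xX (n := m (sb i)) (r := r)) b).map (c6b_k e i hd) =
      arc (bj e (xG (m := m) (sb := sb) (dg := dg)) (sb i)) b := by
    intro b
    rw [arc_map, c6b_xX']
  simp only [Polynomial.coe_mapRingHom, Polynomial.map_C, h2] at h1
  exact h1

theorem c6b_Wd (e : Co m ≃ Fin n) (s : β) (hr : m s ≤ r) :
    WtS ((m s + 1) * m s) (Wd hr (bj e (xG (m := m) (sb := sb) (dg := dg) (r := r)) s)) := by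
  classical
  unfold Wd
  rw [Matrix.det_apply]
  refine WtS.sum fun σ _ => ?_
  have h1 : WtS ((m s + 1) * m s) (∏ i : Fin (m s), (Matrix.of fun b l : Fin (m s) =>
      bj e (xG (m := m) (sb := sb) (dg := dg) (r := r)) s (b, ⟨(l : ℕ) + 1, by omega⟩)) (σ i) i) := by
    have h2 : WtS (∑ _i : Fin (m s), (m s + 1)) (∏ i : Fin (m s), (Matrix.of fun b l : Fin (m s) =>
        bj e (xG (m := m) (sb := sb) (dg := dg) (r := r)) s (b, ⟨(l : ℕ) + 1, by omega⟩)) (σ i) i) := by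
      refine WtS.prod fun i _ => ?_
      rw [Matrix.of_apply]
      unfold bj xG
      refine (WtS.inl _).mono ?_
      have := i.2
      simp only
      omega
    refine h2.mono ?_
    rw [Finset.sum_const, Finset.card_univ, Fintype.card_fin, smul_eq_mul, mul_comm]
  rcases Int.units_eq_one_or (Equiv.Perm.sign σ) with h | h
  · rw [h, one_smul]
    exact h1
  · rw [h, Units.neg_smul, one_smul]
    exact h1.neg

end c6b

/-- CHUNK C6b.  PROOF (as `horizontal_exists`, Lib/H78G/C4.lean).  `N`, `cH` from `hz_wt hr` (Lib/H78G/HZ2.lean, `n := m s`).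
Given `i` with `h : sb i = s` (`subst h`; `s` is a variable, so it is replaced by `sb i`; `Fin.cast` of a proof of `m (sb i) = m (sb i)` is the identity:
`Fin.cast_refl` or `rfl` after `Fin.ext`), write `α = ix hd cc` (`ix_bij`).  Let `κ : B1 (m (sb i)) r →+* UG ..` be
`(rename (Sum.map (fun q => (e ⟨sb i, q.1⟩, q.2)) (fun c => ⟨i, ix hd c⟩))).toRingHom`: `κ (hX c) = aG ⟨i, ix hd c⟩`, `κ (xX q) = bj e xG (sb i) q`
(`rename_X`).  Apply `Polynomial.map κ` to the identity of `hz_wt` for `cc`, `j` (`linA_map` for `Polynomial.mapRingHom κ`, `arc_map`, `Wd_map`, as in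
`C4_linA_map`, `h4` of `horizontal_exists`):
  `C ((Wd' * aG ⟨i, α⟩) ^ N) * X ^ j = linA (fun c => C (κ (G c))) (arc ξ') + v * q' + X ^ (r + 1) * e'`,   `ξ' = bj e xG (sb i)`,  `v = vG e i`
(`v = linA (fun c => C (aG ⟨i, ix hd c⟩)) (arc ξ')` by `Fx_ix`).  Put `g α' = - (aG ⟨i, ix hd b.succ⟩) * κ (G (ci α'))`, `ci` the inverse of `ix hd`
(`Equiv.ofBijective _ (ix_bij hd)`); `Fx g ξ' = - C (aG ..) * linA (C ∘ κ ∘ G) (arc ξ')` (`Fx_ix`), `Fdx = C (aG ⟨i, ix hd b.succ⟩)` (`Fdx_ix`), so the sum is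
`C (aG ..) * (v * q' + X ^ (r + 1) * e')`.  Weights: `WtS_rename`, `WtS.inr`, `WtS.mul`, `WtS.neg`.  The weight of `Wd ^ N`: copy the proof of `WtS.Wd`
(Lib/H78G/W0.lean): the entries `xG (e ⟨s, b⟩, ⟨l + 1, _⟩)` have weight `l + 2 ≤ m s + 1` (`WtS.inl`), so `Wd` has weight `≤ (m s + 1) * m s`; take
`cH' = cH + N * ((m s + 1) * m s)` (`WtS.pow`, `WtS.mono`). -/
theorem small_comp {β : Type} (m : β → ℕ) (s : β) {r : ℕ} (hr : m s ≤ r) : ∃ N cH : ℕ,
    ∀ {n : ℕ} (e : Co m ≃ Fin n) {ι : Type} (sb : ι → β) (dg : ι → ℕ),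
      WtS cH (Wd hr (bj e (xG (m := m) (sb := sb) (dg := dg) (r := r)) s) ^ N) ∧
      ∀ (i : ι) (h : sb i = s) (_ : dg i = 1)
      (α : Idx (m (sb i)) (dg i)) (b : Fin (m s)) (j : Fin (r + 1)),
      ∃ g : Idx (m (sb i)) (dg i) → UG m sb dg n r, (∀ α', WtS cH (g α')) ∧
        Fx g (bj e xG (sb i)) +
          Fdx (Fin.cast (by rw [h]) b) (fun α' => (aG ⟨i, α'⟩ : UG m sb dg n r)) (bj e xG (sb i)) *
            (Polynomial.C ((Wd hr (bj e xG s) * aG ⟨i, α⟩) ^ N) * Polynomial.X ^ (j : ℕ)) ∈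
          Ideal.span {vG e i, (Polynomial.X : Polynomial (UG m sb dg n r)) ^ (r + 1)} := by
  classical
  obtain ⟨N, cH, hNc⟩ := hz_wt (n := m s) (r := r) hr
  refine ⟨N, cH + N * ((m s + 1) * m s), ?_⟩
  intro n e ι sb dg
  refine ⟨((c6b_Wd e s hr).pow N).mono (Nat.le_add_left _ _), ?_⟩
  intro i h hd α b j
  subst h
  obtain ⟨cc, hcc⟩ := (ix_bij hd).2 α
  subst hcc
  obtain ⟨G, q, e', hG, hid⟩ := hNc cc j
  generalize hb' : (Fin.cast (by rfl) b : Fin (m (sb i))) = b'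
  set ci := (Equiv.ofBijective _ (ix_bij (n := m (sb i)) hd)).symm with hci
  have hcix : ∀ c, ci (ix hd c) = c := fun c => (Equiv.ofBijective _ (ix_bij (n := m (sb i)) hd)).symm_apply_apply c
  refine ⟨fun α' => -(aG ⟨i, ix hd b'.succ⟩) * c6b_k e i hd (G (ci α')), ?_, ?_⟩
  · intro α'
    have h1 : WtS 0 (-(aG ⟨i, ix hd b'.succ⟩ : UG m sb dg n r)) := (WtS.inr _).neg
    have h2 : WtS cH (c6b_k e i hd (G (ci α')) : UG m sb dg n r) :=
      WtS_rename (fun q : JV (m (sb i)) r => ((e ⟨sb i, q.1⟩, q.2) : JV n r)) (fun _ => rfl)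
        (fun c : Fin (m (sb i) + 1) => (⟨i, ix hd c⟩ : Cf m sb dg)) (hG (ci α'))
    have h3 := h1.mul h2
    rw [zero_add] at h3
    exact h3.mono (Nat.le_add_right _ _)
  · have h4 := congrArg (Polynomial.map (c6b_k (r := r) e i hd)) hid
    rw [Polynomial.map_add, Polynomial.map_add, Polynomial.map_mul, Polynomial.map_mul,
      Polynomial.map_mul, Polynomial.map_pow, Polynomial.map_pow, Polynomial.map_C,
      Polynomial.map_X, c6b_linA_map, c6b_linA_map, map_pow, map_mul, c6b_hX, Wd_map, c6b_xX'] at h4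
    have h6 : linA (fun c => Polynomial.C (c6b_k (r := r) e i hd (hX c))) (arc (bj e (xG (m := m) (sb := sb) (dg := dg)) (sb i))) = vG e i := by
      unfold vG fa
      rw [Fx_ix hd]
      simp only [c6b_hX]
    rw [h6] at h4
    have h7 : Fx (fun α' => -(aG ⟨i, ix hd b'.succ⟩) * c6b_k e i hd (G (ci α'))) (bj e (xG (m := m) (sb := sb) (dg := dg)) (sb i)) =
        -(Polynomial.C (aG ⟨i, ix hd b'.succ⟩)) * linA (fun c => Polynomial.C (c6b_k e i hd (G c))) (arc (bj e (xG (m := m) (sb := sb) (dg := dg)) (sb i))) := by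
      rw [Fx_ix hd, ← C4_linA_mul]
      congr 1
      funext c
      rw [hcix, Polynomial.C_mul, Polynomial.C_neg]
    rw [h7, Fdx_ix hd, h4]
    have h8 : -(Polynomial.C (aG ⟨i, ix hd b'.succ⟩)) * linA (fun c => Polynomial.C (c6b_k e i hd (G c))) (arc (bj e (xG (m := m) (sb := sb) (dg := dg)) (sb i))) +
        Polynomial.C (aG ⟨i, ix hd b'.succ⟩) * (linA (fun c => Polynomial.C (c6b_k e i hd (G c))) (arc (bj e (xG (m := m) (sb := sb) (dg := dg)) (sb i))) +
          vG e i * q.map (c6b_k e i hd) + Polynomial.X ^ (r + 1) * e'.map (c6b_k e i hd)) =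
        Polynomial.C (aG ⟨i, ix hd b'.succ⟩) * (vG e i * q.map (c6b_k e i hd) + Polynomial.X ^ (r + 1) * e'.map (c6b_k e i hd)) := by ring
    rw [h8]
    apply Ideal.mul_mem_left
    apply Ideal.add_mem
    · exact Ideal.mul_mem_right _ _ (Ideal.subset_span (Set.mem_insert _ _))
    · exact Ideal.mul_mem_right _ _ (Ideal.subset_span (Set.mem_insert_of_mem _ (Set.mem_singleton _)))

end Pool.Agent.H89Y
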